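import Pool.Agent.WTor.Induct

/-!
# The elimination induction for sets smaller than the subgroup `H`

`H` is generated by the differences of the support of `c`. `order_lt`: as `order` in `Order.lean` (copy that proof: if no
good `y` exists then `U` is invariant under all differences `s - s'`, hence under `H`; so `U ⊇ x₀ + H` for `x₀ ∈ U`
and `|U| ≥ |H|`). `induct_lt`: copy the proof of `induct` in `Induct.lean`, with `order_lt` in place of `order`
(all steps are good, so the bound is `|U|`).
-/

set_option autoImplicit false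

namespace Pool.Agent.WTor

open Finset

theorem order_lt {G : Type} [AddCommGroup G] [Fintype G] [DecidableEq G] (c : G → ℤ) (m : ℤ) (hm : m ≠ 0)
    (hsum : ∑ z, c z = m) (U : Finset G) (hU : U.Nonempty)
    (hlt : U.card < Nat.card (AddSubgroup.closure
      {g : G | ∃ s s', c s ≠ 0 ∧ c s' ≠ 0 ∧ g = s - s'})) :
    ∃ y, (∃ x ∈ U, c (y - x) ≠ 0) ∧ ∑ x ∈ U, c (y - x) ≠ m := by
  classical
  by_contra hcon
  push Not at hcon
  set W : Finset G := univ.filter (fun y => ∃ x ∈ U, c (y - x) ≠ 0) with hW
  have hsumy : ∀ x : G, ∑ y, c (y - x) = m := by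
    intro x
    rw [← hsum]
    exact Fintype.sum_equiv (Equiv.subRight x) _ _ (fun y => rfl)
  have h1 : ∑ y, ∑ x ∈ U, c (y - x) = (U.card : ℤ) * m := by
    rw [sum_comm]
    rw [sum_congr rfl (fun x _ => hsumy x)]
    simp
  have h2 : ∑ y, ∑ x ∈ U, c (y - x) = (W.card : ℤ) * m := by
    have e : ∀ y : G, ∑ x ∈ U, c (y - x) = if y ∈ W then m else 0 := by
      intro y
      by_cases hy : y ∈ W
      · rw [if_pos hy]
        rw [hW, mem_filter] at hy
        obtain ⟨-, x, hx, hc⟩ := hy
        exact hcon y ⟨x, hx, hc⟩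
      · rw [if_neg hy]
        apply sum_eq_zero
        intro x hx
        by_contra hc
        exact hy (by rw [hW, mem_filter]; exact ⟨mem_univ _, x, hx, hc⟩)
    rw [sum_congr rfl (fun y _ => e y)]
    rw [← sum_filter]
    simp
  have hcard : W.card = U.card := by
    have h3 : (W.card : ℤ) * m = (U.card : ℤ) * m := by rw [← h1, ← h2]
    have := mul_right_cancel₀ hm h3
    exact_mod_cast this
  have htr : ∀ s : G, c s ≠ 0 → U.image (fun x => x + s) = W := by
    intro s hs
    apply eq_of_subset_of_card_le
    · intro y hy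
      rw [mem_image] at hy
      obtain ⟨x, hx, rfl⟩ := hy
      rw [hW, mem_filter]
      exact ⟨mem_univ _, x, hx, by simpa using hs⟩
    · rw [card_image_of_injective _ (add_left_injective s), hcard]
  have hstab : ∀ g : G, g ∈ AddSubgroup.closure {g : G | ∃ s s', c s ≠ 0 ∧ c s' ≠ 0 ∧ g = s - s'} →
      ∀ x, x ∈ U ↔ x + g ∈ U := by
    intro g hg
    induction hg using AddSubgroup.closure_induction with
    | mem g hg =>
      obtain ⟨s, s', hs, hs', rfl⟩ := hg
      intro x
      constructor
      · intro hx
        have : x + s ∈ W := by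
          rw [← htr s hs]; exact mem_image_of_mem _ hx
        rw [← htr s' hs', mem_image] at this
        obtain ⟨x', hx', e⟩ := this
        have : x + (s - s') = x' := by
          have : x + s - s' = x' := by rw [← e]; abel
          rw [← this]; abel
        rw [this]; exact hx'
      · intro hx
        have : x + (s - s') + s' ∈ W := by
          rw [← htr s' hs']; exact mem_image_of_mem _ hx
        rw [← htr s hs, mem_image] at this
        obtain ⟨x', hx', e⟩ := this
        have : x = x' := by
          have : x + s = x' + s := by rw [e]; abel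
          exact add_right_cancel this
        rw [this]; exact hx'
    | zero => intro x; simp
    | add a b _ _ ha hb =>
      intro x
      rw [ha x, hb (x + a), add_assoc]
    | neg a _ ha =>
      intro x
      rw [ha (x + -a)]
      simp
  obtain ⟨H, hH⟩ : ∃ H : AddSubgroup G, H = AddSubgroup.closure
    {g : G | ∃ s s', c s ≠ 0 ∧ c s' ≠ 0 ∧ g = s - s'} := ⟨_, rfl⟩
  rw [← hH] at hlt hstab
  obtain ⟨x₀, hx₀⟩ := hU
  have hinj : Function.Injective (fun h : H => (⟨x₀ + (h : G), (hstab h h.2 x₀).1 hx₀⟩ : U)) := by
    intro a b hab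
    have h5 := congrArg Subtype.val hab
    simp only [add_right_inj] at h5
    exact Subtype.ext h5
  have h6 := Nat.card_le_card_of_injective _ hinj
  rw [Nat.card_eq_fintype_card (α := U), Fintype.card_coe] at h6
  omega

theorem induct_lt {G : Type} [AddCommGroup G] [Fintype G] (c : G → ℤ) (m : ℕ) (hm : 0 < m)
    (hsum : ∑ z, c z = m) (U : Finset G)
    (hlt : U.card < Nat.card (AddSubgroup.closure
      {g : G | ∃ s s', c s ≠ 0 ∧ c s' ≠ 0 ∧ g = s - s'})) : ∃ τ e : G → ℝ, (∀ y, e y ≠ 0) ∧
      (∀ y, (∀ x ∈ U, c (y - x) = 0) → τ y = 0 ∧ 0 < e y) ∧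
      (∀ x ∈ U, ∑ z, (c z : ℝ) * e (x + z) ≠ 0) ∧
      ∑ y, colc m (τ y) (e y) +
        ∑ x ∈ U, rowc (∑ z, (c z : ℝ) * τ (x + z)) (∑ z, (c z : ℝ) * e (x + z)) ≤ (U.card : ℤ) := by
  classical
  induction U using Finset.strongInduction with
  | H U ih =>
  rcases U.eq_empty_or_nonempty with hU | hU
  · subst hU
    refine ⟨fun _ => 0, fun _ => 1, fun _ => one_ne_zero, fun _ _ => ⟨rfl, one_pos⟩, by simp, ?_⟩
    simp only [sum_empty, add_zero, card_empty, Nat.cast_zero]
    rw [sum_eq_zero (fun y _ => colc_zero m 1 one_pos)]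
  · -- choose the column
    obtain ⟨y, ⟨x₀, hx₀, hcx₀⟩, hy⟩ := order_lt c m (by exact_mod_cast hm.ne') hsum U hU hlt
    set V : Finset G := U.filter (fun x => c (y - x) ≠ 0) with hV
    set U' : Finset G := U.filter (fun x => ¬ c (y - x) ≠ 0) with hU'
    have hU'sub : U' ⊂ U := by
      rw [Finset.ssubset_iff_of_subset (filter_subset _ _)]
      exact ⟨x₀, hx₀, fun h => (mem_filter.1 h).2 hcx₀⟩
    obtain ⟨τ', e', he', hun', hrow', hle'⟩ := ih U' hU'sub
      (lt_of_le_of_lt (card_le_card hU'sub.1) hlt)
    have hyun : τ' y = 0 ∧ 0 < e' y := by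
      apply hun' y
      intro x hx
      rw [hU', mem_filter] at hx
      exact not_not.1 hx.2
    obtain ⟨τ₀, η, hη, hsel⟩ := select V (fun x => c (y - x))
      (fun x hx => (mem_filter.1 hx).2) (fun x => ∑ z, (c z : ℝ) * τ' (x + z)) m hm
    have hη0 : η ≠ 0 := by
      rcases hη with h | h <;> rw [h] <;> norm_num
    have hη1 : |η| = 1 := by
      rcases hη with h | h <;> rw [h] <;> norm_num
    have hsumV : ∑ x ∈ V, c (y - x) = ∑ x ∈ U, c (y - x) := by
      rw [hV, sum_filter_ne_zero]
    set E : G → ℝ := fun x => ∑ z, (c z : ℝ) * e' (x + z) + (c (y - x) : ℝ) * (0 - e' y) with hE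
    set B : ℝ := 1 + ∑ x, |E x| with hB
    have hBpos : 0 < B := by
      have : 0 ≤ ∑ x, |E x| := sum_nonneg (fun x _ => abs_nonneg _)
      linarith
    have hBE : ∀ x, |E x| < B := by
      intro x
      have : |E x| ≤ ∑ x, |E x| :=
        single_le_sum (f := fun x => |E x|) (fun x _ => abs_nonneg _) (mem_univ x)
      linarith
    set τ : G → ℝ := Function.update τ' y τ₀ with hτ
    set e : G → ℝ := Function.update e' y (η * B) with he
    have hτrow : ∀ x, ∑ z, (c z : ℝ) * τ (x + z) =
        ∑ z, (c z : ℝ) * τ' (x + z) + (c (y - x) : ℝ) * τ₀ := by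
      intro x
      rw [hτ, sum_update, hyun.1, sub_zero]
    have herow : ∀ x, ∑ z, (c z : ℝ) * e (x + z) = E x + (c (y - x) : ℝ) * (η * B) := by
      intro x
      rw [he, sum_update, hE]
      ring
    have hsign : ∀ x ∈ V, (E x + (c (y - x) : ℝ) * (η * B) ≠ 0) ∧
        ((0 < E x + (c (y - x) : ℝ) * (η * B)) ↔ 0 < (c (y - x) : ℝ) * η) := by
      intro x hx
      have hc : c (y - x) ≠ 0 := (mem_filter.1 hx).2
      have hc1 : (1 : ℝ) ≤ |(c (y - x) : ℝ)| := by
        have : (1 : ℤ) ≤ |c (y - x)| := Int.one_le_abs hc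
        exact_mod_cast this
      have habs : B ≤ |(c (y - x) : ℝ) * (η * B)| := by
        rw [abs_mul, abs_mul, hη1, one_mul, abs_of_pos hBpos]
        nlinarith
      have hEx := abs_lt.1 (hBE x)
      rcases lt_or_ge 0 ((c (y - x) : ℝ) * η) with hp | hn
      · have : 0 < (c (y - x) : ℝ) * (η * B) := by
          rw [← mul_assoc]; exact mul_pos hp hBpos
        rw [abs_of_pos this] at habs
        refine ⟨by linarith, fun _ => hp, fun _ => by linarith⟩
      · have : (c (y - x) : ℝ) * (η * B) ≤ 0 := by
          rw [← mul_assoc]; exact mul_nonpos_of_nonpos_of_nonneg hn hBpos.le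
        rw [abs_of_nonpos this] at habs
        refine ⟨by linarith, fun h => by linarith, fun h => by linarith⟩
    refine ⟨τ, e, ?_, ?_, ?_, ?_⟩
    · intro y'
      by_cases hyy : y' = y
      · subst hyy
        rw [he, Function.update_self]
        exact mul_ne_zero hη0 hBpos.ne'
      · rw [he, Function.update_of_ne hyy]
        exact he' y'
    · intro y' hy'
      have hyy : y' ≠ y := by
        rintro rfl
        exact hcx₀ (hy' x₀ hx₀)
      rw [hτ, he, Function.update_of_ne hyy, Function.update_of_ne hyy]
      exact hun' y' (fun x hx => hy' x (filter_subset _ _ hx))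
    · intro x hx
      rw [herow]
      by_cases hxV : c (y - x) = 0
      · have hx' : x ∈ U' := by rw [hU', mem_filter]; exact ⟨hx, by simpa using hxV⟩
        have := hrow' x hx'
        rw [hE]
        simp only [hxV, Int.cast_zero, zero_mul, add_zero]
        exact this
      · exact (hsign x (by rw [hV, mem_filter]; exact ⟨hx, hxV⟩)).1
    · -- the estimate
      have hcol : ∑ y', colc m (τ y') (e y') = ∑ y', colc m (τ' y') (e' y') + colc m τ₀ η := by
        have h1 : ∀ y', colc m (τ y') (e y') = colc m (τ' y') (e' y') +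
            (if y' = y then colc m τ₀ η else 0) := by
          intro y'
          by_cases hyy : y' = y
          · subst hyy
            rw [if_pos rfl, hτ, he, Function.update_self, Function.update_self, hyun.1,
              colc_zero m _ hyun.2, zero_add]
            apply colc_congr
            exact ⟨fun h => (pos_iff_pos_of_mul_pos h).2 hBpos,
              fun h => mul_pos h hBpos⟩
          · rw [if_neg hyy, hτ, he, Function.update_of_ne hyy, Function.update_of_ne hyy, add_zero]
        rw [sum_congr rfl (fun y' _ => h1 y'), sum_add_distrib, sum_ite_eq' univ]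
        simp
      have hrows : ∑ x ∈ U, rowc (∑ z, (c z : ℝ) * τ (x + z)) (∑ z, (c z : ℝ) * e (x + z)) =
          ∑ x ∈ U', rowc (∑ z, (c z : ℝ) * τ' (x + z)) (∑ z, (c z : ℝ) * e' (x + z)) +
          ∑ x ∈ V, rowc (∑ z, (c z : ℝ) * τ' (x + z) + (c (y - x) : ℝ) * τ₀)
            ((c (y - x) : ℝ) * η) := by
        rw [← sum_filter_add_sum_filter_not U (fun x => c (y - x) ≠ 0), add_comm]
        congr 1
        · apply sum_congr rfl
          intro x hx
          have hxV : c (y - x) = 0 := not_not.1 (mem_filter.1 hx).2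
          rw [hτrow, herow, hE]
          simp only [hxV, Int.cast_zero, zero_mul, add_zero]
        · apply sum_congr rfl
          intro x hx
          rw [hτrow, herow]
          exact rowc_congr _ _ _ (hsign x hx).2
      have hcard : (U.card : ℤ) = U'.card + V.card := by
        have := card_filter_add_card_filter_not (s := U) (fun x => c (y - x) ≠ 0)
        rw [hU', hV]
        omega
      rw [if_neg (by rw [hsumV]; exact hy)] at hsel
      rw [hcol, hrows, hcard]
      linarith

end Pool.Agent.WTor
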