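import Pool.Agent.WTor.Perturb

/-!
# Uniform margins

`A : R → Y → ℤ` is a finite integer matrix (rows `R`, columns `Y`). A solution is a pair `τ, e : Y → ℝ` with all
`e_y ≠ 0` and all `(A e)_x ≠ 0`; its level is
`∑_y colc m (τ_y) (e_y) + ∑_x rowc ((A τ)_x) ((A e)_x)` (an integer `≥ 0`).

Step 1 (`margin_one`: one solution of level `≤ L`). Put `u_0 = τ + δ' e`, `u_1 = -τ + δ' e`, `δ' > 0` small. By the lemma
`pair` of `Perturb.lean` (see the proof of `perturb` there, which is the same computation): nothing is an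
integer, and the sum of `-⌊m u_i(y)⌋` and `-⌊-(A u_i)_x⌋` over `i = 0,1` is the level. The sum of the fractional
parts is this plus `2 δ' (m ∑ e_y - ∑_x (A e)_x)`, so `≤ L + θ` for `δ'` small. Finitely many non-integers have a
positive distance `δ` from the integers.

Step 2 (uniformity). If the matrix has a solution at all, let `L₀` be the least level of a solution and take
`δ(A, m)` from step 1 for a solution of level `L₀`; it serves for all `L ≥ L₀`, i.e. for every solution. For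
`R = Fin r`, `Y = Fin s`, `r ≤ r₀`, `s ≤ s₀`, `|A| ≤ C`, `m ≤ M` there are finitely many `(A, m)`; take the minimum of the
`δ(A, m)`. General `R`, `Y` by `Fintype.equivFin`.
-/

set_option autoImplicit false

namespace Pool.Agent.WTor

open Finset

open Filter Topology in
/-- Step 1: one solution. -/
private theorem margin_one {R Y : Type} [Fintype R] [Fintype Y] (A : R → Y → ℤ) (m : ℕ)
    (hm : 1 ≤ m) (θ : ℝ) (hθ : 0 < θ) (τ e : Y → ℝ) (he : ∀ y, e y ≠ 0)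
    (hrow : ∀ x, ∑ y, (A x y : ℝ) * e y ≠ 0) :
    ∃ (δ : ℝ) (u : Fin 2 → Y → ℝ), 0 < δ ∧
      (∀ i y, ∀ j : ℤ, δ ≤ |(m : ℝ) * u i y - j|) ∧
      (∀ i x, ∀ j : ℤ, δ ≤ |∑ y, (A x y : ℝ) * u i y - j|) ∧
      (∑ i, (∑ y, Int.fract ((m : ℝ) * u i y) +
        ∑ x, Int.fract (-∑ y, (A x y : ℝ) * u i y)) ≤
        ((∑ y, colc m (τ y) (e y) +
          ∑ x, rowc (∑ y, (A x y : ℝ) * τ y) (∑ y, (A x y : ℝ) * e y) : ℤ) : ℝ) + θ) ∧
      (∑ i, -(∑ y, ⌊(m : ℝ) * u i y⌋ + ∑ x, ⌊-∑ y, (A x y : ℝ) * u i y⌋) =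
        ∑ y, colc m (τ y) (e y) +
          ∑ x, rowc (∑ y, (A x y : ℝ) * τ y) (∑ y, (A x y : ℝ) * e y)) := by
  classical
  have hm0 : (0 : ℝ) < m := by exact_mod_cast hm
  have hC : ∀ᶠ δ in 𝓝[>] (0 : ℝ), ∀ y, (∀ j : ℤ, (m : ℝ) * τ y + δ * ((m : ℝ) * e y) ≠ j) ∧
      (∀ j : ℤ, -((m : ℝ) * τ y) + δ * ((m : ℝ) * e y) ≠ j) ∧
      -(⌊(m : ℝ) * τ y + δ * ((m : ℝ) * e y)⌋ + ⌊-((m : ℝ) * τ y) + δ * ((m : ℝ) * e y)⌋) =
        (if ∃ k : ℤ, (m : ℝ) * τ y = k then (if 0 < (m : ℝ) * e y then 0 else 2) else 1) := by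
    rw [eventually_all]
    intro y
    exact pair _ _ (mul_ne_zero hm0.ne' (he y))
  have hR : ∀ᶠ δ in 𝓝[>] (0 : ℝ), ∀ x,
      (∀ j : ℤ, (-∑ y, (A x y : ℝ) * τ y) + δ * (-∑ y, (A x y : ℝ) * e y) ≠ j) ∧
      (∀ j : ℤ, -(-∑ y, (A x y : ℝ) * τ y) + δ * (-∑ y, (A x y : ℝ) * e y) ≠ j) ∧
      -(⌊(-∑ y, (A x y : ℝ) * τ y) + δ * (-∑ y, (A x y : ℝ) * e y)⌋ +
        ⌊-(-∑ y, (A x y : ℝ) * τ y) + δ * (-∑ y, (A x y : ℝ) * e y)⌋) =
        (if ∃ k : ℤ, (-∑ y, (A x y : ℝ) * τ y) = k then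
          (if 0 < (-∑ y, (A x y : ℝ) * e y) then 0 else 2) else 1) := by
    rw [eventually_all]
    intro x
    exact pair _ _ (neg_ne_zero.2 (hrow x))
  set W : ℝ := |2 * ((m : ℝ) * ∑ y, e y - ∑ x, ∑ y, (A x y : ℝ) * e y)| + 1 with hW
  have hWpos : 0 < W := by positivity
  have hS : Set.Ioo (0 : ℝ) (θ / W) ∈ 𝓝[>] (0 : ℝ) := Ioo_mem_nhdsGT (by positivity)
  obtain ⟨d, ⟨hdC, hdR⟩, hd0, hdW⟩ := ((hC.and hR).and hS).exists
  set sg : Fin 2 → ℝ := ![1, -1] with hsg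
  set u : Fin 2 → Y → ℝ := fun i y => sg i * τ y + d * e y with hu
  have hcol : ∀ i y, (m : ℝ) * u i y = sg i * ((m : ℝ) * τ y) + d * ((m : ℝ) * e y) := by
    intro i y
    simp only [hu]; ring
  have hrowu : ∀ i x, -∑ y, (A x y : ℝ) * u i y =
      sg i * (-∑ y, (A x y : ℝ) * τ y) + d * (-∑ y, (A x y : ℝ) * e y) := by
    intro i x
    simp only [hu, mul_add, sum_add_distrib, mul_neg, mul_sum]
    rw [neg_add]
    congr 1 <;> (congr 1; apply sum_congr rfl; intro z _; ring)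
  have hcolc : ∀ y, colc m (τ y) (e y) =
      (if ∃ k : ℤ, (m : ℝ) * τ y = k then (if 0 < (m : ℝ) * e y then 0 else 2) else 1) := by
    intro y
    unfold colc
    have : 0 < (m : ℝ) * e y ↔ 0 < e y := mul_pos_iff_of_pos_left hm0
    simp only [this]
  have hrowc : ∀ x, rowc (∑ y, (A x y : ℝ) * τ y) (∑ y, (A x y : ℝ) * e y) =
      (if ∃ k : ℤ, (-∑ y, (A x y : ℝ) * τ y) = k then
          (if 0 < (-∑ y, (A x y : ℝ) * e y) then 0 else 2) else 1) := by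
    intro x
    unfold rowc
    have h1 : (∃ k : ℤ, (-∑ y, (A x y : ℝ) * τ y) = k) ↔
        ∃ k : ℤ, (∑ y, (A x y : ℝ) * τ y) = k := by
      constructor
      · rintro ⟨k, hk⟩; exact ⟨-k, by push_cast; linarith⟩
      · rintro ⟨k, hk⟩; exact ⟨-k, by push_cast; linarith⟩
    simp only [h1]
    by_cases hk : ∃ k : ℤ, (∑ y, (A x y : ℝ) * τ y) = k
    · rw [if_pos hk, if_pos hk]
      rcases lt_or_gt_of_ne (hrow x) with hn | hp
      · rw [if_neg (not_lt.2 hn.le), if_pos (by linarith)]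
      · rw [if_pos hp, if_neg (by linarith)]
    · rw [if_neg hk, if_neg hk]
  have hlev : (∑ i, -(∑ y, ⌊(m : ℝ) * u i y⌋ + ∑ x, ⌊-∑ y, (A x y : ℝ) * u i y⌋) =
        ∑ y, colc m (τ y) (e y) +
          ∑ x, rowc (∑ y, (A x y : ℝ) * τ y) (∑ y, (A x y : ℝ) * e y)) := by
    have e1 : ∑ y, colc m (τ y) (e y) = -(∑ y, ⌊(m : ℝ) * u 0 y⌋ + ∑ y, ⌊(m : ℝ) * u 1 y⌋) := by
      rw [← sum_add_distrib, ← sum_neg_distrib]
      apply sum_congr rfl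
      intro y _
      rw [hcolc, ← (hdC y).2.2, hcol, hcol]
      simp [hsg]
    have e2 : ∑ x, rowc (∑ y, (A x y : ℝ) * τ y) (∑ y, (A x y : ℝ) * e y) =
        -(∑ x, ⌊-∑ y, (A x y : ℝ) * u 0 y⌋ + ∑ x, ⌊-∑ y, (A x y : ℝ) * u 1 y⌋) := by
      rw [← sum_add_distrib, ← sum_neg_distrib]
      apply sum_congr rfl
      intro x _
      rw [hrowc, ← (hdR x).2.2, hrowu, hrowu]
      simp [hsg]
    rw [Fin.sum_univ_two, e1, e2]
    ring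
  have hng : ∀ i y, ∀ j : ℤ, (m : ℝ) * u i y ≠ j := by
    intro i y j
    rw [hcol]
    fin_cases i
    · simp only [hsg, Fin.zero_eta, Matrix.cons_val_zero, one_mul]
      exact (hdC y).1 j
    · simp only [hsg, Fin.mk_one, Matrix.cons_val_one, Matrix.cons_val_zero, neg_mul, one_mul]
      exact (hdC y).2.1 j
  have hnr : ∀ i x, ∀ j : ℤ, ∑ y, (A x y : ℝ) * u i y ≠ j := by
    intro i x j hj
    have h1 : -∑ y, (A x y : ℝ) * u i y = ((-j : ℤ) : ℝ) := by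
      rw [hj]; push_cast; ring
    rw [hrowu] at h1
    fin_cases i
    · simp only [hsg, Fin.zero_eta, Matrix.cons_val_zero, one_mul] at h1
      exact (hdR x).1 (-j) h1
    · simp only [hsg, Fin.mk_one, Matrix.cons_val_one, Matrix.cons_val_zero, neg_mul,
        one_mul] at h1
      exact (hdR x).2.1 (-j) h1
  -- a common margin
  have hdist : ∀ a : ℝ, (∀ j : ℤ, a ≠ j) → ∃ δ : ℝ, 0 < δ ∧ ∀ j : ℤ, δ ≤ |a - j| := by
    intro a ha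
    refine ⟨|a - round a|, abs_pos.2 (sub_ne_zero.2 (ha _)), fun j => round_le a j⟩
  obtain ⟨δ₁, h1p, h1⟩ : ∃ δ : ℝ, 0 < δ ∧ ∀ i y, ∀ j : ℤ, δ ≤ |(m : ℝ) * u i y - j| := by
    choose f hf0 hf using fun (q : Fin 2 × Y) => hdist ((m : ℝ) * u q.1 q.2) (hng q.1 q.2)
    rcases isEmpty_or_nonempty Y with hY | hY
    · exact ⟨1, one_pos, fun i y => (hY.false y).elim⟩
    · obtain ⟨q0, hq0⟩ := Finite.exists_min f
      exact ⟨f q0, hf0 q0, fun i y j => (hq0 (i, y)).trans (hf (i, y) j)⟩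
  obtain ⟨δ₂, h2p, h2⟩ : ∃ δ : ℝ, 0 < δ ∧ ∀ i x, ∀ j : ℤ,
      δ ≤ |∑ y, (A x y : ℝ) * u i y - j| := by
    choose f hf0 hf using fun (q : Fin 2 × R) => hdist (∑ y, (A q.2 y : ℝ) * u q.1 y)
      (hnr q.1 q.2)
    rcases isEmpty_or_nonempty R with hY | hY
    · exact ⟨1, one_pos, fun i y => (hY.false y).elim⟩
    · obtain ⟨q0, hq0⟩ := Finite.exists_min f
      exact ⟨f q0, hf0 q0, fun i y j => (hq0 (i, y)).trans (hf (i, y) j)⟩
  refine ⟨min δ₁ δ₂, u, lt_min h1p h2p, fun i y j => (min_le_left _ _).trans (h1 i y j),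
    fun i x j => (min_le_right _ _).trans (h2 i x j), ?_, hlev⟩
  have hfr : ∑ i, (∑ y, Int.fract ((m : ℝ) * u i y) +
        ∑ x, Int.fract (-∑ y, (A x y : ℝ) * u i y)) =
      ∑ i, (∑ y, (m : ℝ) * u i y + ∑ x, (-∑ y, (A x y : ℝ) * u i y)) +
      ((∑ i, -(∑ y, ⌊(m : ℝ) * u i y⌋ + ∑ x, ⌊-∑ y, (A x y : ℝ) * u i y⌋) : ℤ) : ℝ) := by
    push_cast
    rw [← sum_add_distrib]
    apply sum_congr rfl
    intro i _
    unfold Int.fract
    rw [sum_sub_distrib, sum_sub_distrib]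
    ring
  have hlin : ∑ i, (∑ y, (m : ℝ) * u i y + ∑ x, (-∑ y, (A x y : ℝ) * u i y)) =
      d * (2 * ((m : ℝ) * ∑ y, e y - ∑ x, ∑ y, (A x y : ℝ) * e y)) := by
    simp only [hcol, hrowu]
    rw [Fin.sum_univ_two]
    simp only [hsg, Matrix.cons_val_zero, Matrix.cons_val_one, sum_add_distrib, ← mul_sum,
      sum_neg_distrib]
    ring
  rw [hfr, hlin, hlev]
  have h3 : d * (2 * ((m : ℝ) * ∑ y, e y - ∑ x, ∑ y, (A x y : ℝ) * e y)) ≤ θ := by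
    have h4 : d * (2 * ((m : ℝ) * ∑ y, e y - ∑ x, ∑ y, (A x y : ℝ) * e y)) ≤ d * W := by
      apply mul_le_mul_of_nonneg_left _ hd0.le
      rw [hW]
      have := le_abs_self (2 * ((m : ℝ) * ∑ y, e y - ∑ x, ∑ y, (A x y : ℝ) * e y))
      linarith
    have h5 : d * W < θ := by
      rw [← lt_div_iff₀ hWpos]; exact hdW
    linarith
  linarith

/-- Step 2 for one matrix. -/
private theorem margin_mat {R Y : Type} [Fintype R] [Fintype Y] (A : R → Y → ℤ) (m : ℕ)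
    (hm : 1 ≤ m) (θ : ℝ) (hθ : 0 < θ) :
    ∃ δ : ℝ, 0 < δ ∧ ∀ (L : ℤ) (τ e : Y → ℝ), (∀ y, e y ≠ 0) →
    (∀ x, ∑ y, (A x y : ℝ) * e y ≠ 0) →
    ∑ y, colc m (τ y) (e y) +
      ∑ x, rowc (∑ y, (A x y : ℝ) * τ y) (∑ y, (A x y : ℝ) * e y) ≤ L →
    ∃ u : Fin 2 → Y → ℝ,
      (∀ i y, ∀ j : ℤ, δ ≤ |(m : ℝ) * u i y - j|) ∧
      (∀ i x, ∀ j : ℤ, δ ≤ |∑ y, (A x y : ℝ) * u i y - j|) ∧
      (∑ i, (∑ y, Int.fract ((m : ℝ) * u i y) +
        ∑ x, Int.fract (-∑ y, (A x y : ℝ) * u i y)) ≤ L + θ) ∧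
      (∑ i, -(∑ y, ⌊(m : ℝ) * u i y⌋ + ∑ x, ⌊-∑ y, (A x y : ℝ) * u i y⌋) ≤ L) := by
  classical
  set lev : (Y → ℝ) × (Y → ℝ) → ℤ := fun q => ∑ y, colc m (q.1 y) (q.2 y) +
      ∑ x, rowc (∑ y, (A x y : ℝ) * q.1 y) (∑ y, (A x y : ℝ) * q.2 y) with hlev
  have hnn : ∀ q, 0 ≤ lev q := by
    intro q
    simp only [hlev]
    apply add_nonneg
    · apply sum_nonneg
      intro y _
      unfold colc
      split_ifs <;> norm_num
    · apply sum_nonneg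
      intro y _
      unfold rowc
      split_ifs <;> norm_num
  by_cases hex : ∃ q : (Y → ℝ) × (Y → ℝ), (∀ y, q.2 y ≠ 0) ∧
      ∀ x, ∑ y, (A x y : ℝ) * q.2 y ≠ 0
  · have hex' : ∃ n : ℕ, ∃ q : (Y → ℝ) × (Y → ℝ), ((∀ y, q.2 y ≠ 0) ∧
        ∀ x, ∑ y, (A x y : ℝ) * q.2 y ≠ 0) ∧ lev q = n := by
      obtain ⟨q, hq⟩ := hex
      exact ⟨(lev q).toNat, q, hq, (Int.toNat_of_nonneg (hnn q)).symm⟩
    obtain ⟨q, ⟨hq1, hq2⟩, hq3⟩ := Nat.find_spec hex'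
    have hmin : ∀ q' : (Y → ℝ) × (Y → ℝ), (∀ y, q'.2 y ≠ 0) →
        (∀ x, ∑ y, (A x y : ℝ) * q'.2 y ≠ 0) → lev q ≤ lev q' := by
      intro q' h1 h2
      have h3 := Nat.find_min' hex' ⟨q', ⟨h1, h2⟩, (Int.toNat_of_nonneg (hnn q')).symm⟩
      rw [hq3]
      have h4 := Int.toNat_of_nonneg (hnn q')
      omega
    obtain ⟨δ, u, hδ, h1, h2, h3, h4⟩ := margin_one A m hm θ hθ q.1 q.2 hq1 hq2
    refine ⟨δ, hδ, fun L τ e he hrow hle => ⟨u, h1, h2, ?_, ?_⟩⟩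
    · have h5 := hmin (τ, e) he hrow
      have h6 : lev q ≤ L := h5.trans hle
      have h7 : ((lev q : ℤ) : ℝ) ≤ L := by exact_mod_cast h6
      have h8 : ∑ i, (∑ y, Int.fract ((m : ℝ) * u i y) +
        ∑ x, Int.fract (-∑ y, (A x y : ℝ) * u i y)) ≤ ((lev q : ℤ) : ℝ) + θ := h3
      linarith
    · have h5 := hmin (τ, e) he hrow
      rw [h4]
      exact h5.trans hle
  · refine ⟨1, one_pos, fun L τ e he hrow _ => ?_⟩
    exact absurd ⟨(τ, e), he, hrow⟩ hex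

theorem margin (r₀ s₀ C M : ℕ) (θ : ℝ) (hθ : 0 < θ) : ∃ δ : ℝ, 0 < δ ∧
    ∀ (R Y : Type) [Fintype R] [Fintype Y], Fintype.card R ≤ r₀ → Fintype.card Y ≤ s₀ →
    ∀ (A : R → Y → ℤ), (∀ x y, |A x y| ≤ C) → ∀ m : ℕ, 1 ≤ m → m ≤ M →
    ∀ (L : ℤ) (τ e : Y → ℝ), (∀ y, e y ≠ 0) → (∀ x, ∑ y, (A x y : ℝ) * e y ≠ 0) →
    ∑ y, colc m (τ y) (e y) +
      ∑ x, rowc (∑ y, (A x y : ℝ) * τ y) (∑ y, (A x y : ℝ) * e y) ≤ L →
    ∃ u : Fin 2 → Y → ℝ,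
      (∀ i y, ∀ j : ℤ, δ ≤ |(m : ℝ) * u i y - j|) ∧
      (∀ i x, ∀ j : ℤ, δ ≤ |∑ y, (A x y : ℝ) * u i y - j|) ∧
      (∑ i, (∑ y, Int.fract ((m : ℝ) * u i y) +
        ∑ x, Int.fract (-∑ y, (A x y : ℝ) * u i y)) ≤ L + θ) ∧
      (∑ i, -(∑ y, ⌊(m : ℝ) * u i y⌋ + ∑ x, ⌊-∑ y, (A x y : ℝ) * u i y⌋) ≤ L) := by
  classical
  -- the finite index type
  let I : Type := Σ (r : Fin (r₀ + 1)) (s : Fin (s₀ + 1)),
    (Fin r → Fin s → Fin (2 * C + 1)) × Fin (M + 1)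
  have hne : Nonempty I := ⟨⟨0, 0, fun x => x.elim0, 0⟩⟩
  have hfin : Finite I := inferInstance
  have hI : ∀ q : I, ∃ δ : ℝ, 0 < δ ∧ (1 ≤ (q.2.2.2 : ℕ) →
      ∀ (L : ℤ) (τ e : Fin q.2.1 → ℝ), (∀ y, e y ≠ 0) →
    (∀ x, ∑ y, (((q.2.2.1 x y : ℕ) - (C : ℤ) : ℤ) : ℝ) * e y ≠ 0) →
    ∑ y, colc (q.2.2.2 : ℕ) (τ y) (e y) +
      ∑ x, rowc (∑ y, (((q.2.2.1 x y : ℕ) - (C : ℤ) : ℤ) : ℝ) * τ y)
        (∑ y, (((q.2.2.1 x y : ℕ) - (C : ℤ) : ℤ) : ℝ) * e y) ≤ L →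
    ∃ u : Fin 2 → Fin q.2.1 → ℝ,
      (∀ i y, ∀ j : ℤ, δ ≤ |((q.2.2.2 : ℕ) : ℝ) * u i y - j|) ∧
      (∀ i x, ∀ j : ℤ, δ ≤ |∑ y, (((q.2.2.1 x y : ℕ) - (C : ℤ) : ℤ) : ℝ) * u i y - j|) ∧
      (∑ i, (∑ y, Int.fract (((q.2.2.2 : ℕ) : ℝ) * u i y) +
        ∑ x, Int.fract (-∑ y, (((q.2.2.1 x y : ℕ) - (C : ℤ) : ℤ) : ℝ) * u i y)) ≤ L + θ) ∧
      (∑ i, -(∑ y, ⌊((q.2.2.2 : ℕ) : ℝ) * u i y⌋ +
        ∑ x, ⌊-∑ y, (((q.2.2.1 x y : ℕ) - (C : ℤ) : ℤ) : ℝ) * u i y⌋) ≤ L)) := by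
    intro q
    by_cases h1 : 1 ≤ (q.2.2.2 : ℕ)
    · obtain ⟨δ, hδ, h⟩ := margin_mat (fun x y => ((q.2.2.1 x y : ℕ) - (C : ℤ) : ℤ))
        (q.2.2.2 : ℕ) h1 θ hθ
      exact ⟨δ, hδ, fun _ => h⟩
    · exact ⟨1, one_pos, fun h => absurd h h1⟩
  choose δ hδ0 hδ using hI
  obtain ⟨q0, hq0⟩ := Finite.exists_min δ
  refine ⟨δ q0, hδ0 q0, ?_⟩
  intro R Y _ _ hRc hYc A hA m hm hmM L τ e he hrow hle
  set eR := Fintype.equivFin R with heR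
  set eY := Fintype.equivFin Y with heY
  have hA' : ∀ x y, ((A x y + C).toNat : ℤ) = A x y + C := by
    intro x y
    apply Int.toNat_of_nonneg
    have := (abs_le.1 (hA x y)).1
    linarith
  let a : Fin (Fintype.card R) → Fin (Fintype.card Y) → Fin (2 * C + 1) := fun i j =>
    ⟨(A (eR.symm i) (eY.symm j) + C).toNat, by
      have h1 := hA' (eR.symm i) (eY.symm j)
      have h2 := (abs_le.1 (hA (eR.symm i) (eY.symm j))).2
      omega⟩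
  let q : I := ⟨⟨Fintype.card R, by omega⟩, ⟨Fintype.card Y, by omega⟩, a, ⟨m, by omega⟩⟩
  have hval : ∀ i j, (((a i j : ℕ) : ℤ) - (C : ℤ) : ℤ) = A (eR.symm i) (eY.symm j) := by
    intro i j
    have h1 := hA' (eR.symm i) (eY.symm j)
    show (((A (eR.symm i) (eY.symm j) + C).toNat : ℕ) : ℤ) - (C : ℤ) = _
    rw [h1]; ring
  have hsum : ∀ (i : Fin (Fintype.card R)) (f : Y → ℝ),
      ∑ j, (((((a i j : ℕ) : ℤ) - (C : ℤ) : ℤ)) : ℝ) * f (eY.symm j) =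
        ∑ y, (A (eR.symm i) y : ℝ) * f y := by
    intro i f
    rw [← Equiv.sum_comp eY.symm (fun y => (A (eR.symm i) y : ℝ) * f y)]
    apply sum_congr rfl
    intro j _
    rw [hval]
  obtain ⟨u, h1, h2, h3, h4⟩ := hδ q hm L (τ ∘ eY.symm) (e ∘ eY.symm)
    (fun y => he _) (by
      intro x
      have := hsum x e
      refine fun h0 => hrow (eR.symm x) ?_
      rw [← this]
      exact h0) (by
      refine le_trans (le_of_eq ?_) hle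
      congr 1
      · rw [← Equiv.sum_comp eY.symm (fun y => colc m (τ y) (e y))]
        rfl
      · rw [← Equiv.sum_comp eR.symm]
        apply sum_congr rfl
        intro x _
        rw [← hsum x τ, ← hsum x e]
        rfl)
  have hu : ∀ i (x : R), ∑ y, (A x y : ℝ) * u i (eY y) =
      ∑ j, (((((a (eR x) j : ℕ) : ℤ) - (C : ℤ) : ℤ)) : ℝ) * u i j := by
    intro i x
    have := hsum (eR x) (fun y => u i (eY y))
    simp only [Equiv.apply_symm_apply, Equiv.symm_apply_apply] at this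
    exact this.symm
  refine ⟨fun i y => u i (eY y), ?_, ?_, ?_, ?_⟩
  · intro i y j
    exact (hq0 q).trans (h1 i (eY y) j)
  · intro i x j
    rw [hu]
    exact (hq0 q).trans (h2 i (eR x) j)
  · refine le_trans (le_of_eq ?_) h3
    apply sum_congr rfl
    intro i _
    congr 1
    · exact Equiv.sum_comp eY (fun j => Int.fract ((m : ℝ) * u i j))
    · rw [← Equiv.sum_comp eR]
      apply sum_congr rfl
      intro x _
      rw [hu]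
  · refine le_trans (le_of_eq ?_) h4
    apply sum_congr rfl
    intro i _
    congr 2
    · exact Equiv.sum_comp eY (fun j => ⌊(m : ℝ) * u i j⌋)
    · rw [← Equiv.sum_comp eR]
      apply sum_congr rfl
      intro x _
      rw [hu]

end Pool.Agent.WTor
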