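import Pool.Agent.WTor.Torus
import Pool.Agent.WTor.Margin

/-!
# The torus theorem with a uniform margin for bounded `H`
-/

set_option autoImplicit false

namespace Pool.Agent.WTor

open Finset

/-- the reindexing `y = x + z`. -/
theorem sum_shift_row {G : Type} [AddCommGroup G] [Fintype G] (c : G → ℤ) (f : G → ℝ) (x : G) :
    ∑ y, (c (y - x) : ℝ) * f y = ∑ z, (c z : ℝ) * f (x + z) := by
  refine Fintype.sum_equiv (Equiv.subRight x) _ _ (fun y => ?_)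
  simp only [Equiv.subRight_apply]
  congr 2
  abel

theorem gen_margin (C M h₀ : ℕ) : ∃ δ : ℝ, 0 < δ ∧
    ∀ (G : Type) [AddCommGroup G] [Fintype G] (c : G → ℤ) (m : ℕ), 1 ≤ m → m ≤ M →
    ∑ z, c z = m → (∀ z, |c z| ≤ C) → Fintype.card G ≤ h₀ →
    AddSubgroup.closure {g : G | ∃ s s', c s ≠ 0 ∧ c s' ≠ 0 ∧ g = s - s'} = ⊤ →
    ∃ u : G → ℝ, (∀ y, ∀ j : ℤ, δ ≤ |(m : ℝ) * u y - j|) ∧
      (∀ x, ∀ j : ℤ, δ ≤ |∑ z, (c z : ℝ) * u (x + z) - j|) ∧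
      2 * (-∑ x, (⌊(m : ℝ) * u x⌋ + ⌊-∑ z, (c z : ℝ) * u (x + z)⌋)) ≤ (Fintype.card G : ℤ) + 1 := by
  obtain ⟨δ, hδ, hmar⟩ := margin h₀ h₀ C M 1 one_pos
  refine ⟨δ, hδ, ?_⟩
  intro G _ _ c m hm1 hmM hsum hC hcard hgen
  classical
  obtain ⟨τ, e, h1, -, h3, h4⟩ := induct c m hm1 hsum hgen univ
  rw [if_pos rfl, card_univ] at h4
  obtain ⟨u, hu1, hu2, -, hu4⟩ := hmar G G hcard hcard (fun x y => c (y - x)) (fun x y => hC _) m
    hm1 hmM ((Fintype.card G : ℤ) + 1) τ e h1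
    (fun x => by rw [sum_shift_row]; exact h3 x (mem_univ x))
    (by simp only [sum_shift_row]; exact h4)
  simp only [sum_shift_row] at hu2 hu4
  have hu4' : ∀ i, -(∑ y, ⌊(m : ℝ) * u i y⌋ + ∑ x, ⌊-∑ z, (c z : ℝ) * u i (x + z)⌋) =
      -∑ x, (⌊(m : ℝ) * u i x⌋ + ⌊-∑ z, (c z : ℝ) * u i (x + z)⌋) := by
    intro i
    rw [sum_add_distrib]
  rw [Fin.sum_univ_two, hu4', hu4'] at hu4
  rcases le_total (-∑ x, (⌊(m : ℝ) * u 0 x⌋ + ⌊-∑ z, (c z : ℝ) * u 0 (x + z)⌋))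
    (-∑ x, (⌊(m : ℝ) * u 1 x⌋ + ⌊-∑ z, (c z : ℝ) * u 1 (x + z)⌋)) with h | h
  · exact ⟨u 0, hu1 0, hu2 0, by linarith⟩
  · exact ⟨u 1, hu1 1, hu2 1, by linarith⟩

theorem small_H (C M h₀ : ℕ) : ∃ δ : ℝ, 0 < δ ∧
    ∀ (G : Type) [AddCommGroup G] [Fintype G] (c : G → ℤ) (m : ℕ), 1 ≤ m → m ≤ M →
    ∑ z, c z = m → (∃ s s', s ≠ s' ∧ c s ≠ 0 ∧ c s' ≠ 0) → (∀ z, |c z| ≤ C) →
    Nat.card (AddSubgroup.closure {g : G | ∃ s s', c s ≠ 0 ∧ c s' ≠ 0 ∧ g = s - s'}) ≤ h₀ →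
    ∃ h k : ℕ, 2 ≤ h ∧ h * k = Fintype.card G ∧ ∃ A : ℤ, 2 * A ≤ h + 1 ∧
    ∃ u : G → ℝ, (∀ y, ∀ j : ℤ, δ ≤ |(m : ℝ) * u y - j|) ∧
      (∀ x, ∀ j : ℤ, δ ≤ |∑ z, (c z : ℝ) * u (x + z) - j|) ∧
      -∑ x, (⌊(m : ℝ) * u x⌋ + ⌊-∑ z, (c z : ℝ) * u (x + z)⌋) = (k : ℤ) * A := by
  obtain ⟨δ, hδ, hmar⟩ := gen_margin C M h₀
  refine ⟨δ, hδ, ?_⟩
  intro G _ _ c m hm1 hmM hsum hS hC hHle
  classical
  obtain ⟨s₀, s₁, hne, hs₀, hs₁⟩ := hS
  set D : Set G := {g : G | ∃ s s', c s ≠ 0 ∧ c s' ≠ 0 ∧ g = s - s'} with hD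
  set H : AddSubgroup G := AddSubgroup.closure D with hH
  have hDH : ∀ z, c z ≠ 0 → z - s₀ ∈ H := fun z hz =>
    AddSubgroup.subset_closure ⟨z, s₀, hz, hs₀, rfl⟩
  set c' : H → ℤ := fun t => c (s₀ + t) with hc'
  have hred : ∀ f : G → ℝ, ∑ z, (c z : ℝ) * f z = ∑ t : H, (c' t : ℝ) * f (s₀ + t) := by
    intro f
    symm
    apply Finset.sum_of_injOn (fun t : H => s₀ + (t : G))
    · intro t _ t' _ h
      exact Subtype.ext (add_left_cancel h)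
    · intro t _; exact mem_univ _
    · intro z _ hz
      by_contra hcz
      apply hz
      have hcz' : c z ≠ 0 := by
        intro h
        apply hcz
        rw [h]; simp
      exact ⟨⟨z - s₀, hDH z hcz'⟩, by simp, by simp⟩
    · intro t _; rfl
  have hsum' : ∑ t, c' t = m := by
    have h1 := hred (fun _ => 1)
    simp only [mul_one] at h1
    have h2 : ((∑ t, c' t : ℤ) : ℝ) = ((m : ℤ) : ℝ) := by
      rw [← hsum]
      push_cast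
      exact h1.symm
    exact_mod_cast h2
  have hgen' : AddSubgroup.closure {g : H | ∃ s s', c' s ≠ 0 ∧ c' s' ≠ 0 ∧ g = s - s'} = ⊤ := by
    have h1 : {g : H | ∃ s s', c' s ≠ 0 ∧ c' s' ≠ 0 ∧ g = s - s'} = ((↑) : H → G) ⁻¹' D := by
      ext g
      constructor
      · rintro ⟨s, s', h1, h2, rfl⟩
        exact ⟨s₀ + s, s₀ + s', h1, h2, by rw [AddSubgroup.coe_sub]; abel⟩
      · rintro ⟨s, s', h1, h2, h3⟩
        refine ⟨⟨s - s₀, hDH s h1⟩, ⟨s' - s₀, hDH s' h2⟩, ?_, ?_, ?_⟩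
        · simpa [hc'] using h1
        · simpa [hc'] using h2
        · apply Subtype.ext
          rw [h3, AddSubgroup.coe_sub]
          simp
    rw [h1]
    exact AddSubgroup.closure_closure_coe_preimage
  have hHle' : Fintype.card H ≤ h₀ := by
    rw [← Nat.card_eq_fintype_card]; exact hHle
  obtain ⟨v, hv1, hv2, hv3⟩ := hmar H c' m hm1 hmM hsum' (fun t => hC _) hHle' hgen'
  obtain ⟨a, ha⟩ := exists_section H
  have hrow : ∀ x : G, ∑ z, (c z : ℝ) * v (a (x + z)) =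
      ∑ t, (c' t : ℝ) * v (a (x + s₀) + t) := by
    intro x
    rw [hred (fun z => v (a (x + z)))]
    apply sum_congr rfl
    intro t _
    rw [← ha, add_assoc]
  set A : ℤ := -∑ x : H, (⌊(m : ℝ) * v x⌋ + ⌊-∑ z, (c' z : ℝ) * v (x + z)⌋) with hA
  obtain ⟨k, hk⟩ : Fintype.card H ∣ Fintype.card G := by
    have := AddSubgroup.card_addSubgroup_dvd_card H
    rwa [Nat.card_eq_fintype_card, Nat.card_eq_fintype_card] at this
  have hHcard : 2 ≤ Fintype.card H := by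
    have : 1 < Fintype.card H := by
      rw [Fintype.one_lt_card_iff]
      refine ⟨0, ⟨s₁ - s₀, hDH s₁ hs₁⟩, ?_⟩
      intro h
      have h2 := congrArg (Subtype.val) h
      simp only [ZeroMemClass.coe_zero] at h2
      exact hne (sub_eq_zero.1 h2.symm).symm
    exact this
  refine ⟨Fintype.card H, k, hHcard, hk.symm, A, hv3, fun x => v (a x), ?_, ?_, ?_⟩
  · intro x j; exact hv1 (a x) j
  · intro x j; rw [hrow]; exact hv2 (a (x + s₀)) j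
  · have h1 : ∑ x, (⌊(m : ℝ) * v (a x)⌋ + ⌊-∑ z, (c z : ℝ) * v (a (x + z))⌋) =
        ∑ x, (⌊(m : ℝ) * v (a x)⌋ + ⌊-∑ t, (c' t : ℝ) * v (a x + t)⌋) := by
      rw [sum_add_distrib, sum_add_distrib]
      congr 1
      refine Fintype.sum_equiv (Equiv.addRight s₀) _ _ (fun x => ?_)
      simp only [Equiv.coe_addRight]
      rw [hrow]
    rw [h1]
    have h2 := sum_section H a ha (fun t => ⌊(m : ℝ) * v t⌋ + ⌊-∑ z, (c' z : ℝ) * v (t + z)⌋)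
    rw [hk] at h2
    push_cast at h2
    have h3 : (Fintype.card H : ℤ) ≠ 0 := by
      have : 0 < Fintype.card H := by omega
      exact_mod_cast this.ne'
    rw [mul_assoc] at h2
    have h4 := mul_left_cancel₀ h3 h2
    rw [h4, hA]
    ring

end Pool.Agent.WTor
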