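import Pool.Agent.WTor.Growth
import Pool.Agent.WTor.Margin
import Pool.Agent.WTor.InductLt
import Pool.Agent.WTor.SmallH

/-!
# Carving: a point of the torus of cost `≤ (1 + ε)|G|/2` with a uniform margin, when `H` is large
-/

set_option autoImplicit false

namespace Pool.Agent.WTor

open Finset

open Classical in
/-- the solution on one block of rows. -/
theorem block (K C M R₀ : ℕ) (θ : ℝ) (hθ : 0 < θ) : ∃ δ : ℝ, 0 < δ ∧
    ∀ (G : Type) [AddCommGroup G] [Fintype G] (c : G → ℤ) (m : ℕ), 1 ≤ m → m ≤ M →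
    ∑ z, c z = m → (univ.filter (fun z => c z ≠ 0)).card ≤ K → (∀ z, |c z| ≤ C) →
    ∀ B : Finset G, B.card ≤ R₀ →
    B.card < Nat.card (AddSubgroup.closure {g : G | ∃ s s', c s ≠ 0 ∧ c s' ≠ 0 ∧ g = s - s'}) →
    ∃ u : Fin 2 → G → ℝ,
      (∀ i y, (∃ x ∈ B, c (y - x) ≠ 0) → ∀ j : ℤ, δ ≤ |(m : ℝ) * u i y - j|) ∧
      (∀ i, ∀ x ∈ B, ∀ j : ℤ, δ ≤ |∑ z, (c z : ℝ) * u i (x + z) - j|) ∧
      ∑ i, (∑ y ∈ univ.filter (fun y => ∃ x ∈ B, c (y - x) ≠ 0), Int.fract ((m : ℝ) * u i y) +
        ∑ x ∈ B, Int.fract (-∑ z, (c z : ℝ) * u i (x + z))) ≤ (B.card : ℝ) + θ := by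
  obtain ⟨δ, hδ, hmar⟩ := margin R₀ (R₀ * K) C M θ hθ
  refine ⟨δ, hδ, ?_⟩
  intro G _ _ c m hm1 hmM hsum hK hC B hBR hBH
  obtain ⟨τ, e, h1, h2, h3, h4⟩ := induct_lt c m hm1 hsum B hBH
  set Y : Finset G := univ.filter (fun y => ∃ x ∈ B, c (y - x) ≠ 0) with hY
  have hYcard : Y.card ≤ R₀ * K := by
    have hsub : Y ⊆ (B ×ˢ (univ.filter (fun z => c z ≠ 0))).image (fun q => q.1 + q.2) := by
      intro y hy
      rw [hY, mem_filter] at hy
      obtain ⟨-, x, hx, hc⟩ := hy
      rw [mem_image]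
      refine ⟨(x, y - x), ?_, by simp⟩
      rw [mem_product, mem_filter]
      exact ⟨hx, mem_univ _, hc⟩
    calc Y.card ≤ _ := card_le_card hsub
      _ ≤ (B ×ˢ (univ.filter (fun z => c z ≠ 0))).card := card_image_le
      _ = B.card * (univ.filter (fun z => c z ≠ 0)).card := card_product _ _
      _ ≤ R₀ * K := Nat.mul_le_mul hBR hK
  -- rows of `B` only see the columns of `Y`
  have hrow : ∀ x ∈ B, ∀ f : G → ℝ,
      ∑ y : Y, (c ((y : G) - x) : ℝ) * f y = ∑ z, (c z : ℝ) * f (x + z) := by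
    intro x hx f
    rw [← sum_shift_row c f x]
    rw [Finset.sum_coe_sort Y (fun y => (c (y - x) : ℝ) * f y)]
    apply sum_subset (subset_univ _)
    intro y _ hy
    have : c (y - x) = 0 := by
      by_contra h
      exact hy (by rw [hY, mem_filter]; exact ⟨mem_univ _, x, hx, h⟩)
    rw [this]; simp
  have hcolsum : ∑ y : Y, colc m (τ y) (e y) = ∑ y, colc m (τ y) (e y) := by
    rw [Finset.sum_coe_sort Y (fun y => colc m (τ y) (e y))]
    apply sum_subset (subset_univ _)
    intro y _ hy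
    have : ∀ x ∈ B, c (y - x) = 0 := by
      intro x hx
      by_contra h
      exact hy (by rw [hY, mem_filter]; exact ⟨mem_univ _, x, hx, h⟩)
    rw [(h2 y this).1]
    exact colc_zero m _ (h2 y this).2
  obtain ⟨u, hu1, hu2, hu3, -⟩ := hmar B Y (by rw [Fintype.card_coe]; exact hBR)
    (by rw [Fintype.card_coe]; exact hYcard) (fun x y => c ((y : G) - x)) (fun x y => hC _) m hm1 hmM
    (B.card : ℤ) (fun y => τ y) (fun y => e y) (fun y => h1 y)
    (fun x => by rw [hrow x x.2 e]; exact h3 x x.2)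
    (by
      rw [hcolsum]
      refine le_trans (le_of_eq ?_) h4
      congr 1
      rw [← Finset.sum_coe_sort B]
      apply sum_congr rfl
      intro x _
      rw [hrow x x.2 τ, hrow x x.2 e])
  refine ⟨fun i y => if h : y ∈ Y then u i ⟨y, h⟩ else 0, ?_, ?_, ?_⟩
  · intro i y hy j
    have hyY : y ∈ Y := by rw [hY, mem_filter]; exact ⟨mem_univ _, hy⟩
    simp only [hyY, dite_true]
    exact hu1 i ⟨y, hyY⟩ j
  · intro i x hx j
    have h5 := hu2 i ⟨x, hx⟩ j
    have h6 : ∑ y : Y, (c ((y : G) - x) : ℝ) * u i y =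
        ∑ z, (c z : ℝ) * (if h : x + z ∈ Y then u i ⟨x + z, h⟩ else 0) := by
      rw [← hrow x hx (fun y => if h : y ∈ Y then u i ⟨y, h⟩ else 0)]
      apply sum_congr rfl
      intro y _
      simp
    simp only at h5
    rw [h6] at h5
    exact h5
  · have h7 : ∀ i, (∑ y ∈ Y, Int.fract ((m : ℝ) * (if h : y ∈ Y then u i ⟨y, h⟩ else 0)) +
        ∑ x ∈ B, Int.fract (-∑ z, (c z : ℝ) * (if h : x + z ∈ Y then u i ⟨x + z, h⟩ else 0))) =
        (∑ y : Y, Int.fract ((m : ℝ) * u i y) +
        ∑ x : B, Int.fract (-∑ y : Y, (c ((y : G) - x) : ℝ) * u i y)) := by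
      intro i
      congr 1
      · rw [← Finset.sum_coe_sort Y]
        apply sum_congr rfl
        intro y _
        simp
      · rw [← Finset.sum_coe_sort B]
        apply sum_congr rfl
        intro x _
        congr 2
        rw [← hrow x x.2 (fun y => if h : y ∈ Y then u i ⟨y, h⟩ else 0)]
        apply sum_congr rfl
        intro y _
        simp
    have h8 := hu3
    rw [sum_congr rfl (fun i _ => (h7 i).symm)] at h8
    push_cast at h8
    exact h8

open Classical in
theorem carve (K C M : ℕ) (ε : ℝ) (hε : 0 < ε) : ∃ (h₀ : ℕ) (δ : ℝ), 0 < δ ∧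
    ∀ (G : Type) [AddCommGroup G] [Fintype G] (c : G → ℤ) (m : ℕ), 1 ≤ m → m ≤ M →
    ∑ z, c z = m → (univ.filter (fun z => c z ≠ 0)).card ≤ K → (∀ z, |c z| ≤ C) →
    h₀ < Nat.card (AddSubgroup.closure {g : G | ∃ s s', c s ≠ 0 ∧ c s' ≠ 0 ∧ g = s - s'}) →
    ∃ (u : Fin 2 → G → ℝ) (K' : Finset G), (∀ i y, ∀ j : ℤ, δ ≤ |(m : ℝ) * u i y - j|) ∧
      (∀ i, ∀ x ∈ K', ∀ j : ℤ, δ ≤ |∑ z, (c z : ℝ) * u i (x + z) - j|) ∧
      ∑ i, (∑ y, Int.fract ((m : ℝ) * u i y) +
        ∑ x ∈ K', Int.fract (-∑ z, (c z : ℝ) * u i (x + z)) +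
          ((Fintype.card G : ℝ) - K'.card)) ≤ (1 + ε) * Fintype.card G := by
  obtain ⟨R₀, hgrow⟩ := growth K (ε / 4) (by positivity)
  obtain ⟨δ₁, hδ₁, hblock⟩ := block K C M R₀ (ε / 4) (by positivity)
  have hmin : 0 < min ε 1 := lt_min hε one_pos
  set θ₀ : ℝ := min ε 1 / (8 * ((M : ℝ) + 1)) with hθ₀
  have hM0 : (0 : ℝ) ≤ M := by positivity
  have hθ₀pos : 0 < θ₀ := by rw [hθ₀]; positivity
  have hθ₀M : ((M : ℝ) + 1) * θ₀ = min ε 1 / 8 := by rw [hθ₀]; field_simp
  have hminε : min ε 1 ≤ ε := min_le_left _ _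
  have hmin1 : min ε 1 ≤ 1 := min_le_right _ _
  refine ⟨R₀, min δ₁ θ₀, lt_min hδ₁ hθ₀pos, ?_⟩
  intro G _ _ c m hm1 hmM hsum hK hC hH
  have hmR : (m : ℝ) ≤ M := by exact_mod_cast hmM
  have hm1R : (1 : ℝ) ≤ m := by exact_mod_cast hm1
  have hmθ : (m : ℝ) * θ₀ ≤ min ε 1 / 8 := by nlinarith
  have hmθ0 : 0 < (m : ℝ) * θ₀ := by positivity
  have hfr : Int.fract ((m : ℝ) * θ₀) = (m : ℝ) * θ₀ := by
    rw [Int.fract_eq_self]
    exact ⟨hmθ0.le, by linarith⟩
  have hdef : ∀ j : ℤ, min δ₁ θ₀ ≤ |(m : ℝ) * θ₀ - j| := by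
    intro j
    refine (min_le_right _ _).trans ?_
    rcases le_or_gt j 0 with hj | hj
    · have : (j : ℝ) ≤ 0 := by exact_mod_cast hj
      refine le_trans ?_ (le_abs_self _)
      nlinarith
    · have : (1 : ℝ) ≤ j := by exact_mod_cast hj
      refine le_trans ?_ (neg_le_abs _)
      nlinarith
  have key : ∀ W : Finset G, ∃ (u : Fin 2 → G → ℝ) (K' : Finset G), K' ⊆ W ∧
      (∀ i y, (∀ x ∈ W, c (y - x) = 0) → u i y = θ₀) ∧
      (∀ i y, ∀ j : ℤ, min δ₁ θ₀ ≤ |(m : ℝ) * u i y - j|) ∧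
      (∀ i, ∀ x ∈ K', ∀ j : ℤ, min δ₁ θ₀ ≤ |∑ z, (c z : ℝ) * u i (x + z) - j|) ∧
      ((W \ K').card : ℝ) ≤ ε / 4 * W.card ∧
      ∑ i, (∑ y, Int.fract ((m : ℝ) * u i y) +
        ∑ x ∈ K', Int.fract (-∑ z, (c z : ℝ) * u i (x + z))) ≤
        2 * (Fintype.card G * ((m : ℝ) * θ₀)) + K'.card + ε / 4 * W.card := by
    intro W
    induction W using Finset.strongInduction with
    | H W ih =>
    rcases W.eq_empty_or_nonempty with hW | ⟨v, hv⟩
    · subst hW
      refine ⟨fun _ _ => θ₀, ∅, by simp, fun _ _ _ => rfl, fun _ _ j => hdef j, by simp, by simp, ?_⟩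
      simp only [hfr, sum_empty, add_zero, card_empty, Nat.cast_zero, mul_zero, sum_const, card_univ,
        Fintype.card_fin, nsmul_eq_mul]
      push_cast
      linarith
    · obtain ⟨B, B', hvB, hBB', hB'W, hBR, hB'card, hadj⟩ :=
        hgrow G (univ.filter (fun z => c z ≠ 0)) hK W v hv
      have hB'sub : W \ B' ⊂ W := by
        rw [Finset.ssubset_iff_of_subset sdiff_subset]
        exact ⟨v, hv, by simp [hBB' hvB]⟩
      obtain ⟨u₁, K₁, hK₁, hdef₁, hcol₁, hrow₁, hcard₁, hle₁⟩ := ih (W \ B') hB'sub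
      obtain ⟨u₂, hcol₂, hrow₂, hle₂⟩ := hblock G c m hm1 hmM hsum hK hC B hBR
        (lt_of_le_of_lt hBR hH)
      set YB : Finset G := univ.filter (fun y => ∃ x ∈ B, c (y - x) ≠ 0) with hYB
      set u : Fin 2 → G → ℝ := fun i y => if y ∈ YB then u₂ i y else u₁ i y with hu
      have hmemYB : ∀ y, y ∈ YB ↔ ∃ x ∈ B, c (y - x) ≠ 0 := by
        intro y; rw [hYB, mem_filter]; simp
      -- rows of `B`
      have hrB : ∀ i, ∀ x ∈ B, ∑ z, (c z : ℝ) * u i (x + z) = ∑ z, (c z : ℝ) * u₂ i (x + z) := by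
        intro i x hx
        apply sum_congr rfl
        intro z _
        by_cases hz : c z = 0
        · rw [hz]; simp
        · have : x + z ∈ YB := by
            rw [hmemYB]; exact ⟨x, hx, by simpa using hz⟩
          simp only [hu, if_pos this]
      -- old rows
      have hrK : ∀ i, ∀ x ∈ K₁, ∑ z, (c z : ℝ) * u i (x + z) = ∑ z, (c z : ℝ) * u₁ i (x + z) := by
        intro i x hx
        apply sum_congr rfl
        intro z _
        by_cases hz : c z = 0
        · rw [hz]; simp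
        · have hxW := mem_sdiff.1 (hK₁ hx)
          have : x + z ∉ YB := by
            rw [hmemYB]
            rintro ⟨x', hx', hc'⟩
            apply hxW.2
            apply hadj x' hx' x hxW.1
            refine ⟨x + z - x', by simpa using hc', z, by simpa using hz, ?_⟩
            abel
          simp only [hu, if_neg this]
      have hdisj : Disjoint K₁ B := by
        rw [Finset.disjoint_left]
        intro x hx hxB
        exact (mem_sdiff.1 (hK₁ hx)).2 (hBB' hxB)
      have hBW : B ⊆ W := hBB'.trans hB'W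
      have hWcard : (W.card : ℝ) = (W \ B').card + B'.card := by
        have := card_sdiff_add_card_eq_card hB'W
        exact_mod_cast this.symm
      have hBB'card : (B.card : ℝ) ≤ B'.card := by exact_mod_cast card_le_card hBB'
      have hB1 : (1 : ℝ) ≤ B.card := by
        have : 0 < B.card := card_pos.2 ⟨v, hvB⟩
        exact_mod_cast this
      refine ⟨u, K₁ ∪ B, ?_, ?_, ?_, ?_, ?_, ?_⟩
      · exact union_subset (hK₁.trans sdiff_subset) hBW
      · intro i y hy
        have h1 : y ∉ YB := by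
          rw [hmemYB]
          rintro ⟨x, hx, hc'⟩
          exact hc' (hy x (hBW hx))
        simp only [hu, if_neg h1]
        exact hdef₁ i y (fun x hx => hy x (sdiff_subset hx))
      · intro i y j
        by_cases h1 : y ∈ YB
        · simp only [hu, if_pos h1]
          exact (min_le_left _ _).trans (hcol₂ i y ((hmemYB y).1 h1) j)
        · simp only [hu, if_neg h1]
          exact hcol₁ i y j
      · intro i x hx j
        rcases mem_union.1 hx with hx | hx
        · rw [hrK i x hx]; exact hrow₁ i x hx j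
        · rw [hrB i x hx]; exact (min_le_left _ _).trans (hrow₂ i x hx j)
      · have h1 : W \ (K₁ ∪ B) ⊆ ((W \ B') \ K₁) ∪ (B' \ B) := by
          intro x hx
          rw [mem_sdiff, mem_union, not_or] at hx
          rw [mem_union, mem_sdiff, mem_sdiff, mem_sdiff]
          by_cases hxB' : x ∈ B'
          · exact Or.inr ⟨hxB', hx.2.2⟩
          · exact Or.inl ⟨⟨hx.1, hxB'⟩, hx.2.1⟩
        have h2 : ((W \ (K₁ ∪ B)).card : ℝ) ≤ ((W \ B') \ K₁).card + (B' \ B).card := by
          exact_mod_cast (card_le_card h1).trans (card_union_le _ _)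
        have h3 : ((B' \ B).card : ℝ) = B'.card - B.card := by
          have := card_sdiff_add_card_eq_card hBB'
          have : ((B' \ B).card : ℝ) + B.card = B'.card := by exact_mod_cast this
          linarith
        rw [hWcard]
        nlinarith
      · have h1 : ∀ i, ∑ y, Int.fract ((m : ℝ) * u i y) ≤
            ∑ y ∈ YB, Int.fract ((m : ℝ) * u₂ i y) + ∑ y, Int.fract ((m : ℝ) * u₁ i y) := by
          intro i
          have h2 : ∑ y ∈ YB, Int.fract ((m : ℝ) * u₂ i y) =
              ∑ y, if y ∈ YB then Int.fract ((m : ℝ) * u₂ i y) else 0 := by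
            rw [← sum_filter]
            congr 1
            ext y; simp
          rw [h2, ← sum_add_distrib]
          apply sum_le_sum
          intro y _
          by_cases hy : y ∈ YB
          · simp only [hu, if_pos hy]
            have := Int.fract_nonneg ((m : ℝ) * u₁ i y)
            linarith
          · simp only [hu, if_neg hy]
            linarith
        have h2 : ∀ i, ∑ x ∈ K₁ ∪ B, Int.fract (-∑ z, (c z : ℝ) * u i (x + z)) =
            ∑ x ∈ K₁, Int.fract (-∑ z, (c z : ℝ) * u₁ i (x + z)) +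
            ∑ x ∈ B, Int.fract (-∑ z, (c z : ℝ) * u₂ i (x + z)) := by
          intro i
          rw [sum_union hdisj]
          congr 1
          · exact sum_congr rfl (fun x hx => by rw [hrK i x hx])
          · exact sum_congr rfl (fun x hx => by rw [hrB i x hx])
        have h3 : ∑ i, (∑ y, Int.fract ((m : ℝ) * u i y) +
            ∑ x ∈ K₁ ∪ B, Int.fract (-∑ z, (c z : ℝ) * u i (x + z))) ≤
            ∑ i, (∑ y, Int.fract ((m : ℝ) * u₁ i y) +
              ∑ x ∈ K₁, Int.fract (-∑ z, (c z : ℝ) * u₁ i (x + z))) +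
            ∑ i, (∑ y ∈ YB, Int.fract ((m : ℝ) * u₂ i y) +
              ∑ x ∈ B, Int.fract (-∑ z, (c z : ℝ) * u₂ i (x + z))) := by
          rw [← sum_add_distrib]
          apply sum_le_sum
          intro i _
          rw [h2 i]
          have := h1 i
          linarith
        have h4 : ((K₁ ∪ B).card : ℝ) = K₁.card + B.card := by
          rw [card_union_of_disjoint hdisj]; push_cast; ring
        rw [h4, hWcard]
        nlinarith
  obtain ⟨u, K', -, -, hcol, hrow, hcard, hle⟩ := key univ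
  refine ⟨u, K', hcol, hrow, ?_⟩
  rw [sum_add_distrib]
  rw [card_univ] at hcard hle
  simp only [sum_const, card_univ, Fintype.card_fin, nsmul_eq_mul]
  have h1 : (K'.card : ℝ) ≤ Fintype.card G := by exact_mod_cast card_le_univ K'
  have h3 : ((univ \ K').card : ℝ) = (Fintype.card G : ℝ) - K'.card := by
    have := card_sdiff_add_card_eq_card (subset_univ K')
    rw [card_univ] at this
    have h4 : ((univ \ K').card : ℝ) + K'.card = Fintype.card G := by exact_mod_cast this
    linarith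
  rw [h3] at hcard
  have h2 : (0 : ℝ) ≤ Fintype.card G := by positivity
  push_cast
  nlinarith

end Pool.Agent.WTor
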