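import Mathlib

/-!
# MP_830da8_nt, torus method: common definitions

`colc m τ e`, `rowc a e`: twice the averaged cost (average over `τ` and `-τ`) of a column / of a row in the
direction `e` (see `Induct.lean`).
-/

set_option autoImplicit false

namespace Pool.Agent.WTor

open Finset

open Classical in
/-- twice the averaged cost of a column -/
noncomputable def colc (m : ℕ) (τ e : ℝ) : ℤ :=
  if ∃ k : ℤ, (m : ℝ) * τ = k then (if 0 < e then 0 else 2) else 1

open Classical in
/-- twice the averaged cost of a row -/
noncomputable def rowc (a e : ℝ) : ℤ :=
  if ∃ k : ℤ, a = k then (if 0 < e then 2 else 0) else 1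

end Pool.Agent.WTor
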