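import Pool.Agent.WVal.Almost
import Pool.Agent.WVal.Rat

/-!
# Exponents `d` with `d ≢ 1 mod (p - 1)`

Take `z = k (p^n-1)/(p-1)`; then `p^i z / (p^n - 1) ≡ k/(p-1)` mod 1, so `S p n z = n S p 1 k` and
`S p n (-(d z)) = n S p 1 (-(d k))`. So one needs `k` with `(p-1) ∤ k` and
`S p 1 k + S p 1 (-(d k)) ≤ 1/2 + ε`. Apply `large_p` with `n = 1`: either such `k` exists or
`m d ≡ c_0 mod (p-1)`, `1 ≤ m ≤ M`, `|c_0| ≤ C`; `c_0 ≠ 0` for `p > M + 1` as `gcd(d, p-1) = 1` would give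
`(p-1) ∣ m`; then `rational_case` with `n = 1` applies (`d ≢ p^k ≡ 1 mod (p-1)`).
(`gcd(d, p-1) = 1` as `(p-1) ∣ (p^n-1)`.)  `S_repunit` in `WVal/Rat.lean` may help.
-/

set_option linter.all false

namespace Pool.Agent.WTor

open Finset Pool.Agent.WVal

theorem deg_case_one (ε : ℝ) (hε : 0 < ε) : ∃ p₀ : ℕ, 2 ≤ p₀ ∧ ∀ p : ℕ, p₀ ≤ p → ∀ d : ℤ,
    IsCoprime d ((p : ℤ) - 1) → ¬ ((p : ℤ) - 1) ∣ d - 1 →
    ∃ k : ℤ, ¬ ((p : ℤ) - 1) ∣ k ∧ S p 1 k + S p 1 (-(d * k)) ≤ 1 / 2 + ε := by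
  obtain ⟨M, K, C, p₁, h₁⟩ := large_p ε hε
  obtain ⟨p₂, h₂⟩ := rational_case (C + M) ε hε
  refine ⟨p₁ + p₂ + M + 3, by omega, ?_⟩
  intro p hp d hcop hd
  have hp1 : (p : ℤ) ^ 1 - 1 = (p : ℤ) - 1 := by rw [pow_one]
  by_contra hcon
  have hcon' : ¬ ∃ z : ℤ, ¬ ((p : ℤ) ^ 1 - 1) ∣ z ∧
      S p 1 z + S p 1 (-(d * z)) ≤ (1 / 2 + ε) * ((1 : ℕ) : ℝ) := by
    rintro ⟨z, hz, hS⟩
    refine hcon ⟨z, ?_, ?_⟩
    · rwa [hp1] at hz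
    · rwa [Nat.cast_one, mul_one] at hS
  obtain ⟨m, hm1, hmM, c, hc, -, hcC⟩ := h₁ p 1 (by omega) le_rfl d hcon'
  rw [Finset.sum_range_one, pow_zero, mul_one, hp1] at hc
  have hc0C : |c 0| ≤ (C : ℤ) := hcC 0 (by simp)
  have hc0 : c 0 ≠ 0 := by
    intro h0
    rw [h0, zero_sub, dvd_neg] at hc
    have h1 : ((p : ℤ) - 1) ∣ (m : ℤ) := hcop.symm.dvd_of_dvd_mul_right hc
    have h3 := Int.le_of_dvd (by exact_mod_cast hm1) h1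
    omega
  apply hcon'
  apply h₂ p 1 (by omega) le_rfl d (c 0) m 0 hm1 (by omega)
  · refine hc0C.trans ?_
    push_cast
    omega
  · exact hc0
  · rw [pow_zero, mul_one, hp1]
    have h5 := (dvd_neg (a := (p : ℤ) - 1)).2 hc
    rwa [neg_sub] at h5
  · intro k hk
    apply hd
    rw [hp1] at hk
    have h1 : ((p : ℤ) - 1) ∣ (p : ℤ) ^ k - 1 := by
      have := sub_dvd_pow_sub_pow (p : ℤ) 1 k
      rwa [one_pow] at this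
    have h2 := dvd_add hk h1
    have e : d - (p : ℤ) ^ k + ((p : ℤ) ^ k - 1) = d - 1 := by ring
    rwa [e] at h2
  · rw [hp1]
    exact hcop

theorem deg_case (ε : ℝ) (hε : 0 < ε) : ∃ p₀ : ℕ, ∀ p n : ℕ, p₀ ≤ p → 1 ≤ n → ∀ d : ℤ,
    IsCoprime d ((p : ℤ) ^ n - 1) → ¬ ((p : ℤ) - 1) ∣ d - 1 →
    ∃ z : ℤ, ¬ ((p : ℤ) ^ n - 1) ∣ z ∧ S p n z + S p n (-(d * z)) ≤ (1 / 2 + ε) * n := by
  obtain ⟨p₀, hp₀2, h₀⟩ := deg_case_one ε hε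
  refine ⟨p₀, ?_⟩
  intro p n hp hn d hcop hd
  have hp2 : 2 ≤ p := by omega
  set R : ℤ := ∑ i ∈ range n, (p : ℤ) ^ i with hR
  have hRN : R * ((p : ℤ) - 1) = (p : ℤ) ^ n - 1 := geom_sum_mul (p : ℤ) n
  have hR0 : R ≠ 0 := by
    intro h0
    have := NZ_pos p n hp2 hn
    rw [← hRN, h0, zero_mul] at this
    exact lt_irrefl _ this
  have hdvd : ((p : ℤ) - 1) ∣ (p : ℤ) ^ n - 1 := ⟨R, by rw [← hRN, mul_comm]⟩
  obtain ⟨k, hk, hS⟩ := h₀ p hp d (IsCoprime.of_isCoprime_of_dvd_right hcop hdvd) hd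
  have hone : ∀ y : ℤ, S p 1 y = Int.fract ((y : ℝ) / ((p : ℝ) - 1)) := by
    intro y
    have h := S_repunit p 1 hp2 le_rfl y
    rw [Finset.sum_range_one, pow_zero, mul_one, Nat.cast_one, one_mul] at h
    exact h
  rw [hone, hone] at hS
  refine ⟨k * R, ?_, ?_⟩
  · rw [← hRN, mul_comm k R, mul_dvd_mul_iff_left hR0]
    exact hk
  · have e1 := S_repunit p n hp2 hn k
    have e2 := S_repunit p n hp2 hn (-(d * k))
    rw [← hR] at e1 e2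
    have e3 : -(d * (k * R)) = -(d * k) * R := by ring
    rw [e3, e1, e2, ← mul_add, mul_comm]
    exact mul_le_mul_of_nonneg_right hS (by positivity)

end Pool.Agent.WTor
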