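import Pool.Agent.WVal.Basic

/-!
# From a point of the torus to base-`p` digits

Let `u : ZMod n → ℝ` be generic for `(c, m)`: no `m u_x` and no `∑_z c_z u_{x+z}` is an integer. Then for all
large `p` there is an integer `w` (digits `⌊p {u_x}⌋`) with
`S(m w) + S(-(∑ c_x p^x) w) = -∑_x (⌊m u_x⌋ + ⌊-∑_z c_z u_{x+z}⌋)`, provided `∑ c = m`.

Proof. Let `k_x = ⌊u_x⌋`, `f_x = {u_x}`, `w_x = ⌊p f_x⌋ ∈ {0,…,p-1}` and
`T_i = ∑_{j<n} w_{i+j} p^{n-1-j} / (p^n-1)` (`i ∈ ZMod n`). Then `p T_i = w_i + T_{i+1}` (the term `j = 0` is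
`w_i p^n/(p^n-1) = w_i + w_i/(p^n-1)`), and `0 ≤ T_i ≤ 1` (as `∑_j (p-1) p^{n-1-j} = p^n-1`), so
`|T_i - w_i/p| ≤ 1/p`, `|T_i - f_i| ≤ 2/p`. With `w = ∑_{j<n} w_j p^{n-1-j}` one has `w/(p^n-1) = T_0` and by
induction `p^i w/(p^n-1) - T_i ∈ ℤ` for all `i : ℕ` (index `i` mod `n`). Hence
`S(m w) = ∑_{i<n} {m p^i w/(p^n-1)} = ∑_{i ∈ ZMod n} {m T_i}` and
`S(-(∑_x c_x p^x) w) = ∑_i {-∑_x c_x p^{i+x} w/(p^n-1)} = ∑_i {-∑_x c_x T_{i+x}}`. Put `T'_i = T_i + k_i`;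
then the fractional parts do not change and `|T'_i - u_i| ≤ 2/p`. Since `∑_x c_x = m`,
`∑_i m T'_i = ∑_i ∑_x c_x T'_{i+x}`, so the sum of all fractional parts is
`-∑_i (⌊m T'_i⌋ + ⌊-∑_x c_x T'_{i+x}⌋)`, and for `p` large the floors equal those of `u`
(the arguments are non-integers at `u`; floor is locally constant there).  Also `m T'_0` is not an
integer for `p` large, so `p^n - 1` does not divide `m w`.
-/

set_option autoImplicit false

namespace Pool.Agent.WTor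

open Finset Pool.Agent.WVal Filter Topology

/-- the base-`p` digit at `x`. -/
noncomputable def digw {n : ℕ} (u : ZMod n → ℝ) (p : ℕ) (x : ZMod n) : ℤ :=
  ⌊(p : ℝ) * Int.fract (u x)⌋

/-- the integer with the digits `digw u p (i + j)`. -/
noncomputable def digW {n : ℕ} (u : ZMod n → ℝ) (p : ℕ) (i : ZMod n) : ℤ :=
  ∑ j ∈ range n, digw u p (i + (j : ZMod n)) * (p : ℤ) ^ (n - 1 - j)

noncomputable def digT {n : ℕ} (u : ZMod n → ℝ) (p : ℕ) (i : ZMod n) : ℝ :=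
  (digW u p i : ℝ) / ((p : ℝ) ^ n - 1)

theorem dig_rel {n : ℕ} [NeZero n] (u : ZMod n → ℝ) (p : ℕ) (i : ZMod n) :
    (p : ℤ) * digW u p i = ((p : ℤ) ^ n - 1) * digw u p i + digW u p (i + 1) := by
  have hn : 1 ≤ n := NeZero.one_le
  set g : ℕ → ℤ := fun j => digw u p (i + (j : ZMod n)) * (p : ℤ) ^ (n - j) with hg
  have h1 := Finset.sum_range_succ g n
  have h2 := Finset.sum_range_succ' g n
  have e1 : (p : ℤ) * digW u p i = ∑ j ∈ range n, g j := by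
    unfold digW
    rw [Finset.mul_sum]
    refine Finset.sum_congr rfl fun j hj => ?_
    have hj' := Finset.mem_range.1 hj
    have : n - j = (n - 1 - j) + 1 := by omega
    simp only [hg]
    rw [this, pow_succ]
    ring
  have e2 : digW u p (i + 1) = ∑ j ∈ range n, g (j + 1) := by
    unfold digW
    refine Finset.sum_congr rfl fun j hj => ?_
    simp only [hg]
    have : n - (j + 1) = n - 1 - j := by omega
    rw [this]
    have e : i + 1 + (j : ZMod n) = i + ((j + 1 : ℕ) : ZMod n) := by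
      push_cast
      ring
    rw [e]
  have e3 : g n = digw u p i := by simp [hg]
  have e4 : g 0 = digw u p i * (p : ℤ) ^ n := by simp [hg]
  rw [e1, e2]
  rw [e3] at h1
  rw [e4] at h2
  linarith

theorem digT_rel {n : ℕ} [NeZero n] (u : ZMod n → ℝ) (p : ℕ) (hp : 2 ≤ p) (i : ZMod n) :
    (p : ℝ) * digT u p i = (digw u p i : ℝ) + digT u p (i + 1) := by
  have hN := N_pos p n hp NeZero.one_le
  have h := dig_rel u p i
  have h2 : (p : ℝ) * (digW u p i : ℝ) =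
      ((p : ℝ) ^ n - 1) * (digw u p i : ℝ) + (digW u p (i + 1) : ℝ) := by
    exact_mod_cast h
  unfold digT
  field_simp
  linarith

theorem digw_nonneg {n : ℕ} (u : ZMod n → ℝ) (p : ℕ) (x : ZMod n) : 0 ≤ digw u p x :=
  Int.floor_nonneg.2 (mul_nonneg (Nat.cast_nonneg _) (Int.fract_nonneg _))

theorem digw_le {n : ℕ} (u : ZMod n → ℝ) (p : ℕ) (hp : 2 ≤ p) (x : ZMod n) :
    (digw u p x : ℝ) ≤ (p : ℝ) - 1 := by
  have hp0 : (0 : ℝ) < p := by
    have : (2 : ℝ) ≤ (p : ℝ) := by exact_mod_cast hp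
    linarith
  have h1 : (digw u p x : ℝ) < (p : ℤ) := by
    have h2 : (digw u p x : ℝ) ≤ (p : ℝ) * Int.fract (u x) := Int.floor_le _
    have h3 : (p : ℝ) * Int.fract (u x) < (p : ℝ) * 1 :=
      mul_lt_mul_of_pos_left (Int.fract_lt_one _) hp0
    push_cast
    linarith
  have h4 : digw u p x < (p : ℤ) := by exact_mod_cast h1
  have h5 : digw u p x ≤ (p : ℤ) - 1 := by omega
  have h6 : (digw u p x : ℝ) ≤ (((p : ℤ) - 1 : ℤ) : ℝ) := by exact_mod_cast h5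
  push_cast at h6
  exact h6

theorem digT_nonneg {n : ℕ} [NeZero n] (u : ZMod n → ℝ) (p : ℕ) (hp : 2 ≤ p) (i : ZMod n) :
    0 ≤ digT u p i := by
  have hN := N_pos p n hp NeZero.one_le
  unfold digT
  apply div_nonneg _ hN.le
  have : 0 ≤ digW u p i := by
    unfold digW
    exact Finset.sum_nonneg fun j _ => mul_nonneg (digw_nonneg _ _ _) (by positivity)
  exact_mod_cast this

theorem digT_le_one {n : ℕ} [NeZero n] (u : ZMod n → ℝ) (p : ℕ) (hp : 2 ≤ p) (i : ZMod n) :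
    digT u p i ≤ 1 := by
  obtain ⟨x, hx⟩ := Finite.exists_max (fun i : ZMod n => digT u p i)
  refine (hx i).trans ?_
  have h1 := digT_rel u p hp x
  have h2 := digw_le u p hp x
  have h3 := hx (x + 1)
  have hp1 : (0 : ℝ) < (p : ℝ) - 1 := by
    have : (2 : ℝ) ≤ (p : ℝ) := by exact_mod_cast hp
    linarith
  have h4 : ((p : ℝ) - 1) * digT u p x ≤ ((p : ℝ) - 1) * 1 := by linarith
  exact le_of_mul_le_mul_left h4 hp1

theorem digT_approx {n : ℕ} [NeZero n] (u : ZMod n → ℝ) (p : ℕ) (hp : 2 ≤ p) (i : ZMod n) :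
    |digT u p i + (⌊u i⌋ : ℝ) - u i| ≤ 1 / (p : ℝ) := by
  have hp0 : (0 : ℝ) < p := by
    have : (2 : ℝ) ≤ (p : ℝ) := by exact_mod_cast hp
    linarith
  have h1 := digT_rel u p hp i
  have h2 : (digw u p i : ℝ) ≤ (p : ℝ) * Int.fract (u i) := Int.floor_le _
  have h3 : (p : ℝ) * Int.fract (u i) < (digw u p i : ℝ) + 1 := Int.lt_floor_add_one _
  have h4 := digT_nonneg u p hp (i + 1)
  have h5 := digT_le_one u p hp (i + 1)
  have h6 : digT u p i + (⌊u i⌋ : ℝ) - u i = digT u p i - Int.fract (u i) := by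
    rw [Int.fract]
    ring
  have h8 : |digT u p i - Int.fract (u i)| * (p : ℝ) =
      |(digT u p i - Int.fract (u i)) * (p : ℝ)| := by
    rw [abs_mul, abs_of_pos hp0]
  rw [h6, le_div_iff₀ hp0, h8]
  have h7 : (digT u p i - Int.fract (u i)) * (p : ℝ) =
      (digw u p i : ℝ) + digT u p (i + 1) - (p : ℝ) * Int.fract (u i) := by
    linarith
  rw [h7, abs_le]
  constructor <;> linarith

theorem digT_tendsto {n : ℕ} [NeZero n] (u : ZMod n → ℝ) (i : ZMod n) :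
    Tendsto (fun p : ℕ => digT u p i + (⌊u i⌋ : ℝ)) atTop (𝓝 (u i)) := by
  rw [← tendsto_sub_nhds_zero_iff]
  refine squeeze_zero_norm' ?_ (tendsto_one_div_atTop_nhds_zero_nat (𝕜 := ℝ))
  filter_upwards [eventually_ge_atTop 2] with p hp
  rw [Real.norm_eq_abs]
  exact digT_approx u p hp i

theorem digT_lift {n : ℕ} [NeZero n] (u : ZMod n → ℝ) (p : ℕ) (hp : 2 ≤ p) (i : ℕ) :
    ∃ k : ℤ, (p : ℝ) ^ i * (digW u p 0 : ℝ) / ((p : ℝ) ^ n - 1) =
      digT u p (i : ZMod n) + (k : ℝ) := by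
  induction i with
  | zero =>
    refine ⟨0, ?_⟩
    simp [digT]
  | succ i ih =>
    obtain ⟨k, hk⟩ := ih
    refine ⟨digw u p (i : ZMod n) + (p : ℤ) * k, ?_⟩
    have h1 := digT_rel u p hp (i : ZMod n)
    have e : (p : ℝ) ^ (i + 1) * (digW u p 0 : ℝ) / ((p : ℝ) ^ n - 1) =
        (p : ℝ) * ((p : ℝ) ^ i * (digW u p 0 : ℝ) / ((p : ℝ) ^ n - 1)) := by
      rw [pow_succ]
      ring
    rw [e, hk]
    push_cast
    linarith

theorem sum_range_zmod {n : ℕ} [NeZero n] (f : ZMod n → ℝ) :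
    ∑ i ∈ range n, f (i : ZMod n) = ∑ x : ZMod n, f x := by
  refine Finset.sum_nbij' (fun i => (i : ZMod n)) (fun x => x.val) ?_ ?_ ?_ ?_ ?_
  · intro i _
    exact Finset.mem_univ _
  · intro x _
    exact Finset.mem_range.2 (ZMod.val_lt x)
  · intro i hi
    exact ZMod.val_cast_of_lt (Finset.mem_range.1 hi)
  · intro x _
    exact ZMod.natCast_zmod_val x
  · intro i _
    rfl

theorem S_first {n : ℕ} [NeZero n] (u : ZMod n → ℝ) (p : ℕ) (hp : 2 ≤ p) (m : ℕ) :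
    S p n ((m : ℤ) * digW u p 0) = ∑ x : ZMod n, Int.fract ((m : ℝ) * digT u p x) := by
  rw [S_eq, ← sum_range_zmod (fun x => Int.fract ((m : ℝ) * digT u p x))]
  refine Finset.sum_congr rfl fun i _ => ?_
  obtain ⟨k, hk⟩ := digT_lift u p hp i
  have e : (((p : ℤ) ^ i * ((m : ℤ) * digW u p 0) : ℤ) : ℝ) / ((p : ℝ) ^ n - 1) =
      (m : ℝ) * digT u p (i : ZMod n) + (((m : ℤ) * k : ℤ) : ℝ) := by
    have e1 : (((p : ℤ) ^ i * ((m : ℤ) * digW u p 0) : ℤ) : ℝ) / ((p : ℝ) ^ n - 1) =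
        (m : ℝ) * ((p : ℝ) ^ i * (digW u p 0 : ℝ) / ((p : ℝ) ^ n - 1)) := by
      push_cast
      ring
    rw [e1, hk]
    push_cast
    ring
  rw [e, Int.fract_add_intCast]

theorem S_second {n : ℕ} [NeZero n] (u : ZMod n → ℝ) (p : ℕ) (hp : 2 ≤ p) (c : ZMod n → ℤ) :
    S p n (-((∑ x : ZMod n, c x * (p : ℤ) ^ x.val) * digW u p 0)) =
      ∑ x : ZMod n, Int.fract (-∑ z, (c z : ℝ) * digT u p (x + z)) := by
  rw [S_eq, ← sum_range_zmod (fun x => Int.fract (-∑ z, (c z : ℝ) * digT u p (x + z)))]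
  refine Finset.sum_congr rfl fun i _ => ?_
  choose k hk using digT_lift u p hp
  have e : (((p : ℤ) ^ i * -((∑ x : ZMod n, c x * (p : ℤ) ^ x.val) * digW u p 0) : ℤ) : ℝ) /
      ((p : ℝ) ^ n - 1) =
      (-∑ z, (c z : ℝ) * digT u p ((i : ZMod n) + z)) +
        ((-∑ z : ZMod n, c z * k (i + z.val) : ℤ) : ℝ) := by
    have e1 : (((p : ℤ) ^ i * -((∑ x : ZMod n, c x * (p : ℤ) ^ x.val) * digW u p 0) : ℤ) : ℝ) /
        ((p : ℝ) ^ n - 1) =
        -∑ z : ZMod n, (c z : ℝ) *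
          ((p : ℝ) ^ (i + z.val) * (digW u p 0 : ℝ) / ((p : ℝ) ^ n - 1)) := by
      push_cast
      rw [Finset.sum_mul, mul_neg, neg_div, Finset.mul_sum, Finset.sum_div]
      congr 1
      refine Finset.sum_congr rfl fun z _ => ?_
      rw [pow_add]
      ring
    rw [e1]
    push_cast
    rw [← neg_add, ← Finset.sum_add_distrib]
    congr 1
    refine Finset.sum_congr rfl fun z _ => ?_
    rw [hk]
    have e2 : ((i + z.val : ℕ) : ZMod n) = (i : ZMod n) + z := by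
      push_cast
      rw [ZMod.natCast_zmod_val]
    rw [e2]
    ring
  rw [e, Int.fract_add_intCast]

/-- The floors near a non-integer. -/
theorem floor_ev (f : ℕ → ℝ) (a : ℝ) (h : ∀ j : ℤ, a ≠ j) (hf : Tendsto f atTop (𝓝 a)) :
    ∀ᶠ p in atTop, ⌊f p⌋ = ⌊a⌋ ∧ ∀ j : ℤ, f p ≠ j := by
  have h1 : (⌊a⌋ : ℝ) < a := lt_of_le_of_ne (Int.floor_le a) (fun e => h ⌊a⌋ e.symm)
  have h2 : a < (⌊a⌋ : ℝ) + 1 := Int.lt_floor_add_one a
  filter_upwards [hf.eventually (lt_mem_nhds h1), hf.eventually (gt_mem_nhds h2)] with p hp1 hp2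
  refine ⟨Int.floor_eq_iff.2 ⟨hp1.le, hp2⟩, ?_⟩
  intro j hj
  rw [hj] at hp1 hp2
  have h3 : ⌊a⌋ < j := by exact_mod_cast hp1
  have h4 : j < ⌊a⌋ + 1 := by exact_mod_cast hp2
  omega

theorem digits (n : ℕ) [NeZero n] (c : ZMod n → ℤ) (m : ℕ) (hsum : ∑ z, c z = m) (u : ZMod n → ℝ)
    (h1 : ∀ x, ∀ j : ℤ, (m : ℝ) * u x ≠ j) (h2 : ∀ x, ∀ j : ℤ, ∑ z, (c z : ℝ) * u (x + z) ≠ j) :
    ∃ p₁ : ℕ, ∀ p : ℕ, p₁ ≤ p → ∃ w : ℤ, ¬ ((p : ℤ) ^ n - 1) ∣ (m : ℤ) * w ∧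
      S p n ((m : ℤ) * w) + S p n (-((∑ x : ZMod n, c x * (p : ℤ) ^ x.val) * w)) =
        ((-∑ x, (⌊(m : ℝ) * u x⌋ + ⌊-∑ z, (c z : ℝ) * u (x + z)⌋) : ℤ) : ℝ) := by
  set T' : ℕ → ZMod n → ℝ := fun p x => digT u p x + (⌊u x⌋ : ℝ) with hT'
  have hev1 : ∀ᶠ p : ℕ in atTop, ∀ x : ZMod n,
      ⌊(m : ℝ) * T' p x⌋ = ⌊(m : ℝ) * u x⌋ ∧ ∀ j : ℤ, (m : ℝ) * T' p x ≠ j := by
    rw [eventually_all]
    intro x
    exact floor_ev _ _ (h1 x) ((digT_tendsto u x).const_mul _)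
  have hev2 : ∀ᶠ p : ℕ in atTop, ∀ x : ZMod n,
      ⌊-∑ z, (c z : ℝ) * T' p (x + z)⌋ = ⌊-∑ z, (c z : ℝ) * u (x + z)⌋ ∧
        ∀ j : ℤ, -∑ z, (c z : ℝ) * T' p (x + z) ≠ j := by
    rw [eventually_all]
    intro x
    refine floor_ev (fun p => -∑ z, (c z : ℝ) * T' p (x + z)) _ ?_ ?_
    · intro j hj
      apply h2 x (-j)
      push_cast
      linarith
    · exact (tendsto_finsetSum _ fun z _ => (digT_tendsto u (x + z)).const_mul _).neg
  obtain ⟨p₁, hp₁⟩ := eventually_atTop.1 ((hev1.and hev2).and (eventually_ge_atTop 2))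
  refine ⟨p₁, fun p hpp => ?_⟩
  obtain ⟨⟨ha, hb⟩, hp⟩ := hp₁ p hpp
  have hN := N_pos p n hp NeZero.one_le
  refine ⟨digW u p 0, ?_, ?_⟩
  · rintro ⟨k, hk⟩
    apply (ha 0).2 (k + m * ⌊u 0⌋)
    have h3 : (m : ℝ) * (digW u p 0 : ℝ) = ((p : ℝ) ^ n - 1) * (k : ℝ) := by exact_mod_cast hk
    have h4 : (m : ℝ) * digT u p 0 = k := by
      unfold digT
      rw [← mul_div_assoc, h3, mul_div_cancel_left₀ _ hN.ne']
    simp only [hT']
    push_cast
    rw [mul_add, h4]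
  · rw [S_first u p hp m, S_second u p hp c, ← Finset.sum_add_distrib]
    have key : ∀ x : ZMod n, Int.fract ((m : ℝ) * digT u p x) +
        Int.fract (-∑ z, (c z : ℝ) * digT u p (x + z)) =
        ((m : ℝ) * T' p x - ∑ z, (c z : ℝ) * T' p (x + z)) -
          ((⌊(m : ℝ) * u x⌋ : ℝ) + (⌊-∑ z, (c z : ℝ) * u (x + z)⌋ : ℝ)) := by
      intro x
      have e1 : Int.fract ((m : ℝ) * digT u p x) = Int.fract ((m : ℝ) * T' p x) := by
        have : (m : ℝ) * T' p x = (m : ℝ) * digT u p x + (((m : ℤ) * ⌊u x⌋ : ℤ) : ℝ) := by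
          simp only [hT']
          push_cast
          ring
        rw [this, Int.fract_add_intCast]
      have e2 : Int.fract (-∑ z, (c z : ℝ) * digT u p (x + z)) =
          Int.fract (-∑ z, (c z : ℝ) * T' p (x + z)) := by
        have : -∑ z, (c z : ℝ) * T' p (x + z) = -∑ z, (c z : ℝ) * digT u p (x + z) +
            ((-∑ z, c z * ⌊u (x + z)⌋ : ℤ) : ℝ) := by
          simp only [hT', mul_add, Finset.sum_add_distrib]
          push_cast
          ring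
        rw [this, Int.fract_add_intCast]
      rw [e1, e2, ← (ha x).1, ← (hb x).1, Int.fract, Int.fract]
      ring
    rw [Finset.sum_congr rfl fun x _ => key x, Finset.sum_sub_distrib, Finset.sum_sub_distrib]
    have hz : ∑ x : ZMod n, ∑ z, (c z : ℝ) * T' p (x + z) = ∑ x : ZMod n, (m : ℝ) * T' p x := by
      rw [Finset.sum_comm]
      have h5 : ∀ z : ZMod n, ∑ x : ZMod n, (c z : ℝ) * T' p (x + z) =
          (c z : ℝ) * ∑ x : ZMod n, T' p x := by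
        intro z
        rw [← Finset.mul_sum]
        congr 1
        exact Equiv.sum_comp (Equiv.addRight z) (fun x => T' p x)
      rw [Finset.sum_congr rfl fun z _ => h5 z, ← Finset.sum_mul, ← Finset.mul_sum]
      congr 1
      exact_mod_cast hsum
    rw [hz, sub_self, zero_sub]
    push_cast
    rfl

end Pool.Agent.WTor
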