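import Pool.Agent.WTor.Digits

/-!
# Digits, uniform version

For every `u : ZMod n → ℝ` and `p ≥ 2` there are `w : ℤ` and `T : ZMod n → ℝ`, `|T_x - u_x| ≤ 1/p`, with
`S(m w) = ∑_x {m T_x}` and `S(-(∑ c_x p^x) w) = ∑_x {-∑_z c_z T_{x+z}}`; and if `p^n - 1` divides `m w` then all
`m T_x` are integers. Proof: `w = digW u p 0`, `T_x = digT u p x + ⌊u_x⌋`; see the proof of `digits` in
`Digits.lean` (all identities are there, exactly).
-/

set_option autoImplicit false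

namespace Pool.Agent.WTor

open Finset Pool.Agent.WVal

theorem digitsU (n : ℕ) [NeZero n] (c : ZMod n → ℤ) (m : ℕ) (u : ZMod n → ℝ) (p : ℕ) (hp : 2 ≤ p) :
    ∃ (w : ℤ) (T : ZMod n → ℝ), (∀ x, |T x - u x| ≤ 1 / (p : ℝ)) ∧
      S p n ((m : ℤ) * w) = ∑ x, Int.fract ((m : ℝ) * T x) ∧
      S p n (-((∑ x : ZMod n, c x * (p : ℤ) ^ x.val) * w)) =
        ∑ x, Int.fract (-∑ z, (c z : ℝ) * T (x + z)) ∧
      (((p : ℤ) ^ n - 1) ∣ (m : ℤ) * w → ∀ x, ∃ j : ℤ, (m : ℝ) * T x = j) := by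
  refine ⟨digW u p 0, fun x => digT u p x + (⌊u x⌋ : ℝ), fun x => digT_approx u p hp x, ?_, ?_, ?_⟩
  · rw [S_first u p hp m]
    refine Finset.sum_congr rfl fun x _ => ?_
    have : (m : ℝ) * (digT u p x + (⌊u x⌋ : ℝ)) =
        (m : ℝ) * digT u p x + (((m : ℤ) * ⌊u x⌋ : ℤ) : ℝ) := by
      push_cast
      ring
    rw [this, Int.fract_add_intCast]
  · rw [S_second u p hp c]
    refine Finset.sum_congr rfl fun x _ => ?_
    have : -∑ z, (c z : ℝ) * (digT u p (x + z) + (⌊u (x + z)⌋ : ℝ)) =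
        -∑ z, (c z : ℝ) * digT u p (x + z) + ((-∑ z, c z * ⌊u (x + z)⌋ : ℤ) : ℝ) := by
      simp only [mul_add, Finset.sum_add_distrib]
      push_cast
      ring
    rw [this, Int.fract_add_intCast]
  · rintro ⟨q, hq⟩ x
    have hN := N_pos p n hp NeZero.one_le
    obtain ⟨k, hk⟩ := digT_lift u p hp x.val
    rw [ZMod.natCast_zmod_val] at hk
    have h3 : (m : ℝ) * (digW u p 0 : ℝ) = ((p : ℝ) ^ n - 1) * (q : ℝ) := by exact_mod_cast hq
    have h4 : (m : ℝ) * ((p : ℝ) ^ x.val * (digW u p 0 : ℝ) / ((p : ℝ) ^ n - 1)) =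
        (p : ℝ) ^ x.val * (q : ℝ) := by
      have : (m : ℝ) * ((p : ℝ) ^ x.val * (digW u p 0 : ℝ) / ((p : ℝ) ^ n - 1)) =
          (p : ℝ) ^ x.val * ((m : ℝ) * (digW u p 0 : ℝ)) / ((p : ℝ) ^ n - 1) := by ring
      rw [this, h3]
      field_simp
    refine ⟨(p : ℤ) ^ x.val * q - (m : ℤ) * k + (m : ℤ) * ⌊u x⌋, ?_⟩
    push_cast
    rw [hk] at h4
    linarith

end Pool.Agent.WTor
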