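import Pool.Agent.WTor.Torus
import Pool.Agent.WTor.Digits
import Pool.Agent.WTor.Deg
import Pool.Agent.WVal.LiftId
import Pool.Agent.WVal.Final

/-!
# Q1 holds exactly for every `n` and all `p ≥ p₀(n)`
-/

set_option autoImplicit false

namespace Pool.Agent.WTor

open Finset Pool.Agent.WVal

/-- one structured exponent: `m d ≡ ∑ c_x p^x` with `∑ c = m` and at least two nonzero `c_x`. -/
theorem structured (n : ℕ) [NeZero n] (c : ZMod n → ℤ) (m : ℕ) (hm : 0 < m) (hsum : ∑ z, c z = m)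
    (hS : ∃ s s', s ≠ s' ∧ c s ≠ 0 ∧ c s' ≠ 0) :
    ∃ h k : ℕ, 2 ≤ h ∧ h * k = n ∧ ∃ A : ℤ, 2 * A ≤ h + 1 ∧ ∃ p₁ : ℕ, ∀ p : ℕ, p₁ ≤ p →
      ∃ w : ℤ, ¬ ((p : ℤ) ^ n - 1) ∣ (m : ℤ) * w ∧
        S p n ((m : ℤ) * w) + S p n (-((∑ x : ZMod n, c x * (p : ℤ) ^ x.val) * w)) = (k : ℝ) * A := by
  obtain ⟨h, k, h2, hk, A, hA, u, hu1, hu2, hu3⟩ := torus c m hm hsum hS
  rw [ZMod.card] at hk
  obtain ⟨p₁, hp₁⟩ := digits n c m hsum u hu1 hu2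
  refine ⟨h, k, h2, hk, A, hA, p₁, fun p hp => ?_⟩
  obtain ⟨w, hw1, hw2⟩ := hp₁ p hp
  refine ⟨w, hw1, ?_⟩
  rw [hw2, hu3]
  push_cast
  ring

/-- the bound for `k A`. -/
theorem kA_le (n h k ℓ : ℕ) (hh : 2 ≤ h) (hk : h * k = n) (A : ℤ) (hA : 2 * A ≤ h + 1)
    (hℓ : ℓ.Prime) (hmin : ∀ q : ℕ, q.Prime → q ≠ 2 → q ∣ n → ℓ ≤ q) :
    (k : ℝ) * A ≤ ((ℓ : ℝ) + 1) / (2 * ℓ) * n := by
  have hℓ0 : (0 : ℝ) < ℓ := by exact_mod_cast hℓ.pos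
  have hk0 : (0 : ℝ) ≤ k := by positivity
  have hnR : (n : ℝ) = h * k := by rw [← hk]; push_cast; ring
  have hexp : ((ℓ : ℝ) + 1) / (2 * ℓ) * n = (h : ℝ) * k / 2 + (h : ℝ) * k / (2 * ℓ) := by
    rw [hnR]; field_simp
  rw [hexp]
  rcases Nat.even_or_odd h with he | ho
  · -- even
    have h1 : 2 * A ≤ h := by
      obtain ⟨r, hr⟩ := he
      have : (h : ℤ) = r + r := by exact_mod_cast hr
      omega
    have h2 : 2 * (A : ℝ) ≤ h := by exact_mod_cast h1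
    have h3 : 0 ≤ (h : ℝ) * k / (2 * ℓ) := by positivity
    nlinarith
  · have hne1 : h ≠ 1 := by omega
    obtain ⟨q, hq, hqh⟩ := Nat.exists_prime_and_dvd hne1
    have hq2 : q ≠ 2 := by
      rintro rfl
      have : Even h := even_iff_two_dvd.2 hqh
      exact (Nat.not_even_iff_odd.2 ho) this
    have hℓq : ℓ ≤ q := hmin q hq hq2 (hqh.trans ⟨k, hk.symm⟩)
    have hqh' : q ≤ h := Nat.le_of_dvd (by omega) hqh
    have hℓh : (ℓ : ℝ) ≤ h := by exact_mod_cast hℓq.trans hqh'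
    have h2 : 2 * (A : ℝ) ≤ h + 1 := by exact_mod_cast hA
    have h3 : (k : ℝ) / 2 ≤ (h : ℝ) * k / (2 * ℓ) := by
      rw [div_le_div_iff₀ (by norm_num) (by positivity)]
      nlinarith
    nlinarith

theorem digit_exact (n : ℕ) (hn : 1 ≤ n) : ∃ p₀ : ℕ, ∀ p : ℕ, p₀ ≤ p → ∀ d : ℤ,
    IsCoprime d ((p : ℤ) ^ n - 1) → (∀ k : ℕ, ¬ ((p : ℤ) ^ n - 1) ∣ d - (p : ℤ) ^ k) →
    ∀ ℓ : ℕ, ℓ.Prime → ℓ ∣ n → (∀ q : ℕ, q.Prime → q ≠ 2 → q ∣ n → ℓ ≤ q) →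
    ∃ z : ℤ, ¬ ((p : ℤ) ^ n - 1) ∣ z ∧
      S p n z + S p n (-(d * z)) ≤ ((ℓ : ℝ) + 1) / (2 * ℓ) * n := by
  classical
  haveI : NeZero n := ⟨by omega⟩
  have hnR : (1 : ℝ) ≤ n := by exact_mod_cast hn
  set ε : ℝ := 1 / (2 * n) with hε
  have hε0 : 0 < ε := by rw [hε]; positivity
  obtain ⟨M, K, C, p₁, hlarge⟩ := large_p ε hε0
  obtain ⟨p₂, hdeg⟩ := deg_case ε hε0
  obtain ⟨p₃, hrat⟩ := rational_case M ε hε0
  -- structured exponents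
  set T : Finset (ℕ × (ZMod n → ℤ)) := (Finset.range (M + 1)) ×ˢ
    (Fintype.piFinset fun _ : ZMod n => Finset.Icc (-(C : ℤ)) C) with hT
  have hstr : ∀ t ∈ T, ∃ p₁ : ℕ, (0 < t.1 → ∑ z, t.2 z = t.1 →
      (∃ s s', s ≠ s' ∧ t.2 s ≠ 0 ∧ t.2 s' ≠ 0) →
      ∀ p : ℕ, p₁ ≤ p → ∀ ℓ : ℕ, ℓ.Prime → (∀ q : ℕ, q.Prime → q ≠ 2 → q ∣ n → ℓ ≤ q) →
      ∃ w : ℤ, ¬ ((p : ℤ) ^ n - 1) ∣ (t.1 : ℤ) * w ∧
        S p n ((t.1 : ℤ) * w) + S p n (-((∑ x : ZMod n, t.2 x * (p : ℤ) ^ x.val) * w)) ≤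
          ((ℓ : ℝ) + 1) / (2 * ℓ) * n) := by
    rintro ⟨m, c⟩ -
    by_cases h1 : 0 < m ∧ ∑ z, c z = m ∧ (∃ s s', s ≠ s' ∧ c s ≠ 0 ∧ c s' ≠ 0)
    · obtain ⟨hm, hsum, hS⟩ := h1
      obtain ⟨h, k, hh, hk, A, hA, p₁, hp₁⟩ := structured n c m hm hsum hS
      refine ⟨p₁, fun _ _ _ p hp ℓ hℓ hmin => ?_⟩
      obtain ⟨w, hw1, hw2⟩ := hp₁ p hp
      exact ⟨w, hw1, by rw [hw2]; exact kA_le n h k ℓ hh hk A hA hℓ hmin⟩
    · refine ⟨0, fun a b c => absurd ⟨a, b, c⟩ h1⟩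
  choose! P hP using hstr
  refine ⟨p₁ + p₂ + p₃ + (M + n * C + 3) + ∑ t ∈ T, P t, ?_⟩
  intro p hp d hcop hnd ℓ hℓ hℓn hmin
  have hℓ0 : (0 : ℝ) < ℓ := by exact_mod_cast hℓ.pos
  have hℓn' : (ℓ : ℝ) ≤ n := by exact_mod_cast Nat.le_of_dvd (by omega) hℓn
  have hεbound : (1 / 2 + ε) * n ≤ ((ℓ : ℝ) + 1) / (2 * ℓ) * n := by
    apply mul_le_mul_of_nonneg_right _ (by positivity)
    have h1 : ((ℓ : ℝ) + 1) / (2 * ℓ) = 1 / 2 + 1 / (2 * ℓ) := by field_simp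
    rw [h1, hε]
    gcongr
  have hp2 : 2 ≤ p := by omega
  by_contra hcon
  have hcon' : ¬ ∃ z : ℤ, ¬ ((p : ℤ) ^ n - 1) ∣ z ∧ S p n z + S p n (-(d * z)) ≤ (1 / 2 + ε) * n := by
    rintro ⟨z, hz, hS⟩
    exact hcon ⟨z, hz, hS.trans hεbound⟩
  -- `d ≡ 1 mod (p-1)`
  have hd1 : ((p : ℤ) - 1) ∣ d - 1 := by
    by_contra h
    exact hcon' (hdeg p n (by omega) hn d hcop h)
  obtain ⟨m, hm1, hmM, c, hc1, -, hc3⟩ := hlarge p n (by omega) hn d hcon'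
  have hp1N : ((p : ℤ) - 1) ∣ (p : ℤ) ^ n - 1 := by
    have := sub_dvd_pow_sub_pow (p : ℤ) 1 n
    rwa [one_pow] at this
  -- the sum of `c` is `m`
  have hsumc : ∑ x ∈ range n, c x = m := by
    have h1 : ((p : ℤ) - 1) ∣ (∑ x ∈ range n, c x * (p : ℤ) ^ x) - ∑ x ∈ range n, c x := by
      rw [← sum_sub_distrib]
      apply dvd_sum
      intro x _
      have h2 := sub_dvd_pow_sub_pow (p : ℤ) 1 x
      rw [one_pow] at h2
      have e : c x * (p : ℤ) ^ x - c x = c x * ((p : ℤ) ^ x - 1) := by ring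
      rw [e]
      exact Dvd.dvd.mul_left h2 _
    have h2 : ((p : ℤ) - 1) ∣ (∑ x ∈ range n, c x * (p : ℤ) ^ x) - (m : ℤ) * d := hp1N.trans hc1
    have h3 : ((p : ℤ) - 1) ∣ (m : ℤ) * (d - 1) := Dvd.dvd.mul_left hd1 _
    have h4 : ((p : ℤ) - 1) ∣ ∑ x ∈ range n, c x - (m : ℤ) := by
      have h5 := dvd_add (dvd_sub h2 h1) h3
      have e : (∑ x ∈ range n, c x * (p : ℤ) ^ x) - (m : ℤ) * d -
        ((∑ x ∈ range n, c x * (p : ℤ) ^ x) - ∑ x ∈ range n, c x) + (m : ℤ) * (d - 1) =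
        ∑ x ∈ range n, c x - (m : ℤ) := by ring
      rwa [e] at h5
    have h5 : |∑ x ∈ range n, c x - (m : ℤ)| < (p : ℤ) - 1 := by
      have h6 : |∑ x ∈ range n, c x| ≤ n * C := by
        calc |∑ x ∈ range n, c x| ≤ ∑ x ∈ range n, |c x| := abs_sum_le_sum_abs _ _
          _ ≤ ∑ x ∈ range n, (C : ℤ) := sum_le_sum hc3
          _ = n * C := by simp
      have h7 : |∑ x ∈ range n, c x - (m : ℤ)| ≤ |∑ x ∈ range n, c x| + |(m : ℤ)| := abs_sub _ _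
      rw [Nat.abs_cast] at h7
      have h8 : (m : ℤ) ≤ M := by exact_mod_cast hmM
      have h9 : ((M + n * C + 3 : ℕ) : ℤ) ≤ p := by
        have : M + n * C + 3 ≤ p := by omega
        exact_mod_cast this
      push_cast at h9
      linarith
    have h6 := Int.eq_zero_of_abs_lt_dvd h4 h5
    linarith
  set c₀ : ZMod n → ℤ := fun x => c x.val with hc₀
  have hsum0 : ∑ z, c₀ z = m := by
    rw [hc₀, sum_zmod_val n c, hsumc]
  have hpow0 : ∑ x : ZMod n, c₀ x * (p : ℤ) ^ x.val = ∑ x ∈ range n, c x * (p : ℤ) ^ x := by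
    rw [hc₀, sum_zmod_val n (fun x => c x * (p : ℤ) ^ x)]
  by_cases hS : ∃ s s', s ≠ s' ∧ c₀ s ≠ 0 ∧ c₀ s' ≠ 0
  · have hmem : ((m, c₀) : ℕ × (ZMod n → ℤ)) ∈ T := by
      rw [hT, mem_product]
      refine ⟨by simp; omega, ?_⟩
      rw [Fintype.mem_piFinset]
      intro x
      rw [mem_Icc]
      exact abs_le.1 (hc3 x.val (mem_range.2 (ZMod.val_lt x)))
    have hPle : P (m, c₀) ≤ p := by
      have : P (m, c₀) ≤ ∑ t ∈ T, P t := single_le_sum (f := P) (fun _ _ => Nat.zero_le _) hmem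
      omega
    obtain ⟨w, hw1, hw2⟩ := hP (m, c₀) hmem (by simpa using (by omega : 0 < m)) hsum0 hS p hPle ℓ hℓ hmin
    apply hcon
    refine ⟨(m : ℤ) * w, hw1, ?_⟩
    have h1 : S p n (-(d * ((m : ℤ) * w))) =
        S p n (-((∑ x : ZMod n, c₀ x * (p : ℤ) ^ x.val) * w)) := by
      apply S_congr p n hp2 hn
      rw [hpow0]
      have e : -(d * ((m : ℤ) * w)) - -((∑ x ∈ range n, c x * (p : ℤ) ^ x) * w) =
          ((∑ x ∈ range n, c x * (p : ℤ) ^ x) - (m : ℤ) * d) * w := by ring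
      rw [e]
      exact Dvd.dvd.mul_right hc1 _
    rw [h1]
    exact hw2
  · -- monomial
    push Not at hS
    obtain ⟨s, hs⟩ : ∃ s, c₀ s ≠ 0 := by
      by_contra h
      push Not at h
      rw [sum_eq_zero (fun z _ => h z)] at hsum0
      have : (0 : ℤ) < m := by exact_mod_cast hm1
      omega
    have hz : ∀ z, z ≠ s → c₀ z = 0 := fun z hz => by
      by_contra h
      exact h (hS s z hz.symm hs)
    have hcs : c₀ s = m := by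
      rw [← hsum0, sum_eq_single s (fun z _ h => hz z h) (fun h => absurd (mem_univ _) h)]
    have hpows : ∑ x : ZMod n, c₀ x * (p : ℤ) ^ x.val = (m : ℤ) * (p : ℤ) ^ s.val := by
      rw [sum_eq_single s (fun z _ h => by rw [hz z h, zero_mul]) (fun h => absurd (mem_univ _) h), hcs]
    rw [← hpow0, hpows] at hc1
    apply hcon'
    apply hrat p n (by omega) hn d m m s.val hm1 hmM
    · rw [Nat.abs_cast]; exact_mod_cast hmM
    · exact_mod_cast (by omega : m ≠ 0)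
    · have e : (m : ℤ) * d - (m : ℤ) * (p : ℤ) ^ s.val = -((m : ℤ) * (p : ℤ) ^ s.val - (m : ℤ) * d) := by
        ring
      rw [e]
      exact (dvd_neg).2 hc1
    · exact hnd
    · exact hcop

theorem weil_exact (n : ℕ) : ∃ p₀ : ℕ,
    ∀ (p : ℕ) [Fact p.Prime] (F : Type) [Field F] [Fintype F] [Algebra (ZMod p) F]
      (d ℓ : ℕ), p₀ ≤ p → Module.finrank (ZMod p) F = n →
      Nat.Coprime d (Fintype.card F - 1) →
      (¬ ∃ k : ℕ, d ≡ p ^ k [MOD Fintype.card F - 1]) →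
      ℓ.Prime → ℓ ≠ 2 → ℓ ∣ Module.finrank (ZMod p) F →
      (∀ q : ℕ, q.Prime → q ≠ 2 → q ∣ Module.finrank (ZMod p) F → ℓ ≤ q) →
      ∃ a : F, a ≠ 0 ∧ ∃ m : ℤ, m ≠ 0 ∧
        (m : ℂ) = ∏ j ∈ Finset.Ico 1 p,
          ∑ x : F, Complex.exp (2 * (Real.pi : ℂ) * Complex.I * (j : ℂ) *
            ((Algebra.trace (ZMod p) F (x ^ d - a * x)).val : ℂ) / (p : ℂ)) ∧
        (padicValInt p m : ℝ) ≤
          ((p : ℝ) - 1) * (((ℓ : ℝ) + 1) / (2 * (ℓ : ℝ))) *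
            (Module.finrank (ZMod p) F : ℝ) := by
  rcases Nat.eq_zero_or_pos n with rfl | hn1
  · refine ⟨0, ?_⟩
    intro p hpf F _ _ _ d ℓ _ hF
    have : 0 < Module.finrank (ZMod p) F := Module.finrank_pos
    omega
  obtain ⟨p₀, hD⟩ := digit_exact n hn1
  refine ⟨p₀, ?_⟩
  intro p hpf F _ _ _ d ℓ hp₀ hF hd hnd hℓ hℓ2 hℓn hmin
  have hp : p.Prime := Fact.out
  have hcard : Fintype.card F = p ^ n := by
    have := Module.card_eq_pow_finrank (K := ZMod p) (V := F)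
    rwa [ZMod.card, hF] at this
  have hppow : p ≤ p ^ n := by
    calc p = p ^ 1 := (pow_one _).symm
      _ ≤ p ^ n := Nat.pow_le_pow_right hp.pos hn1
  have hp2 := hp.two_le
  have hNcast : ((Fintype.card F - 1 : ℕ) : ℤ) = (p : ℤ) ^ n - 1 := by
    rw [Nat.cast_sub (by omega), hcard]; push_cast; ring
  have hcop : IsCoprime (d : ℤ) ((p : ℤ) ^ n - 1) := by
    rw [← hNcast]
    exact Nat.isCoprime_iff_coprime.2 hd
  have hnd' : ∀ k : ℕ, ¬ ((p : ℤ) ^ n - 1) ∣ (d : ℤ) - (p : ℤ) ^ k := by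
    intro k hk
    apply hnd
    refine ⟨k, ?_⟩
    apply Nat.ModEq.symm
    rw [Nat.modEq_iff_dvd, hNcast]
    push_cast
    exact hk
  rw [hF] at hℓn hmin
  obtain ⟨z, hz, hS⟩ := hD p hp₀ (d : ℤ) hcop hnd' ℓ hℓ hℓn hmin
  obtain ⟨a, ha, m, hm, hmC, hval⟩ := weil_of_digit_all (F := F) d hd
    (((ℓ : ℝ) + 1) / (2 * ℓ) * n) z (by rw [hF]; exact hz) (by rw [hF]; exact hS)
  exact ⟨a, ha, m, hm, hmC, by rw [mul_assoc, hF]; exact hval⟩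

end Pool.Agent.WTor
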