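import Mathlib

/-!
# Polynomial growth and carving

Proof of `growth`. Let `D = {s - s' : s, s' ∈ S}` (so `|D| ≤ K^2`, `0 ∈ D` if `S` is nonempty; if `S` is empty take
`B = B' = {v}`). Put `B_0 = {v}`, `B_{j+1} = B_j ∪ {x' ∈ W : ∃ x ∈ B_j, ∃ s s' ∈ S, x' + s' = x + s}`; all `B_j ⊆ W`.
By induction `B_j ⊆ v + {∑_{g ∈ D} n_g g : n : D → ℕ, n_g ≤ j}`, so `|B_j| ≤ (j+1)^(K^2)`. If
`|B_{j+1}| > (1+ε)|B_j|` for all `j < R` then `(1+ε)^R < |B_R| ≤ (R+1)^(K^2)`, impossible for a suitable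
`R = R(K, ε)` (exponential against polynomial growth). So some `j < R` has `|B_{j+1}| ≤ (1+ε)|B_j|`; take `B = B_j`,
`B' = B_{j+1}`, `R₀ = (R+1)^(K^2)`.
-/

set_option autoImplicit false

namespace Pool.Agent.WTor

open Finset

private theorem growth_exp (k : ℕ) (ε : ℝ) (hε : 0 < ε) :
    ∃ R : ℕ, ((R : ℝ) + 1) ^ k < (1 + ε) ^ R := by
  have h1 : (1 : ℝ) < 1 + ε := by linarith
  have h2 := tendsto_pow_const_div_const_pow_of_one_lt k h1
  have h3 : ∀ᶠ n : ℕ in Filter.atTop, (n : ℝ) ^ k / (1 + ε) ^ n < 1 / (1 + ε) :=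
    h2.eventually (gt_mem_nhds (by positivity))
  obtain ⟨n, hn, hn1⟩ := (h3.and (Filter.eventually_ge_atTop 1)).exists
  obtain ⟨R, rfl⟩ : ∃ R, n = R + 1 := ⟨n - 1, by omega⟩
  refine ⟨R, ?_⟩
  have h4 : (0 : ℝ) < (1 + ε) ^ (R + 1) := by positivity
  rw [div_lt_div_iff₀ h4 (by linarith), one_mul, pow_succ (1 + ε) R] at hn
  have h5 := lt_of_mul_lt_mul_right hn (by linarith)
  push_cast at h5
  exact h5

/-- the sets `B_j` -/
private def gB {G : Type} [AddCommGroup G] [DecidableEq G] (S W : Finset G) (v : G) :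
    ℕ → Finset G
  | 0 => {v}
  | j + 1 => gB S W v j ∪
      W.filter (fun x' => ∃ x ∈ gB S W v j, ∃ s ∈ S, ∃ s' ∈ S, x' + s' = x + s)

private theorem gB_sub {G : Type} [AddCommGroup G] [DecidableEq G] (S W : Finset G) {v : G}
    (hv : v ∈ W) (j : ℕ) : gB S W v j ⊆ W := by
  induction j with
  | zero => simpa [gB] using hv
  | succ j ih =>
    rw [gB]
    exact union_subset ih (filter_subset _ _)

private theorem gB_mem {G : Type} [AddCommGroup G] [DecidableEq G] (S W : Finset G) (v : G)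
    (j : ℕ) : v ∈ gB S W v j := by
  induction j with
  | zero => simp [gB]
  | succ j ih =>
    rw [gB]
    exact mem_union_left _ ih

private theorem gB_repr {G : Type} [AddCommGroup G] [DecidableEq G] (S W : Finset G) (v : G)
    (j : ℕ) : ∀ x ∈ gB S W v j, ∃ n : ↥(S ×ˢ S) → ℕ, (∀ g, n g ≤ j) ∧
      x = v + ∑ g, n g • (g.1.1 - g.1.2) := by
  induction j with
  | zero =>
    intro x hx
    refine ⟨fun _ => 0, fun _ => le_rfl, ?_⟩
    simpa [gB] using hx
  | succ j ih =>
    intro x hx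
    rw [gB, mem_union] at hx
    rcases hx with hx | hx
    · obtain ⟨n, hn, hx⟩ := ih x hx
      exact ⟨n, fun g => (hn g).trans (Nat.le_succ j), hx⟩
    · rw [mem_filter] at hx
      obtain ⟨-, y, hy, s, hs, s', hs', hxy⟩ := hx
      obtain ⟨n, hn, hy'⟩ := ih y hy
      set g0 : ↥(S ×ˢ S) := ⟨(s, s'), mem_product.2 ⟨hs, hs'⟩⟩ with hg0
      refine ⟨fun g => n g + if g = g0 then 1 else 0, fun g => ?_, ?_⟩
      · have := hn g
        dsimp only
        split_ifs <;> omega
      · have h1 : x = y + (s - s') := by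
          rw [eq_sub_of_add_eq hxy]
          abel
        have h2 : ∑ g : ↥(S ×ˢ S), (n g + if g = g0 then 1 else 0) • (g.1.1 - g.1.2) =
            ∑ g : ↥(S ×ˢ S), n g • (g.1.1 - g.1.2) + (s - s') := by
          simp only [add_smul, Finset.sum_add_distrib]
          congr 1
          rw [Finset.sum_eq_single g0]
          · rw [if_pos rfl, one_smul]
          · intro g _ hg
            rw [if_neg hg, zero_smul]
          · intro h
            exact absurd (Finset.mem_univ g0) h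
        rw [h2, h1, hy', add_assoc]

private theorem gB_card {G : Type} [AddCommGroup G] [DecidableEq G] (S W : Finset G) (v : G)
    (j : ℕ) {K : ℕ} (hS : S.card ≤ K) : (gB S W v j).card ≤ (j + 1) ^ (K ^ 2) := by
  have h1 : gB S W v j ⊆ (Fintype.piFinset (fun _ : ↥(S ×ˢ S) => Finset.range (j + 1))).image
      (fun n => v + ∑ g, n g • (g.1.1 - g.1.2)) := by
    intro x hx
    obtain ⟨n, hn, hx⟩ := gB_repr S W v j x hx
    rw [mem_image]
    refine ⟨n, ?_, hx.symm⟩
    rw [Fintype.mem_piFinset]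
    intro g
    rw [mem_range]
    exact Nat.lt_succ_of_le (hn g)
  have h2 := (card_le_card h1).trans card_image_le
  rw [Fintype.card_piFinset, prod_const, card_range, card_univ, Fintype.card_coe,
    card_product] at h2
  refine h2.trans (Nat.pow_le_pow_right (Nat.succ_pos j) ?_)
  rw [pow_two]
  exact Nat.mul_le_mul hS hS

theorem growth (K : ℕ) (ε : ℝ) (hε : 0 < ε) : ∃ R₀ : ℕ, ∀ (G : Type) [AddCommGroup G] [DecidableEq G]
    (S : Finset G), S.card ≤ K → ∀ (W : Finset G) (v : G), v ∈ W → ∃ B B' : Finset G,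
      v ∈ B ∧ B ⊆ B' ∧ B' ⊆ W ∧ B.card ≤ R₀ ∧ (B'.card : ℝ) ≤ (1 + ε) * B.card ∧
      ∀ x ∈ B, ∀ x' ∈ W, (∃ s ∈ S, ∃ s' ∈ S, x' + s' = x + s) → x' ∈ B' := by
  obtain ⟨R, hR⟩ := growth_exp (K ^ 2) ε hε
  refine ⟨(R + 1) ^ (K ^ 2), ?_⟩
  intro G _ _ S hS W v hv
  obtain ⟨j, hj, hjc⟩ : ∃ j, j < R ∧
      ((gB S W v (j + 1)).card : ℝ) ≤ (1 + ε) * (gB S W v j).card := by
    by_contra hcon
    push Not at hcon
    have h1 : ∀ j, j ≤ R → (1 + ε) ^ j ≤ ((gB S W v j).card : ℝ) := by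
      intro j
      induction j with
      | zero =>
        intro _
        have : (gB S W v 0).card = 1 := by simp [gB]
        rw [this]
        simp
      | succ j ih =>
        intro hj
        have h2 := ih (by omega)
        have h3 := hcon j (by omega)
        rw [pow_succ]
        have h4 : (1 + ε) ^ j * (1 + ε) ≤ ((gB S W v j).card : ℝ) * (1 + ε) :=
          mul_le_mul_of_nonneg_right h2 (by linarith)
        linarith
    have h2 := h1 R le_rfl
    have h3 : ((gB S W v R).card : ℝ) ≤ ((R : ℝ) + 1) ^ (K ^ 2) := by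
      have := gB_card S W v R hS
      exact_mod_cast this
    linarith
  refine ⟨gB S W v j, gB S W v (j + 1), gB_mem S W v j, ?_, gB_sub S W hv (j + 1), ?_, hjc, ?_⟩
  · rw [gB]
    exact subset_union_left
  · refine (gB_card S W v j hS).trans (Nat.pow_le_pow_left ?_ _)
    omega
  · intro x hx x' hx' h
    rw [gB, mem_union, mem_filter]
    obtain ⟨s, hs, s', hs', h⟩ := h
    exact Or.inr ⟨hx', x, hx, s, hs, s', hs', h⟩

end Pool.Agent.WTor
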