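import Pool.Agent.WTor.Defs

/-!
# Selection lemma

Let `V` be a finite set, `w : V → ℤ` nowhere zero, `b : V → ℝ`, `m ≥ 1`. For `τ ∈ ℝ` put
`P_τ = {x ∈ V : b_x + w_x τ ∈ ℤ}` and `σ(τ) = ∑_{x ∈ P_τ} sign (w_x)`.  For `η = ±1` the row cost is
`rowc (b_x + w_x τ) (w_x η) = 1 + η sign(w_x) [x ∈ P_τ]`, so `∑_{x∈V} rowc = |V| + η σ(τ)`, and the column cost
is `0` (`m τ ∈ ℤ`, `η = 1`), `2` (`m τ ∈ ℤ`, `η = -1`), `1` (`m τ ∉ ℤ`).

Claim 1: some `τ, η` has total `≤ |V| + 1`: take `τ = 0`: totals `|V| + σ(0)` and `|V| + 2 - σ(0)`; if both are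
`≥ |V| + 2` then `σ(0) ≥ 2` and `σ(0) ≤ 0`.
Claim 2: if `∑ w_x ≠ m` some `τ, η` has total `≤ |V|`. Otherwise for `m τ ∈ ℤ`: `σ(τ) ≥ 1` and `2 - σ(τ) ≥ 1`, so
`σ(τ) = 1`; for `m τ ∉ ℤ`: `1 + σ(τ) ≥ 1` and `1 - σ(τ) ≥ 1`, so `σ(τ) = 0`. Sum `σ(τ)` over all `τ ∈ [0,1)`
(finitely many nonzero terms): this is the number of `τ ∈ [0,1)` with `m τ ∈ ℤ`, i.e. `m`; on the other hand it is
`∑_x sign(w_x) #{τ ∈ [0,1) : b_x + w_x τ ∈ ℤ} = ∑_x sign(w_x) |w_x| = ∑_x w_x`. Contradiction.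
-/

set_option autoImplicit false

namespace Pool.Agent.WTor

open Finset

/-- the number of `τ ∈ [0,1)` with `b + w τ ∈ ℤ` is `|w|`. -/
theorem count_int (b : ℝ) (w : ℤ) (hw : w ≠ 0) : ∃ T : Finset ℝ, (T.card : ℤ) = |w| ∧
    ∀ τ : ℝ, τ ∈ T ↔ (0 ≤ τ ∧ τ < 1 ∧ ∃ k : ℤ, b + w * τ = k) := by
  classical
  have hwR : (w : ℝ) ≠ 0 := by exact_mod_cast hw
  have hinj : Function.Injective fun k : ℤ => ((k : ℝ) - b) / w := by
    intro k l hkl
    have h1 : ((k : ℝ) - b) = ((l : ℝ) - b) := by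
      have := congrArg (fun z : ℝ => z * w) hkl
      simpa [div_mul_cancel₀, hwR] using this
    have h2 : (k : ℝ) = l := by linarith
    exact_mod_cast h2
  have key : ∀ τ : ℝ, ∀ k : ℤ, b + w * τ = k ↔ ((k : ℝ) - b) / w = τ := by
    intro τ k
    rw [div_eq_iff hwR]
    constructor
    · intro h
      linarith [h, mul_comm (w : ℝ) τ]
    · intro h
      linarith [h, mul_comm (w : ℝ) τ]
  rcases lt_or_gt_of_ne hw with hneg | hpos
  · refine ⟨(Finset.Ioc (⌊b⌋ + w) ⌊b⌋).image fun k : ℤ => ((k : ℝ) - b) / w, ?_, ?_⟩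
    · rw [Finset.card_image_of_injective _ hinj, Int.card_Ioc, abs_of_neg hneg]
      omega
    · intro τ
      rw [Finset.mem_image]
      have hw0 : (w : ℝ) < 0 := by exact_mod_cast hneg
      constructor
      · rintro ⟨k, hk, hkτ⟩
        rw [Finset.mem_Ioc] at hk
        have h1 := (key τ k).2 hkτ
        have h2 : (k : ℝ) ≤ b := Int.le_floor.1 hk.2
        have h3 : b + w < k := by
          have h4 : ⌊b + w⌋ < k := by
            rw [Int.floor_add_intCast]
            exact hk.1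
          exact Int.floor_lt.1 h4
        refine ⟨?_, ?_, k, h1⟩
        · by_contra hc
          push Not at hc
          nlinarith [mul_pos_of_neg_of_neg hw0 hc]
        · by_contra hc
          push Not at hc
          nlinarith [mul_nonneg_of_nonpos_of_nonpos hw0.le (sub_nonpos.2 hc)]
      · rintro ⟨h0, h1, k, hk⟩
        refine ⟨k, ?_, (key τ k).1 hk⟩
        rw [Finset.mem_Ioc]
        constructor
        · have h4 : ⌊b + w⌋ < k := by
            rw [Int.floor_lt]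
            nlinarith [mul_pos_of_neg_of_neg hw0 (sub_neg.2 h1)]
          rwa [Int.floor_add_intCast] at h4
        · rw [Int.le_floor]
          nlinarith [mul_nonpos_of_nonpos_of_nonneg hw0.le h0]
  · refine ⟨(Finset.Ico ⌈b⌉ (⌈b⌉ + w)).image fun k : ℤ => ((k : ℝ) - b) / w, ?_, ?_⟩
    · rw [Finset.card_image_of_injective _ hinj, Int.card_Ico, abs_of_pos hpos]
      omega
    · intro τ
      rw [Finset.mem_image]
      have hw0 : (0 : ℝ) < w := by exact_mod_cast hpos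
      constructor
      · rintro ⟨k, hk, hkτ⟩
        rw [Finset.mem_Ico] at hk
        have h1 := (key τ k).2 hkτ
        have h2 : b ≤ (k : ℝ) := Int.ceil_le.1 hk.1
        have h3 : (k : ℝ) < b + w := by
          have h4 : k < ⌈b + w⌉ := by
            rw [Int.ceil_add_intCast]
            exact hk.2
          exact Int.lt_ceil.1 h4
        refine ⟨?_, ?_, k, h1⟩
        · by_contra hc
          push Not at hc
          nlinarith [mul_pos hw0 (neg_pos.2 hc)]
        · by_contra hc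
          push Not at hc
          nlinarith [mul_nonneg hw0.le (sub_nonneg.2 hc)]
      · rintro ⟨h0, h1, k, hk⟩
        refine ⟨k, ?_, (key τ k).1 hk⟩
        rw [Finset.mem_Ico]
        constructor
        · rw [Int.ceil_le]
          nlinarith [mul_nonneg hw0.le h0]
        · have h4 : k < ⌈b + w⌉ := by
            rw [Int.lt_ceil]
            nlinarith [mul_pos hw0 (sub_pos.2 h1)]
          rwa [Int.ceil_add_intCast] at h4

open Classical in
theorem rowc_one (a : ℝ) (w : ℤ) (hw : w ≠ 0) :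
    rowc a ((w : ℝ) * 1) = 1 + (if ∃ k : ℤ, a = k then w.sign else 0) := by
  unfold rowc
  by_cases h : ∃ k : ℤ, a = k
  · rw [if_pos h, if_pos h]
    rcases lt_or_gt_of_ne hw with hneg | hpos
    · have : ¬ (0 : ℝ) < (w : ℝ) * 1 := by
        rw [mul_one]
        have : (w : ℝ) < 0 := by exact_mod_cast hneg
        linarith
      rw [if_neg this, Int.sign_eq_neg_one_of_neg hneg]
      norm_num
    · have : (0 : ℝ) < (w : ℝ) * 1 := by
        rw [mul_one]
        exact_mod_cast hpos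
      rw [if_pos this, Int.sign_eq_one_of_pos hpos]
      norm_num
  · rw [if_neg h, if_neg h, add_zero]

open Classical in
theorem rowc_neg_one (a : ℝ) (w : ℤ) (hw : w ≠ 0) :
    rowc a ((w : ℝ) * (-1)) = 1 - (if ∃ k : ℤ, a = k then w.sign else 0) := by
  unfold rowc
  by_cases h : ∃ k : ℤ, a = k
  · rw [if_pos h, if_pos h]
    rcases lt_or_gt_of_ne hw with hneg | hpos
    · have : (0 : ℝ) < (w : ℝ) * (-1) := by
        have : (w : ℝ) < 0 := by exact_mod_cast hneg
        linarith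
      rw [if_pos this, Int.sign_eq_neg_one_of_neg hneg]
      norm_num
    · have : ¬ (0 : ℝ) < (w : ℝ) * (-1) := by
        have : (0 : ℝ) < (w : ℝ) := by exact_mod_cast hpos
        linarith
      rw [if_neg this, Int.sign_eq_one_of_pos hpos]
      norm_num
  · rw [if_neg h, if_neg h, sub_zero]

open Classical in
theorem select {ι : Type} (V : Finset ι) (w : ι → ℤ) (hw : ∀ x ∈ V, w x ≠ 0) (b : ι → ℝ) (m : ℕ)
    (hm : 0 < m) : ∃ τ η : ℝ, (η = 1 ∨ η = -1) ∧
      colc m τ η + ∑ x ∈ V, rowc (b x + w x * τ) (w x * η) ≤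
        (V.card : ℤ) + (if ∑ x ∈ V, w x = m then 1 else 0) := by
  -- the function `σ`
  set σ : ℝ → ℤ := fun τ => ∑ x ∈ V, (if ∃ k : ℤ, b x + w x * τ = k then (w x).sign else 0)
    with hσ
  have hone : ∀ τ : ℝ, ∑ x ∈ V, rowc (b x + w x * τ) (w x * 1) = V.card + σ τ := by
    intro τ
    rw [hσ]
    simp only
    rw [Finset.card_eq_sum_ones]
    push_cast
    rw [← Finset.sum_add_distrib]
    exact Finset.sum_congr rfl fun x hx => rowc_one _ _ (hw x hx)
  have hneg : ∀ τ : ℝ, ∑ x ∈ V, rowc (b x + w x * τ) (w x * (-1)) = V.card - σ τ := by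
    intro τ
    rw [hσ]
    simp only
    rw [Finset.card_eq_sum_ones]
    push_cast
    rw [← Finset.sum_sub_distrib]
    exact Finset.sum_congr rfl fun x hx => rowc_neg_one _ _ (hw x hx)
  have hc1 : ∀ τ : ℝ, (∃ k : ℤ, (m : ℝ) * τ = k) → colc m τ 1 = 0 := by
    intro τ h
    unfold colc
    rw [if_pos h, if_pos one_pos]
  have hc2 : ∀ τ : ℝ, (∃ k : ℤ, (m : ℝ) * τ = k) → colc m τ (-1) = 2 := by
    intro τ h
    unfold colc
    rw [if_pos h, if_neg (by norm_num)]
  have hc3 : ∀ τ e : ℝ, (¬ ∃ k : ℤ, (m : ℝ) * τ = k) → colc m τ e = 1 := by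
    intro τ e h
    unfold colc
    rw [if_neg h]
  by_cases hcase : ∑ x ∈ V, w x = m
  · rw [if_pos hcase]
    have h0 : ∃ k : ℤ, (m : ℝ) * 0 = k := ⟨0, by simp⟩
    by_cases hs : σ 0 ≤ 1
    · refine ⟨0, 1, Or.inl rfl, ?_⟩
      rw [hone, hc1 0 h0]
      omega
    · refine ⟨0, -1, Or.inr rfl, ?_⟩
      rw [hneg, hc2 0 h0]
      omega
  · rw [if_neg hcase]
    by_contra hcon
    push Not at hcon
    have hs1 : ∀ τ : ℝ, (∃ k : ℤ, (m : ℝ) * τ = k) → σ τ = 1 := by
      intro τ h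
      have h1 := hcon τ 1 (Or.inl rfl)
      have h2 := hcon τ (-1) (Or.inr rfl)
      rw [hone, hc1 τ h] at h1
      rw [hneg, hc2 τ h] at h2
      omega
    have hs0 : ∀ τ : ℝ, (¬ ∃ k : ℤ, (m : ℝ) * τ = k) → σ τ = 0 := by
      intro τ h
      have h1 := hcon τ 1 (Or.inl rfl)
      have h2 := hcon τ (-1) (Or.inr rfl)
      rw [hone, hc3 τ _ h] at h1
      rw [hneg, hc3 τ _ h] at h2
      omega
    have hm0 : (m : ℤ) ≠ 0 := by exact_mod_cast hm.ne'
    obtain ⟨Tm, hTm, hTm2⟩ := count_int 0 (m : ℤ) hm0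
    have hex : ∀ x, ∃ T : Finset ℝ, x ∈ V → (T.card : ℤ) = |w x| ∧
        ∀ τ : ℝ, τ ∈ T ↔ (0 ≤ τ ∧ τ < 1 ∧ ∃ k : ℤ, b x + w x * τ = k) := by
      intro x
      by_cases hx : x ∈ V
      · obtain ⟨T, hT⟩ := count_int (b x) (w x) (hw x hx)
        exact ⟨T, fun _ => hT⟩
      · exact ⟨∅, fun h => absurd h hx⟩
    choose T hT using hex
    set U : Finset ℝ := Tm ∪ V.biUnion T with hU
    have hU01 : ∀ τ ∈ U, 0 ≤ τ ∧ τ < 1 := by
      intro τ hτ
      rw [hU, Finset.mem_union, Finset.mem_biUnion] at hτ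
      rcases hτ with h | ⟨x, hx, h⟩
      · exact ⟨((hTm2 τ).1 h).1, ((hTm2 τ).1 h).2.1⟩
      · exact ⟨(((hT x hx).2 τ).1 h).1, (((hT x hx).2 τ).1 h).2.1⟩
    -- first count
    have hA : ∑ τ ∈ U, σ τ = m := by
      have h1 : ∑ τ ∈ U, σ τ = ∑ τ ∈ U, (if τ ∈ Tm then 1 else 0) := by
        refine Finset.sum_congr rfl fun τ hτ => ?_
        by_cases h : ∃ k : ℤ, (m : ℝ) * τ = k
        · rw [hs1 τ h, if_pos]
          rw [hTm2]
          obtain ⟨k, hk⟩ := h
          exact ⟨(hU01 τ hτ).1, (hU01 τ hτ).2, k, by push_cast; rw [zero_add]; exact hk⟩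
        · rw [hs0 τ h, if_neg]
          rw [hTm2]
          rintro ⟨-, -, k, hk⟩
          exact h ⟨k, by push_cast at hk; rw [zero_add] at hk; exact hk⟩
      rw [h1, ← Finset.sum_filter]
      have h2 : U.filter (fun τ => τ ∈ Tm) = Tm := by
        ext τ
        rw [Finset.mem_filter]
        exact ⟨fun h => h.2, fun h => ⟨by rw [hU]; exact Finset.mem_union_left _ h, h⟩⟩
      rw [h2]
      simp only [Finset.sum_const, nsmul_eq_mul, mul_one]
      rw [hTm]
      simp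
    have hB : ∑ τ ∈ U, σ τ = ∑ x ∈ V, w x := by
      rw [hσ]
      simp only
      rw [Finset.sum_comm]
      refine Finset.sum_congr rfl fun x hx => ?_
      rw [← Finset.sum_filter]
      have h2 : U.filter (fun τ => ∃ k : ℤ, b x + w x * τ = k) = T x := by
        ext τ
        rw [Finset.mem_filter, (hT x hx).2]
        constructor
        · rintro ⟨h1, h3⟩
          exact ⟨(hU01 τ h1).1, (hU01 τ h1).2, h3⟩
        · rintro ⟨h1, h3, h4⟩
          refine ⟨?_, h4⟩
          rw [hU]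
          exact Finset.mem_union_right _ (Finset.mem_biUnion.2 ⟨x, hx, ((hT x hx).2 τ).2
            ⟨h1, h3, h4⟩⟩)
      rw [h2]
      simp only [Finset.sum_const, nsmul_eq_mul]
      rw [(hT x hx).1, mul_comm]
      exact Int.sign_mul_abs (w x)
    exact hcase (hB.symm.trans hA)

end Pool.Agent.WTor
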