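import Pool.Agent.WTor.Order
import Pool.Agent.WTor.Select

/-!
# The elimination induction

Rows `x ∈ G` and columns `y ∈ G`; the coefficient of the column `y` in the row `x` is `c (y - x)`. The rows of
`U` are eliminated one group at a time: a column `y` meeting `U` with `∑_{x ∈ U} c (y - x) ≠ m` (order lemma),
its rows `V ⊆ U`, then `U ∖ V`.  The values `τ_y` are chosen in the reverse order (selection lemma) and the
direction `e_y` dominates all directions chosen before.
-/

set_option autoImplicit false

namespace Pool.Agent.WTor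

open Finset

theorem sum_update {G : Type} [AddCommGroup G] [Fintype G] [DecidableEq G] (c : G → ℤ) (f : G → ℝ)
    (y : G) (a : ℝ) (x : G) :
    ∑ z, (c z : ℝ) * Function.update f y a (x + z) =
      ∑ z, (c z : ℝ) * f (x + z) + (c (y - x) : ℝ) * (a - f y) := by
  have h : ∀ z : G, (c z : ℝ) * Function.update f y a (x + z) =
      (c z : ℝ) * f (x + z) + (if z = y - x then (c (y - x) : ℝ) * (a - f y) else 0) := by
    intro z
    by_cases hz : z = y - x
    · subst hz
      rw [if_pos rfl]
      have : x + (y - x) = y := by abel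
      rw [this, Function.update_self]
      ring
    · rw [if_neg hz, Function.update_of_ne, add_zero]
      intro h
      apply hz
      rw [← h]; abel
  rw [sum_congr rfl (fun z _ => h z), sum_add_distrib, sum_ite_eq' univ]
  simp

theorem rowc_congr (a e e' : ℝ) (h : 0 < e ↔ 0 < e') : rowc a e = rowc a e' := by
  unfold rowc
  simp only [h]

theorem colc_congr (m : ℕ) (τ e e' : ℝ) (h : 0 < e ↔ 0 < e') : colc m τ e = colc m τ e' := by
  unfold colc
  simp only [h]

theorem colc_zero (m : ℕ) (e : ℝ) (h : 0 < e) : colc m 0 e = 0 := by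
  unfold colc
  rw [if_pos ⟨0, by simp⟩, if_pos h]

open Classical in
theorem induct {G : Type} [AddCommGroup G] [Fintype G] (c : G → ℤ) (m : ℕ) (hm : 0 < m)
    (hsum : ∑ z, c z = m)
    (hgen : AddSubgroup.closure {g : G | ∃ s s', c s ≠ 0 ∧ c s' ≠ 0 ∧ g = s - s'} = ⊤)
    (U : Finset G) : ∃ τ e : G → ℝ, (∀ y, e y ≠ 0) ∧
      (∀ y, (∀ x ∈ U, c (y - x) = 0) → τ y = 0 ∧ 0 < e y) ∧
      (∀ x ∈ U, ∑ z, (c z : ℝ) * e (x + z) ≠ 0) ∧
      ∑ y, colc m (τ y) (e y) +
        ∑ x ∈ U, rowc (∑ z, (c z : ℝ) * τ (x + z)) (∑ z, (c z : ℝ) * e (x + z)) ≤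
        (U.card : ℤ) + (if U = univ then 1 else 0) := by
  induction U using Finset.strongInduction with
  | H U ih =>
  rcases U.eq_empty_or_nonempty with hU | hU
  · subst hU
    refine ⟨fun _ => 0, fun _ => 1, fun _ => one_ne_zero, fun _ _ => ⟨rfl, one_pos⟩, by simp, ?_⟩
    simp only [sum_empty, add_zero, card_empty, Nat.cast_zero, zero_add]
    rw [sum_eq_zero (fun y _ => colc_zero m 1 one_pos)]
    split_ifs <;> simp
  · -- choose the column
    have hcz : ∃ z, c z ≠ 0 := by
      by_contra hcon
      push Not at hcon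
      rw [sum_eq_zero (fun z _ => hcon z)] at hsum
      omega
    obtain ⟨y, ⟨x₀, hx₀, hcx₀⟩, hy⟩ : ∃ y, (∃ x ∈ U, c (y - x) ≠ 0) ∧
        (U ≠ univ → ∑ x ∈ U, c (y - x) ≠ m) := by
      by_cases hUu : U = univ
      · obtain ⟨z, hz⟩ := hcz
        obtain ⟨x, hx⟩ := hU
        exact ⟨x + z, ⟨x, hx, by simpa using hz⟩, fun h => absurd hUu h⟩
      · obtain ⟨y, h1, h2⟩ := order c m (by exact_mod_cast hm.ne') hsum hgen U hU hUu
        exact ⟨y, h1, fun _ => h2⟩
    set V : Finset G := U.filter (fun x => c (y - x) ≠ 0) with hV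
    set U' : Finset G := U.filter (fun x => ¬ c (y - x) ≠ 0) with hU'
    have hU'sub : U' ⊂ U := by
      rw [Finset.ssubset_iff_of_subset (filter_subset _ _)]
      exact ⟨x₀, hx₀, fun h => (mem_filter.1 h).2 hcx₀⟩
    have hU'ne : U' ≠ univ := by
      intro h
      rw [h] at hU'sub
      exact (not_ssubset_of_subset (subset_univ U)) hU'sub
    obtain ⟨τ', e', he', hun', hrow', hle'⟩ := ih U' hU'sub
    rw [if_neg hU'ne, add_zero] at hle'
    have hyun : τ' y = 0 ∧ 0 < e' y := by
      apply hun' y
      intro x hx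
      rw [hU', mem_filter] at hx
      exact not_not.1 hx.2
    obtain ⟨τ₀, η, hη, hsel⟩ := select V (fun x => c (y - x))
      (fun x hx => (mem_filter.1 hx).2) (fun x => ∑ z, (c z : ℝ) * τ' (x + z)) m hm
    have hη0 : η ≠ 0 := by
      rcases hη with h | h <;> rw [h] <;> norm_num
    have hη1 : |η| = 1 := by
      rcases hη with h | h <;> rw [h] <;> norm_num
    have hsumV : ∑ x ∈ V, c (y - x) = ∑ x ∈ U, c (y - x) := by
      rw [hV, sum_filter_ne_zero]
    set E : G → ℝ := fun x => ∑ z, (c z : ℝ) * e' (x + z) + (c (y - x) : ℝ) * (0 - e' y) with hE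
    set B : ℝ := 1 + ∑ x, |E x| with hB
    have hBpos : 0 < B := by
      have : 0 ≤ ∑ x, |E x| := sum_nonneg (fun x _ => abs_nonneg _)
      linarith
    have hBE : ∀ x, |E x| < B := by
      intro x
      have : |E x| ≤ ∑ x, |E x| :=
        single_le_sum (f := fun x => |E x|) (fun x _ => abs_nonneg _) (mem_univ x)
      linarith
    set τ : G → ℝ := Function.update τ' y τ₀ with hτ
    set e : G → ℝ := Function.update e' y (η * B) with he
    have hτrow : ∀ x, ∑ z, (c z : ℝ) * τ (x + z) =
        ∑ z, (c z : ℝ) * τ' (x + z) + (c (y - x) : ℝ) * τ₀ := by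
      intro x
      rw [hτ, sum_update, hyun.1, sub_zero]
    have herow : ∀ x, ∑ z, (c z : ℝ) * e (x + z) = E x + (c (y - x) : ℝ) * (η * B) := by
      intro x
      rw [he, sum_update, hE]
      ring
    have hsign : ∀ x ∈ V, (E x + (c (y - x) : ℝ) * (η * B) ≠ 0) ∧
        ((0 < E x + (c (y - x) : ℝ) * (η * B)) ↔ 0 < (c (y - x) : ℝ) * η) := by
      intro x hx
      have hc : c (y - x) ≠ 0 := (mem_filter.1 hx).2
      have hc1 : (1 : ℝ) ≤ |(c (y - x) : ℝ)| := by
        have : (1 : ℤ) ≤ |c (y - x)| := Int.one_le_abs hc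
        exact_mod_cast this
      have habs : B ≤ |(c (y - x) : ℝ) * (η * B)| := by
        rw [abs_mul, abs_mul, hη1, one_mul, abs_of_pos hBpos]
        nlinarith
      have hEx := abs_lt.1 (hBE x)
      rcases lt_or_ge 0 ((c (y - x) : ℝ) * η) with hp | hn
      · have : 0 < (c (y - x) : ℝ) * (η * B) := by
          rw [← mul_assoc]; exact mul_pos hp hBpos
        rw [abs_of_pos this] at habs
        refine ⟨by linarith, fun _ => hp, fun _ => by linarith⟩
      · have : (c (y - x) : ℝ) * (η * B) ≤ 0 := by
          rw [← mul_assoc]; exact mul_nonpos_of_nonpos_of_nonneg hn hBpos.le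
        rw [abs_of_nonpos this] at habs
        refine ⟨by linarith, fun h => by linarith, fun h => by linarith⟩
    refine ⟨τ, e, ?_, ?_, ?_, ?_⟩
    · intro y'
      by_cases hyy : y' = y
      · subst hyy
        rw [he, Function.update_self]
        exact mul_ne_zero hη0 hBpos.ne'
      · rw [he, Function.update_of_ne hyy]
        exact he' y'
    · intro y' hy'
      have hyy : y' ≠ y := by
        rintro rfl
        exact hcx₀ (hy' x₀ hx₀)
      rw [hτ, he, Function.update_of_ne hyy, Function.update_of_ne hyy]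
      exact hun' y' (fun x hx => hy' x (filter_subset _ _ hx))
    · intro x hx
      rw [herow]
      by_cases hxV : c (y - x) = 0
      · have hx' : x ∈ U' := by rw [hU', mem_filter]; exact ⟨hx, by simpa using hxV⟩
        have := hrow' x hx'
        rw [hE]
        simp only [hxV, Int.cast_zero, zero_mul, add_zero]
        exact this
      · exact (hsign x (by rw [hV, mem_filter]; exact ⟨hx, hxV⟩)).1
    · -- the estimate
      have hcol : ∑ y', colc m (τ y') (e y') = ∑ y', colc m (τ' y') (e' y') + colc m τ₀ η := by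
        have h1 : ∀ y', colc m (τ y') (e y') = colc m (τ' y') (e' y') +
            (if y' = y then colc m τ₀ η else 0) := by
          intro y'
          by_cases hyy : y' = y
          · subst hyy
            rw [if_pos rfl, hτ, he, Function.update_self, Function.update_self, hyun.1,
              colc_zero m _ hyun.2, zero_add]
            apply colc_congr
            exact ⟨fun h => (pos_iff_pos_of_mul_pos h).2 hBpos,
              fun h => mul_pos h hBpos⟩
          · rw [if_neg hyy, hτ, he, Function.update_of_ne hyy, Function.update_of_ne hyy, add_zero]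
        rw [sum_congr rfl (fun y' _ => h1 y'), sum_add_distrib, sum_ite_eq' univ]
        simp
      have hrows : ∑ x ∈ U, rowc (∑ z, (c z : ℝ) * τ (x + z)) (∑ z, (c z : ℝ) * e (x + z)) =
          ∑ x ∈ U', rowc (∑ z, (c z : ℝ) * τ' (x + z)) (∑ z, (c z : ℝ) * e' (x + z)) +
          ∑ x ∈ V, rowc (∑ z, (c z : ℝ) * τ' (x + z) + (c (y - x) : ℝ) * τ₀)
            ((c (y - x) : ℝ) * η) := by
        rw [← sum_filter_add_sum_filter_not U (fun x => c (y - x) ≠ 0), add_comm]
        congr 1
        · apply sum_congr rfl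
          intro x hx
          have hxV : c (y - x) = 0 := not_not.1 (mem_filter.1 hx).2
          rw [hτrow, herow, hE]
          simp only [hxV, Int.cast_zero, zero_mul, add_zero]
        · apply sum_congr rfl
          intro x hx
          rw [hτrow, herow]
          exact rowc_congr _ _ _ (hsign x hx).2
      have hcard : (U.card : ℤ) = U'.card + V.card := by
        have := card_filter_add_card_filter_not (s := U) (fun x => c (y - x) ≠ 0)
        rw [hU', hV]
        omega
      have hind : (if ∑ x ∈ V, c (y - x) = (m : ℤ) then (1 : ℤ) else 0) ≤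
          (if U = univ then 1 else 0) := by
        by_cases hUu : U = univ
        · rw [if_pos hUu]; split_ifs <;> norm_num
        · rw [if_neg hUu, if_neg (by rw [hsumV]; exact hy hUu)]
      rw [hcol, hrows, hcard]
      linarith

end Pool.Agent.WTor
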