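import Pool.Agent.WTor.Defs

/-!
# Order lemma

`G` finite abelian, `c : G → ℤ`, `m = ∑ c ≠ 0`, the differences of the support of `c` generate `G`.
For `∅ ≠ U ≠ G` there is `y` with some `x ∈ U`, `c (y - x) ≠ 0` and `∑_{x ∈ U} c (y - x) ≠ m`.
-/

set_option autoImplicit false

namespace Pool.Agent.WTor

open Finset

theorem order {G : Type} [AddCommGroup G] [Fintype G] [DecidableEq G] (c : G → ℤ) (m : ℤ) (hm : m ≠ 0)
    (hsum : ∑ z, c z = m)
    (hgen : AddSubgroup.closure {g : G | ∃ s s', c s ≠ 0 ∧ c s' ≠ 0 ∧ g = s - s'} = ⊤)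
    (U : Finset G) (hU : U.Nonempty) (hU' : U ≠ univ) :
    ∃ y, (∃ x ∈ U, c (y - x) ≠ 0) ∧ ∑ x ∈ U, c (y - x) ≠ m := by
  classical
  by_contra hcon
  push Not at hcon
  set W : Finset G := univ.filter (fun y => ∃ x ∈ U, c (y - x) ≠ 0) with hW
  have hsumy : ∀ x : G, ∑ y, c (y - x) = m := by
    intro x
    rw [← hsum]
    exact Fintype.sum_equiv (Equiv.subRight x) _ _ (fun y => rfl)
  have h1 : ∑ y, ∑ x ∈ U, c (y - x) = (U.card : ℤ) * m := by
    rw [sum_comm]
    rw [sum_congr rfl (fun x _ => hsumy x)]
    simp
  have h2 : ∑ y, ∑ x ∈ U, c (y - x) = (W.card : ℤ) * m := by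
    have e : ∀ y : G, ∑ x ∈ U, c (y - x) = if y ∈ W then m else 0 := by
      intro y
      by_cases hy : y ∈ W
      · rw [if_pos hy]
        rw [hW, mem_filter] at hy
        obtain ⟨-, x, hx, hc⟩ := hy
        exact hcon y ⟨x, hx, hc⟩
      · rw [if_neg hy]
        apply sum_eq_zero
        intro x hx
        by_contra hc
        exact hy (by rw [hW, mem_filter]; exact ⟨mem_univ _, x, hx, hc⟩)
    rw [sum_congr rfl (fun y _ => e y)]
    rw [← sum_filter]
    simp
  have hcard : W.card = U.card := by
    have h3 : (W.card : ℤ) * m = (U.card : ℤ) * m := by rw [← h1, ← h2]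
    have := mul_right_cancel₀ hm h3
    exact_mod_cast this
  have htr : ∀ s : G, c s ≠ 0 → U.image (fun x => x + s) = W := by
    intro s hs
    apply eq_of_subset_of_card_le
    · intro y hy
      rw [mem_image] at hy
      obtain ⟨x, hx, rfl⟩ := hy
      rw [hW, mem_filter]
      exact ⟨mem_univ _, x, hx, by simpa using hs⟩
    · rw [card_image_of_injective _ (add_left_injective s), hcard]
  have hstab : ∀ g : G, g ∈ AddSubgroup.closure {g : G | ∃ s s', c s ≠ 0 ∧ c s' ≠ 0 ∧ g = s - s'} →
      ∀ x, x ∈ U ↔ x + g ∈ U := by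
    intro g hg
    induction hg using AddSubgroup.closure_induction with
    | mem g hg =>
      obtain ⟨s, s', hs, hs', rfl⟩ := hg
      intro x
      constructor
      · intro hx
        have : x + s ∈ W := by
          rw [← htr s hs]; exact mem_image_of_mem _ hx
        rw [← htr s' hs', mem_image] at this
        obtain ⟨x', hx', e⟩ := this
        have : x + (s - s') = x' := by
          have : x + s - s' = x' := by rw [← e]; abel
          rw [← this]; abel
        rw [this]; exact hx'
      · intro hx
        have : x + (s - s') + s' ∈ W := by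
          rw [← htr s' hs']; exact mem_image_of_mem _ hx
        rw [← htr s hs, mem_image] at this
        obtain ⟨x', hx', e⟩ := this
        have : x = x' := by
          have : x + s = x' + s := by rw [e]; abel
          exact add_right_cancel this
        rw [this]; exact hx'
    | zero => intro x; simp
    | add a b _ _ ha hb =>
      intro x
      rw [ha x, hb (x + a), add_assoc]
    | neg a _ ha =>
      intro x
      rw [ha (x + -a)]
      simp
  apply hU'
  obtain ⟨x₀, hx₀⟩ := hU
  ext y
  simp only [mem_univ, iff_true]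
  have := (hstab (y - x₀) (by rw [hgen]; trivial) x₀).1 hx₀
  simpa using this

end Pool.Agent.WTor
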