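import Pool.Agent.WTor.Induct

/-!
# Perturbation: from `(τ, e)` to a generic point
-/

set_option autoImplicit false

namespace Pool.Agent.WTor

open Finset Filter Topology

theorem near (a e : ℝ) (he : e ≠ 0) : ∀ᶠ δ in 𝓝[>] (0 : ℝ), (∀ j : ℤ, a + δ * e ≠ j) ∧
    ⌊a + δ * e⌋ = (if 0 < e then ⌊a⌋ else ⌈a⌉ - 1) := by
  rcases lt_or_gt_of_ne he with hneg | hpos
  · have h0 : 0 < (a - (⌈a⌉ - 1)) / (-e) := by
      apply div_pos _ (by linarith)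
      have := Int.ceil_lt_add_one a
      linarith
    have hI : Set.Ioo (0 : ℝ) ((a - (⌈a⌉ - 1)) / (-e)) ∈ 𝓝[>] (0 : ℝ) := Ioo_mem_nhdsGT h0
    filter_upwards [hI] with δ hδ
    have h1 : δ * (-e) < a - (⌈a⌉ - 1) := by
      rw [← lt_div_iff₀ (by linarith)]; exact hδ.2
    have h2 : δ * e < 0 := mul_neg_of_pos_of_neg hδ.1 hneg
    have h3 := Int.le_ceil a
    have h4 : ((⌈a⌉ - 1 : ℤ) : ℝ) < a + δ * e := by push_cast; linarith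
    have h5 : a + δ * e < ((⌈a⌉ - 1 : ℤ) : ℝ) + 1 := by push_cast; linarith
    refine ⟨?_, ?_⟩
    · intro j hj
      rw [hj] at h4 h5
      have h6 : ⌈a⌉ - 1 < j := by exact_mod_cast h4
      have h7 : j < ⌈a⌉ - 1 + 1 := by exact_mod_cast h5
      omega
    · rw [if_neg (not_lt.2 hneg.le), Int.floor_eq_iff]
      exact ⟨h4.le, h5⟩
  · have h0 : 0 < (⌊a⌋ + 1 - a) / e := by
      apply div_pos _ hpos
      have := Int.lt_floor_add_one a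
      linarith
    have hI : Set.Ioo (0 : ℝ) ((⌊a⌋ + 1 - a) / e) ∈ 𝓝[>] (0 : ℝ) := Ioo_mem_nhdsGT h0
    filter_upwards [hI] with δ hδ
    have h1 : δ * e < ⌊a⌋ + 1 - a := by
      rw [← lt_div_iff₀ hpos]; exact hδ.2
    have h2 : 0 < δ * e := mul_pos hδ.1 hpos
    have h3 := Int.floor_le a
    have h4 : (⌊a⌋ : ℝ) < a + δ * e := by linarith
    have h5 : a + δ * e < (⌊a⌋ : ℝ) + 1 := by linarith
    refine ⟨?_, ?_⟩
    · intro j hj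
      rw [hj] at h4 h5
      have h6 : ⌊a⌋ < j := by exact_mod_cast h4
      have h7 : j < ⌊a⌋ + 1 := by exact_mod_cast h5
      omega
    · rw [if_pos hpos, Int.floor_eq_iff]
      exact ⟨h4.le, h5⟩

open Classical in
theorem pair (a e : ℝ) (he : e ≠ 0) : ∀ᶠ δ in 𝓝[>] (0 : ℝ), (∀ j : ℤ, a + δ * e ≠ j) ∧
    (∀ j : ℤ, -a + δ * e ≠ j) ∧ -(⌊a + δ * e⌋ + ⌊-a + δ * e⌋) =
      (if ∃ k : ℤ, a = k then (if 0 < e then 0 else 2) else 1) := by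
  filter_upwards [near a e he, near (-a) e he] with δ h1 h2
  refine ⟨h1.1, h2.1, ?_⟩
  rw [h1.2, h2.2]
  by_cases hk : ∃ k : ℤ, a = k
  · rw [if_pos hk]
    obtain ⟨k, rfl⟩ := hk
    have e1 : (-(k : ℝ)) = ((-k : ℤ) : ℝ) := by push_cast; ring
    rw [e1]
    simp only [Int.floor_intCast, Int.ceil_intCast]
    split_ifs <;> ring
  · rw [if_neg hk]
    have h3 : ⌈a⌉ = ⌊a⌋ + 1 := by
      rw [Int.ceil_eq_iff]
      have h4 := Int.floor_le a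
      have h5 := Int.lt_floor_add_one a
      have h6 : (⌊a⌋ : ℝ) ≠ a := fun h => hk ⟨⌊a⌋, h.symm⟩
      have h7 : (⌊a⌋ : ℝ) < a := lt_of_le_of_ne h4 h6
      push_cast
      exact ⟨by linarith, h5.le⟩
    rw [Int.floor_neg, Int.ceil_neg, h3]
    split_ifs <;> ring

theorem perturb {G : Type} [AddCommGroup G] [Fintype G] (c : G → ℤ) (m : ℕ) (hm : 0 < m)
    (τ e : G → ℝ) (he : ∀ y, e y ≠ 0) (hrow : ∀ x, ∑ z, (c z : ℝ) * e (x + z) ≠ 0) (L : ℤ)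
    (hle : ∑ y, colc m (τ y) (e y) +
        ∑ x, rowc (∑ z, (c z : ℝ) * τ (x + z)) (∑ z, (c z : ℝ) * e (x + z)) ≤ L) :
    ∃ u : G → ℝ, (∀ x, ∀ j : ℤ, (m : ℝ) * u x ≠ j) ∧
      (∀ x, ∀ j : ℤ, ∑ z, (c z : ℝ) * u (x + z) ≠ j) ∧
      2 * (-∑ x, (⌊(m : ℝ) * u x⌋ + ⌊-∑ z, (c z : ℝ) * u (x + z)⌋)) ≤ L := by
  classical
  have hm0 : (0 : ℝ) < m := by exact_mod_cast hm
  have hC : ∀ᶠ δ in 𝓝[>] (0 : ℝ), ∀ x, (∀ j : ℤ, (m : ℝ) * τ x + δ * ((m : ℝ) * e x) ≠ j) ∧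
      (∀ j : ℤ, -((m : ℝ) * τ x) + δ * ((m : ℝ) * e x) ≠ j) ∧
      -(⌊(m : ℝ) * τ x + δ * ((m : ℝ) * e x)⌋ + ⌊-((m : ℝ) * τ x) + δ * ((m : ℝ) * e x)⌋) =
        (if ∃ k : ℤ, (m : ℝ) * τ x = k then (if 0 < (m : ℝ) * e x then 0 else 2) else 1) := by
    rw [eventually_all]
    intro x
    exact pair _ _ (mul_ne_zero hm0.ne' (he x))
  have hR : ∀ᶠ δ in 𝓝[>] (0 : ℝ), ∀ x,
      (∀ j : ℤ, (-∑ z, (c z : ℝ) * τ (x + z)) + δ * (-∑ z, (c z : ℝ) * e (x + z)) ≠ j) ∧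
      (∀ j : ℤ, -(-∑ z, (c z : ℝ) * τ (x + z)) + δ * (-∑ z, (c z : ℝ) * e (x + z)) ≠ j) ∧
      -(⌊(-∑ z, (c z : ℝ) * τ (x + z)) + δ * (-∑ z, (c z : ℝ) * e (x + z))⌋ +
        ⌊-(-∑ z, (c z : ℝ) * τ (x + z)) + δ * (-∑ z, (c z : ℝ) * e (x + z))⌋) =
        (if ∃ k : ℤ, (-∑ z, (c z : ℝ) * τ (x + z)) = k then
          (if 0 < (-∑ z, (c z : ℝ) * e (x + z)) then 0 else 2) else 1) := by
    rw [eventually_all]
    intro x
    exact pair _ _ (neg_ne_zero.2 (hrow x))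
  obtain ⟨δ, hδC, hδR⟩ := (hC.and hR).exists
  -- the two points
  have hcol : ∀ (s : ℝ) x, (m : ℝ) * (s * τ x + δ * e x) = s * ((m : ℝ) * τ x) + δ * ((m : ℝ) * e x) := by
    intro s x; ring
  have hrowu : ∀ (s : ℝ) x, -∑ z, (c z : ℝ) * (s * τ (x + z) + δ * e (x + z)) =
      s * (-∑ z, (c z : ℝ) * τ (x + z)) + δ * (-∑ z, (c z : ℝ) * e (x + z)) := by
    intro s x
    simp only [mul_add, sum_add_distrib, mul_neg, mul_sum]
    rw [neg_add]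
    congr 1 <;> (congr 1; apply sum_congr rfl; intro z _; ring)
  have hcolc : ∀ x, colc m (τ x) (e x) =
      (if ∃ k : ℤ, (m : ℝ) * τ x = k then (if 0 < (m : ℝ) * e x then 0 else 2) else 1) := by
    intro x
    unfold colc
    have : 0 < (m : ℝ) * e x ↔ 0 < e x := mul_pos_iff_of_pos_left hm0
    simp only [this]
  have hrowc : ∀ x, rowc (∑ z, (c z : ℝ) * τ (x + z)) (∑ z, (c z : ℝ) * e (x + z)) =
      (if ∃ k : ℤ, (-∑ z, (c z : ℝ) * τ (x + z)) = k then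
          (if 0 < (-∑ z, (c z : ℝ) * e (x + z)) then 0 else 2) else 1) := by
    intro x
    unfold rowc
    have h1 : (∃ k : ℤ, (-∑ z, (c z : ℝ) * τ (x + z)) = k) ↔
        ∃ k : ℤ, (∑ z, (c z : ℝ) * τ (x + z)) = k := by
      constructor
      · rintro ⟨k, hk⟩; exact ⟨-k, by push_cast; linarith⟩
      · rintro ⟨k, hk⟩; exact ⟨-k, by push_cast; linarith⟩
    simp only [h1]
    by_cases hk : ∃ k : ℤ, (∑ z, (c z : ℝ) * τ (x + z)) = k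
    · rw [if_pos hk, if_pos hk]
      rcases lt_or_gt_of_ne (hrow x) with hn | hp
      · rw [if_neg (not_lt.2 hn.le), if_pos (by linarith)]
      · rw [if_pos hp, if_neg (by linarith)]
    · rw [if_neg hk, if_neg hk]
  set u₁ : G → ℝ := fun x => 1 * τ x + δ * e x with hu₁
  set u₂ : G → ℝ := fun x => (-1) * τ x + δ * e x with hu₂
  have htot : (-∑ x, (⌊(m : ℝ) * u₁ x⌋ + ⌊-∑ z, (c z : ℝ) * u₁ (x + z)⌋)) +
      (-∑ x, (⌊(m : ℝ) * u₂ x⌋ + ⌊-∑ z, (c z : ℝ) * u₂ (x + z)⌋)) ≤ L := by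
    refine le_trans (le_of_eq ?_) hle
    rw [← sum_add_distrib, ← sum_neg_distrib, ← sum_neg_distrib, ← sum_add_distrib]
    apply sum_congr rfl
    intro x _
    rw [hcolc, hrowc, ← (hδC x).2.2, ← (hδR x).2.2]
    simp only [hu₁, hu₂]
    rw [hcol, hcol, hrowu, hrowu]
    simp only [one_mul, neg_mul]
    ring
  have hgen : ∀ s : ℝ, (s = 1 ∨ s = -1) →
      (∀ x, ∀ j : ℤ, (m : ℝ) * (s * τ x + δ * e x) ≠ j) ∧
      (∀ x, ∀ j : ℤ, ∑ z, (c z : ℝ) * (s * τ (x + z) + δ * e (x + z)) ≠ j) := by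
    intro s hs
    constructor
    · intro x j
      rw [hcol]
      rcases hs with h | h <;> subst h
      · rw [one_mul]; exact (hδC x).1 j
      · rw [neg_one_mul]; exact (hδC x).2.1 j
    · intro x j hj
      have h1 : -∑ z, (c z : ℝ) * (s * τ (x + z) + δ * e (x + z)) = ((-j : ℤ) : ℝ) := by
        rw [hj]; push_cast; ring
      rw [hrowu] at h1
      rcases hs with h | h <;> subst h
      · rw [one_mul] at h1; exact (hδR x).1 (-j) h1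
      · rw [neg_one_mul] at h1; exact (hδR x).2.1 (-j) h1
  rcases le_total (-∑ x, (⌊(m : ℝ) * u₁ x⌋ + ⌊-∑ z, (c z : ℝ) * u₁ (x + z)⌋))
    (-∑ x, (⌊(m : ℝ) * u₂ x⌋ + ⌊-∑ z, (c z : ℝ) * u₂ (x + z)⌋)) with h | h
  · exact ⟨u₁, (hgen 1 (Or.inl rfl)).1, (hgen 1 (Or.inl rfl)).2, by linarith⟩
  · exact ⟨u₂, (hgen (-1) (Or.inr rfl)).1, (hgen (-1) (Or.inr rfl)).2, by linarith⟩

end Pool.Agent.WTor
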