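import Pool.Agent.WTor.Perturb

/-!
# The torus theorem

`F(u) = -∑_x (⌊m u_x⌋ + ⌊-∑_z c_z u_{x+z}⌋)` for `u : G → ℝ`, `m = ∑ c > 0`. If the support of `c` has at least
two elements and `H` is generated by its differences, some generic `u` has `F(u) ≤ (|G|/|H|) ⌊(|H|+1)/2⌋`.
-/

set_option autoImplicit false

namespace Pool.Agent.WTor

open Finset

theorem torus_gen {G : Type} [AddCommGroup G] [Fintype G] (c : G → ℤ) (m : ℕ) (hm : 0 < m)
    (hsum : ∑ z, c z = m)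
    (hgen : AddSubgroup.closure {g : G | ∃ s s', c s ≠ 0 ∧ c s' ≠ 0 ∧ g = s - s'} = ⊤) :
    ∃ u : G → ℝ, (∀ x, ∀ j : ℤ, (m : ℝ) * u x ≠ j) ∧
      (∀ x, ∀ j : ℤ, ∑ z, (c z : ℝ) * u (x + z) ≠ j) ∧
      2 * (-∑ x, (⌊(m : ℝ) * u x⌋ + ⌊-∑ z, (c z : ℝ) * u (x + z)⌋)) ≤ (Fintype.card G : ℤ) + 1 := by
  classical
  obtain ⟨τ, e, h1, -, h3, h4⟩ := induct c m hm hsum hgen univ
  rw [if_pos rfl, card_univ] at h4
  exact perturb c m hm τ e h1 (fun x => h3 x (mem_univ x)) _ h4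

/-- a map `a : G → H` with `a (x + t) = a x + t`. -/
theorem exists_section {G : Type} [AddCommGroup G] (H : AddSubgroup G) :
    ∃ a : G → H, ∀ (x : G) (t : H), a (x + t) = a x + t := by
  refine ⟨fun x => ⟨x - Quotient.out (QuotientAddGroup.mk x : G ⧸ H), ?_⟩, ?_⟩
  · have h := QuotientAddGroup.out_eq' (QuotientAddGroup.mk x : G ⧸ H)
    have h2 := (QuotientAddGroup.eq (s := H)).1 h
    rw [sub_eq_neg_add]
    exact h2
  · intro x t
    have h : (QuotientAddGroup.mk (x + (t : G)) : G ⧸ H) = QuotientAddGroup.mk x := by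
      rw [QuotientAddGroup.eq]
      have : -(x + (t : G)) + x = -(t : G) := by abel
      rw [this]
      exact H.neg_mem t.2
    apply Subtype.ext
    simp only [h, AddSubgroup.coe_add]
    abel

theorem sum_section {G : Type} [AddCommGroup G] [Fintype G] (H : AddSubgroup G) [Fintype H]
    (a : G → H) (ha : ∀ (x : G) (t : H), a (x + t) = a x + t) (φ : H → ℤ) :
    (Fintype.card H : ℤ) * ∑ x, φ (a x) = (Fintype.card G : ℤ) * ∑ t, φ t := by
  have h1 : ∀ t : H, ∑ x, φ (a x + t) = ∑ x, φ (a x) := by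
    intro t
    refine Fintype.sum_equiv (Equiv.addRight (t : G)) _ _ (fun x => ?_)
    simp only [Equiv.coe_addRight]
    rw [ha]
  have h2 : ∀ x : G, ∑ t, φ (a x + t) = ∑ t, φ t := by
    intro x
    exact Fintype.sum_equiv (Equiv.addLeft (a x)) _ _ (fun t => rfl)
  calc (Fintype.card H : ℤ) * ∑ x, φ (a x) = ∑ t : H, ∑ x, φ (a x + t) := by
        rw [sum_congr rfl (fun t _ => h1 t)]; simp
    _ = ∑ x, ∑ t : H, φ (a x + t) := sum_comm
    _ = (Fintype.card G : ℤ) * ∑ t, φ t := by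
        rw [sum_congr rfl (fun x _ => h2 x)]; simp

theorem torus {G : Type} [AddCommGroup G] [Fintype G] (c : G → ℤ) (m : ℕ) (hm : 0 < m)
    (hsum : ∑ z, c z = m) (hS : ∃ s s', s ≠ s' ∧ c s ≠ 0 ∧ c s' ≠ 0) :
    ∃ h k : ℕ, 2 ≤ h ∧ h * k = Fintype.card G ∧ ∃ A : ℤ, 2 * A ≤ h + 1 ∧
    ∃ u : G → ℝ, (∀ x, ∀ j : ℤ, (m : ℝ) * u x ≠ j) ∧
      (∀ x, ∀ j : ℤ, ∑ z, (c z : ℝ) * u (x + z) ≠ j) ∧
      -∑ x, (⌊(m : ℝ) * u x⌋ + ⌊-∑ z, (c z : ℝ) * u (x + z)⌋) = (k : ℤ) * A := by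
  classical
  obtain ⟨s₀, s₁, hne, hs₀, hs₁⟩ := hS
  set D : Set G := {g : G | ∃ s s', c s ≠ 0 ∧ c s' ≠ 0 ∧ g = s - s'} with hD
  set H : AddSubgroup G := AddSubgroup.closure D with hH
  have hDH : ∀ z, c z ≠ 0 → z - s₀ ∈ H := fun z hz =>
    AddSubgroup.subset_closure ⟨z, s₀, hz, hs₀, rfl⟩
  set c' : H → ℤ := fun t => c (s₀ + t) with hc'
  -- sums against `c` reduce to `H`
  have hred : ∀ f : G → ℝ, ∑ z, (c z : ℝ) * f z = ∑ t : H, (c' t : ℝ) * f (s₀ + t) := by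
    intro f
    symm
    apply Finset.sum_of_injOn (fun t : H => s₀ + (t : G))
    · intro t _ t' _ h
      exact Subtype.ext (add_left_cancel h)
    · intro t _; exact mem_univ _
    · intro z _ hz
      by_contra hcz
      apply hz
      have hcz' : c z ≠ 0 := by
        intro h
        apply hcz
        rw [h]; simp
      exact ⟨⟨z - s₀, hDH z hcz'⟩, by simp, by simp⟩
    · intro t _; rfl
  have hsum' : ∑ t, c' t = m := by
    have h1 := hred (fun _ => 1)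
    simp only [mul_one] at h1
    have h2 : ((∑ t, c' t : ℤ) : ℝ) = ((m : ℤ) : ℝ) := by
      rw [← hsum]
      push_cast
      exact h1.symm
    exact_mod_cast h2
  have hgen' : AddSubgroup.closure {g : H | ∃ s s', c' s ≠ 0 ∧ c' s' ≠ 0 ∧ g = s - s'} = ⊤ := by
    have h1 : {g : H | ∃ s s', c' s ≠ 0 ∧ c' s' ≠ 0 ∧ g = s - s'} = ((↑) : H → G) ⁻¹' D := by
      ext g
      constructor
      · rintro ⟨s, s', h1, h2, rfl⟩
        exact ⟨s₀ + s, s₀ + s', h1, h2, by rw [AddSubgroup.coe_sub]; abel⟩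
      · rintro ⟨s, s', h1, h2, h3⟩
        refine ⟨⟨s - s₀, hDH s h1⟩, ⟨s' - s₀, hDH s' h2⟩, ?_, ?_, ?_⟩
        · simpa [hc'] using h1
        · simpa [hc'] using h2
        · apply Subtype.ext
          rw [h3, AddSubgroup.coe_sub]
          simp
    rw [h1]
    exact AddSubgroup.closure_closure_coe_preimage
  obtain ⟨v, hv1, hv2, hv3⟩ := torus_gen c' m hm hsum' hgen'
  obtain ⟨a, ha⟩ := exists_section H
  have hrow : ∀ x : G, ∑ z, (c z : ℝ) * v (a (x + z)) =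
      ∑ t, (c' t : ℝ) * v (a (x + s₀) + t) := by
    intro x
    rw [hred (fun z => v (a (x + z)))]
    apply sum_congr rfl
    intro t _
    rw [← ha, add_assoc]
  set A : ℤ := -∑ x : H, (⌊(m : ℝ) * v x⌋ + ⌊-∑ z, (c' z : ℝ) * v (x + z)⌋) with hA
  obtain ⟨k, hk⟩ : Fintype.card H ∣ Fintype.card G := by
    have := AddSubgroup.card_addSubgroup_dvd_card H
    rwa [Nat.card_eq_fintype_card, Nat.card_eq_fintype_card] at this
  have hHcard : 2 ≤ Fintype.card H := by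
    have : 1 < Fintype.card H := by
      rw [Fintype.one_lt_card_iff]
      refine ⟨0, ⟨s₁ - s₀, hDH s₁ hs₁⟩, ?_⟩
      intro h
      have h2 := congrArg (Subtype.val) h
      simp only [ZeroMemClass.coe_zero] at h2
      exact hne (sub_eq_zero.1 h2.symm).symm
    exact this
  refine ⟨Fintype.card H, k, hHcard, hk.symm, A, hv3, fun x => v (a x), ?_, ?_, ?_⟩
  · intro x j; exact hv1 (a x) j
  · intro x j; rw [hrow]; exact hv2 (a (x + s₀)) j
  · have h1 : ∑ x, (⌊(m : ℝ) * v (a x)⌋ + ⌊-∑ z, (c z : ℝ) * v (a (x + z))⌋) =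
        ∑ x, (⌊(m : ℝ) * v (a x)⌋ + ⌊-∑ t, (c' t : ℝ) * v (a x + t)⌋) := by
      rw [sum_add_distrib, sum_add_distrib]
      congr 1
      refine Fintype.sum_equiv (Equiv.addRight s₀) _ _ (fun x => ?_)
      simp only [Equiv.coe_addRight]
      rw [hrow]
    rw [h1]
    have h2 := sum_section H a ha (fun t => ⌊(m : ℝ) * v t⌋ + ⌊-∑ z, (c' z : ℝ) * v (t + z)⌋)
    rw [hk] at h2
    push_cast at h2
    have h3 : (Fintype.card H : ℤ) ≠ 0 := by
      have : 0 < Fintype.card H := by omega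
      exact_mod_cast this.ne'
    rw [mul_assoc] at h2
    have h4 := mul_left_cancel₀ h3 h2
    rw [h4, hA]
    ring

end Pool.Agent.WTor
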