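import Pool.Agent.WTor.Carve
import Pool.Agent.WTor.DigitsU
import Pool.Agent.WTor.Exact

/-!
# The uniform theorem: `p₀` depends only on `ε`, not on `n`
-/

set_option autoImplicit false

namespace Pool.Agent.WTor

open Finset Pool.Agent.WVal

theorem floor_margin (a b δ : ℝ) (h : ∀ j : ℤ, δ ≤ |a - j|) (hab : |b - a| < δ) : ⌊b⌋ = ⌊a⌋ := by
  have h1 := h ⌊a⌋
  have h2 := h (⌊a⌋ + 1)
  have h3 := Int.floor_le a
  have h4 := Int.lt_floor_add_one a
  rw [abs_of_nonneg (by linarith)] at h1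
  push_cast at h2
  rw [abs_of_nonpos (by linarith)] at h2
  obtain ⟨h5, h6⟩ := abs_lt.1 hab
  rw [Int.floor_eq_iff]
  constructor <;> linarith

theorem fract_margin (a b δ η : ℝ) (h : ∀ j : ℤ, δ ≤ |a - j|) (hab : |b - a| ≤ η) (hη : η < δ) :
    Int.fract b ≤ Int.fract a + η := by
  have h1 := floor_margin a b δ h (lt_of_le_of_lt hab hη)
  have h2 := (abs_le.1 hab).2
  rw [Int.fract, Int.fract, h1]
  linarith

/-- the uniform digit theorem. -/
theorem digit_uniform (ε : ℝ) (hε : 0 < ε) : ∃ p₀ : ℕ, ∀ p n : ℕ, p₀ ≤ p → 1 ≤ n → ∀ d : ℤ,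
    IsCoprime d ((p : ℤ) ^ n - 1) → (∀ k : ℕ, ¬ ((p : ℤ) ^ n - 1) ∣ d - (p : ℤ) ^ k) →
    ∃ z : ℤ, ¬ ((p : ℤ) ^ n - 1) ∣ z ∧
      (S p n z + S p n (-(d * z)) ≤ (1 / 2 + ε) * n ∨
        ∃ h k : ℕ, 2 ≤ h ∧ h * k = n ∧ ∃ A : ℤ, 2 * A ≤ h + 1 ∧
          S p n z + S p n (-(d * z)) = (k : ℝ) * A) := by
  classical
  obtain ⟨M, K, C, p₁, hlarge⟩ := large_p ε hε
  obtain ⟨p₂, hdeg⟩ := deg_case ε hε
  obtain ⟨p₃, hrat⟩ := rational_case M ε hε
  obtain ⟨h₀, δ₁, hδ₁, hcarve⟩ := carve K C M ε hε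
  obtain ⟨δ₂, hδ₂, hsmall⟩ := small_H C M h₀
  obtain ⟨P₁, hP₁⟩ := exists_nat_gt (((M : ℝ) + K * C) / min (min δ₁ δ₂) (ε / 4))
  have hμ : 0 < min (min δ₁ δ₂) (ε / 4) := lt_min (lt_min hδ₁ hδ₂) (by positivity)
  refine ⟨p₁ + p₂ + p₃ + (M + K * C + 3) + P₁, ?_⟩
  intro p n hp hn d hcop hnd
  haveI : NeZero n := ⟨by omega⟩
  have hnR : (1 : ℝ) ≤ n := by exact_mod_cast hn
  have hp2 : 2 ≤ p := by omega
  have hp0 : (0 : ℝ) < p := by
    have : (2 : ℝ) ≤ p := by exact_mod_cast hp2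
    linarith
  have hMK0 : (0 : ℝ) ≤ (M : ℝ) + K * C := by positivity
  -- the approximation error
  have hη : ((M : ℝ) + K * C) / p < min (min δ₁ δ₂) (ε / 4) := by
    rw [div_lt_iff₀ hp0]
    rw [div_lt_iff₀ hμ] at hP₁
    have : (P₁ : ℝ) ≤ p := by exact_mod_cast (by omega : P₁ ≤ p)
    nlinarith
  have hη1 : ((M : ℝ) + K * C) / p < δ₁ := hη.trans_le ((min_le_left _ _).trans (min_le_left _ _))
  have hη2 : ((M : ℝ) + K * C) / p < δ₂ := hη.trans_le ((min_le_left _ _).trans (min_le_right _ _))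
  have hη3 : ((M : ℝ) + K * C) / p < ε / 4 := hη.trans_le (min_le_right _ _)
  by_contra hcon
  have hcon' : ¬ ∃ z : ℤ, ¬ ((p : ℤ) ^ n - 1) ∣ z ∧ S p n z + S p n (-(d * z)) ≤ (1 / 2 + ε) * n := by
    rintro ⟨z, hz, hS⟩
    exact hcon ⟨z, hz, Or.inl hS⟩
  -- `d ≡ 1 mod (p-1)`
  have hd1 : ((p : ℤ) - 1) ∣ d - 1 := by
    by_contra h
    exact hcon' (hdeg p n (by omega) hn d hcop h)
  obtain ⟨m, hm1, hmM, c, hc1, hc2, hc3⟩ := hlarge p n (by omega) hn d hcon'
  have hp1N : ((p : ℤ) - 1) ∣ (p : ℤ) ^ n - 1 := by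
    have := sub_dvd_pow_sub_pow (p : ℤ) 1 n
    rwa [one_pow] at this
  have hKC : ∑ x ∈ range n, |c x| ≤ (K : ℤ) * C := by
    calc ∑ x ∈ range n, |c x| = ∑ x ∈ (range n).filter (fun x => c x ≠ 0), |c x| := by
          symm
          apply sum_subset (filter_subset _ _)
          intro x hx hx'
          rw [mem_filter, not_and, not_not] at hx'
          rw [hx' hx]; simp
      _ ≤ ∑ x ∈ (range n).filter (fun x => c x ≠ 0), (C : ℤ) :=
          sum_le_sum (fun x hx => hc3 x (filter_subset _ _ hx))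
      _ = (((range n).filter (fun x => c x ≠ 0)).card : ℤ) * C := by simp
      _ ≤ (K : ℤ) * C := by
          have : (((range n).filter (fun x => c x ≠ 0)).card : ℤ) ≤ K := by exact_mod_cast hc2
          nlinarith [Int.natCast_nonneg C]
  -- the sum of `c` is `m`
  have hsumc : ∑ x ∈ range n, c x = m := by
    have h1 : ((p : ℤ) - 1) ∣ (∑ x ∈ range n, c x * (p : ℤ) ^ x) - ∑ x ∈ range n, c x := by
      rw [← sum_sub_distrib]
      apply dvd_sum
      intro x _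
      have h2 := sub_dvd_pow_sub_pow (p : ℤ) 1 x
      rw [one_pow] at h2
      have e : c x * (p : ℤ) ^ x - c x = c x * ((p : ℤ) ^ x - 1) := by ring
      rw [e]
      exact Dvd.dvd.mul_left h2 _
    have h2 : ((p : ℤ) - 1) ∣ (∑ x ∈ range n, c x * (p : ℤ) ^ x) - (m : ℤ) * d := hp1N.trans hc1
    have h3 : ((p : ℤ) - 1) ∣ (m : ℤ) * (d - 1) := Dvd.dvd.mul_left hd1 _
    have h4 : ((p : ℤ) - 1) ∣ ∑ x ∈ range n, c x - (m : ℤ) := by
      have h5 := dvd_add (dvd_sub h2 h1) h3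
      have e : (∑ x ∈ range n, c x * (p : ℤ) ^ x) - (m : ℤ) * d -
        ((∑ x ∈ range n, c x * (p : ℤ) ^ x) - ∑ x ∈ range n, c x) + (m : ℤ) * (d - 1) =
        ∑ x ∈ range n, c x - (m : ℤ) := by ring
      rwa [e] at h5
    have h5 : |∑ x ∈ range n, c x - (m : ℤ)| < (p : ℤ) - 1 := by
      have h6 : |∑ x ∈ range n, c x| ≤ K * C := (abs_sum_le_sum_abs _ _).trans hKC
      have h7 : |∑ x ∈ range n, c x - (m : ℤ)| ≤ |∑ x ∈ range n, c x| + |(m : ℤ)| := abs_sub _ _
      rw [Nat.abs_cast] at h7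
      have h8 : (m : ℤ) ≤ M := by exact_mod_cast hmM
      have h9 : ((M + K * C + 3 : ℕ) : ℤ) ≤ p := by
        have : M + K * C + 3 ≤ p := by omega
        exact_mod_cast this
      push_cast at h9
      linarith
    have h6 := Int.eq_zero_of_abs_lt_dvd h4 h5
    linarith
  set c₀ : ZMod n → ℤ := fun x => c x.val with hc₀
  have hsum0 : ∑ z, c₀ z = m := by
    rw [hc₀, sum_zmod_val n c, hsumc]
  have hpow0 : ∑ x : ZMod n, c₀ x * (p : ℤ) ^ x.val = ∑ x ∈ range n, c x * (p : ℤ) ^ x := by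
    rw [hc₀, sum_zmod_val n (fun x => c x * (p : ℤ) ^ x)]
  have habs0 : ∑ z, |c₀ z| ≤ (K : ℤ) * C := by
    rw [hc₀, sum_zmod_val n (fun x => |c x|)]; exact hKC
  have hC0 : ∀ z, |c₀ z| ≤ C := fun z => hc3 z.val (mem_range.2 (ZMod.val_lt z))
  have hK0 : (univ.filter (fun z => c₀ z ≠ 0)).card ≤ K := by
    refine le_trans ?_ hc2
    apply card_le_card_of_injOn (fun z : ZMod n => z.val)
    · intro z hz
      have hz' : c₀ z ≠ 0 := (mem_filter.1 hz).2
      exact mem_coe.2 (mem_filter.2 ⟨mem_range.2 (ZMod.val_lt z), hz'⟩)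
    · intro a _ b _ hab
      exact ZMod.val_injective n hab
  -- the two errors
  have hmR : (m : ℝ) ≤ M := by exact_mod_cast hmM
  have herr1 : ∀ (u T : ZMod n → ℝ), (∀ x, |T x - u x| ≤ 1 / (p : ℝ)) → ∀ x,
      |(m : ℝ) * T x - (m : ℝ) * u x| ≤ ((M : ℝ) + K * C) / p := by
    intro u T hT x
    have h1 : (m : ℝ) * T x - (m : ℝ) * u x = (m : ℝ) * (T x - u x) := by ring
    rw [h1, abs_mul, Nat.abs_cast]
    calc (m : ℝ) * |T x - u x| ≤ M * (1 / p) := by
          apply mul_le_mul hmR (hT x) (abs_nonneg _) (by positivity)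
      _ ≤ ((M : ℝ) + K * C) / p := by
          rw [mul_one_div]
          have : (0 : ℝ) ≤ K * C := by positivity
          gcongr
          linarith
  have herr2 : ∀ (u T : ZMod n → ℝ), (∀ x, |T x - u x| ≤ 1 / (p : ℝ)) → ∀ x,
      |∑ z, (c₀ z : ℝ) * T (x + z) - ∑ z, (c₀ z : ℝ) * u (x + z)| ≤ ((M : ℝ) + K * C) / p := by
    intro u T hT x
    rw [← sum_sub_distrib]
    calc |∑ z, ((c₀ z : ℝ) * T (x + z) - (c₀ z : ℝ) * u (x + z))|
        ≤ ∑ z, |(c₀ z : ℝ) * T (x + z) - (c₀ z : ℝ) * u (x + z)| := abs_sum_le_sum_abs _ _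
      _ ≤ ∑ z, |(c₀ z : ℝ)| * (1 / p) := by
          apply sum_le_sum
          intro z _
          rw [← mul_sub, abs_mul]
          exact mul_le_mul_of_nonneg_left (hT _) (abs_nonneg _)
      _ = (∑ z, |(c₀ z : ℝ)|) * (1 / p) := by rw [sum_mul]
      _ ≤ ((K : ℝ) * C) * (1 / p) := by
          apply mul_le_mul_of_nonneg_right _ (by positivity)
          exact_mod_cast habs0
      _ ≤ ((M : ℝ) + K * C) / p := by
          rw [mul_one_div]
          have : (0 : ℝ) ≤ M := by positivity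
          gcongr
          linarith
  have hScong : ∀ w : ℤ, S p n (-(d * ((m : ℤ) * w))) =
      S p n (-((∑ x : ZMod n, c₀ x * (p : ℤ) ^ x.val) * w)) := by
    intro w
    apply S_congr p n hp2 hn
    rw [hpow0]
    have e : -(d * ((m : ℤ) * w)) - -((∑ x ∈ range n, c x * (p : ℤ) ^ x) * w) =
        ((∑ x ∈ range n, c x * (p : ℤ) ^ x) - (m : ℤ) * d) * w := by ring
    rw [e]
    exact Dvd.dvd.mul_right hc1 _
  by_cases hS : ∃ s s', s ≠ s' ∧ c₀ s ≠ 0 ∧ c₀ s' ≠ 0
  · rcases le_or_gt (Nat.card (AddSubgroup.closure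
        {g : ZMod n | ∃ s s', c₀ s ≠ 0 ∧ c₀ s' ≠ 0 ∧ g = s - s'})) h₀ with hH | hH
    · -- bounded `H`
      obtain ⟨h, k, h2, hk, A, hA, u, hu1, hu2, hu3⟩ :=
        hsmall (ZMod n) c₀ m hm1 hmM hsum0 hS hC0 hH
      rw [ZMod.card] at hk
      obtain ⟨w, T, hT, hS1, hS2, hN⟩ := digitsU n c₀ m u p hp2
      have hf1 : ∀ x, ⌊(m : ℝ) * T x⌋ = ⌊(m : ℝ) * u x⌋ := fun x =>
        floor_margin _ _ δ₂ (hu1 x) ((herr1 u T hT x).trans_lt hη2)
      have hf2 : ∀ x, ⌊-∑ z, (c₀ z : ℝ) * T (x + z)⌋ = ⌊-∑ z, (c₀ z : ℝ) * u (x + z)⌋ := by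
        intro x
        apply floor_margin _ _ δ₂
        · intro j
          have h3 := hu2 x (-j)
          have e : -∑ z, (c₀ z : ℝ) * u (x + z) - j = -(∑ z, (c₀ z : ℝ) * u (x + z) - ((-j : ℤ) : ℝ)) := by
            push_cast; ring
          rw [e, abs_neg]
          exact h3
        · have e : -∑ z, (c₀ z : ℝ) * T (x + z) - -∑ z, (c₀ z : ℝ) * u (x + z) =
              -(∑ z, (c₀ z : ℝ) * T (x + z) - ∑ z, (c₀ z : ℝ) * u (x + z)) := by ring
          rw [e, abs_neg]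
          exact (herr2 u T hT x).trans_lt hη2
      apply hcon
      refine ⟨(m : ℤ) * w, ?_, Or.inr ⟨h, k, h2, hk, A, hA, ?_⟩⟩
      · intro hdv
        obtain ⟨j, hj⟩ := hN hdv 0
        have h3 := hu1 0 j
        have h4 := herr1 u T hT 0
        rw [hj, abs_sub_comm] at h4
        linarith
      · rw [hScong w, hS1, hS2]
        have h3 : ∑ x, ∑ z, (c₀ z : ℝ) * T (x + z) = ∑ x, (m : ℝ) * T x := by
          rw [sum_comm]
          have h4 : ∀ z : ZMod n, ∑ x, (c₀ z : ℝ) * T (x + z) = (c₀ z : ℝ) * ∑ x, T x := by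
            intro z
            rw [← mul_sum]
            congr 1
            exact Fintype.sum_equiv (Equiv.addRight z) _ _ (fun x => rfl)
          rw [sum_congr rfl (fun z _ => h4 z), ← sum_mul, ← mul_sum]
          congr 1
          have : ((∑ z, c₀ z : ℤ) : ℝ) = ((m : ℤ) : ℝ) := by rw [hsum0]
          push_cast at this
          exact this
        have h5 : ∑ x, Int.fract ((m : ℝ) * T x) + ∑ x, Int.fract (-∑ z, (c₀ z : ℝ) * T (x + z)) =
            ((-∑ x, (⌊(m : ℝ) * u x⌋ + ⌊-∑ z, (c₀ z : ℝ) * u (x + z)⌋) : ℤ) : ℝ) := by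
          simp only [Int.fract, hf1, hf2]
          rw [sum_sub_distrib, sum_sub_distrib, sum_neg_distrib, h3, sum_add_distrib]
          push_cast
          ring
        rw [h5, hu3]
        push_cast
        ring
    · -- large `H`
      obtain ⟨u, K', hu1, hu2, hu3⟩ := hcarve (ZMod n) c₀ m hm1 hmM hsum0 hK0 hC0 hH
      have hsd : ((univ \ K').card : ℝ) = (n : ℝ) - K'.card := by
        have := card_sdiff_add_card_eq_card (subset_univ K')
        rw [card_univ, ZMod.card] at this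
        have h4 : ((univ \ K').card : ℝ) + K'.card = n := by exact_mod_cast this
        linarith
      have hbad : ∀ i : Fin 2, (1 / 2 + ε) * n < ∑ y, Int.fract ((m : ℝ) * u i y) +
          ∑ x ∈ K', Int.fract (-∑ z, (c₀ z : ℝ) * u i (x + z)) + ((n : ℝ) - K'.card) +
            2 * n * (((M : ℝ) + K * C) / p) := by
        intro i
        obtain ⟨w, T, hT, hS1, hS2, hN⟩ := digitsU n c₀ m (u i) p hp2
        have hz : ¬ ((p : ℤ) ^ n - 1) ∣ (m : ℤ) * w := by
          intro hdv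
          obtain ⟨j, hj⟩ := hN hdv 0
          have h3 := hu1 i 0 j
          have h4 := herr1 (u i) T hT 0
          rw [hj, abs_sub_comm] at h4
          linarith
        have h5 : ¬ S p n ((m : ℤ) * w) + S p n (-(d * ((m : ℤ) * w))) ≤ (1 / 2 + ε) * n :=
          fun h => hcon' ⟨_, hz, h⟩
        rw [hScong w, hS1, hS2] at h5
        push Not at h5
        refine lt_of_lt_of_le h5 ?_
        have h6 : ∑ x, Int.fract ((m : ℝ) * T x) ≤
            ∑ y, Int.fract ((m : ℝ) * u i y) + n * (((M : ℝ) + K * C) / p) := by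
          calc ∑ x, Int.fract ((m : ℝ) * T x)
              ≤ ∑ x, (Int.fract ((m : ℝ) * u i x) + ((M : ℝ) + K * C) / p) := by
                apply sum_le_sum
                intro x _
                exact fract_margin _ _ δ₁ _ (hu1 i x) (herr1 (u i) T hT x) hη1
            _ = _ := by
                rw [sum_add_distrib]
                simp [ZMod.card]
        have h7 : ∑ x, Int.fract (-∑ z, (c₀ z : ℝ) * T (x + z)) ≤
            ∑ x ∈ K', Int.fract (-∑ z, (c₀ z : ℝ) * u i (x + z)) + n * (((M : ℝ) + K * C) / p) +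
              ((n : ℝ) - K'.card) := by
          rw [← hsd, ← sum_sdiff (subset_univ K')]
          have h8 : ∑ x ∈ univ \ K', Int.fract (-∑ z, (c₀ z : ℝ) * T (x + z)) ≤
              ((univ \ K').card : ℝ) := by
            calc _ ≤ ∑ x ∈ univ \ K', (1 : ℝ) := sum_le_sum (fun x _ => (Int.fract_lt_one _).le)
              _ = _ := by simp
          have h9 : ∑ x ∈ K', Int.fract (-∑ z, (c₀ z : ℝ) * T (x + z)) ≤
              ∑ x ∈ K', Int.fract (-∑ z, (c₀ z : ℝ) * u i (x + z)) +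
                n * (((M : ℝ) + K * C) / p) := by
            calc _ ≤ ∑ x ∈ K', (Int.fract (-∑ z, (c₀ z : ℝ) * u i (x + z)) +
                  ((M : ℝ) + K * C) / p) := by
                  apply sum_le_sum
                  intro x hx
                  apply fract_margin _ _ δ₁ _ _ _ hη1
                  · intro j
                    have h3 := hu2 i x hx (-j)
                    have e : -∑ z, (c₀ z : ℝ) * u i (x + z) - j =
                        -(∑ z, (c₀ z : ℝ) * u i (x + z) - ((-j : ℤ) : ℝ)) := by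
                      push_cast; ring
                    rw [e, abs_neg]
                    exact h3
                  · have e : -∑ z, (c₀ z : ℝ) * T (x + z) - -∑ z, (c₀ z : ℝ) * u i (x + z) =
                        -(∑ z, (c₀ z : ℝ) * T (x + z) - ∑ z, (c₀ z : ℝ) * u i (x + z)) := by ring
                    rw [e, abs_neg]
                    exact herr2 (u i) T hT x
              _ = ∑ x ∈ K', Int.fract (-∑ z, (c₀ z : ℝ) * u i (x + z)) +
                  K'.card * (((M : ℝ) + K * C) / p) := by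
                  rw [sum_add_distrib]; simp
              _ ≤ _ := by
                  have h10 : (K'.card : ℝ) ≤ n := by
                    have := card_le_univ K'
                    rw [ZMod.card] at this
                    exact_mod_cast this
                  have h11 : 0 ≤ ((M : ℝ) + K * C) / p := by positivity
                  have := mul_le_mul_of_nonneg_right h10 h11
                  linarith
          linarith
        linarith
      have h0 := hbad 0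
      have h1 := hbad 1
      rw [Fin.sum_univ_two, ZMod.card] at hu3
      have hn0 : (0 : ℝ) < n := by linarith
      have h12 := mul_lt_mul_of_pos_left hη3 hn0
      linarith
  · -- monomial
    push Not at hS
    obtain ⟨s, hs⟩ : ∃ s, c₀ s ≠ 0 := by
      by_contra h
      push Not at h
      rw [sum_eq_zero (fun z _ => h z)] at hsum0
      have : (0 : ℤ) < m := by exact_mod_cast hm1
      omega
    have hz : ∀ z, z ≠ s → c₀ z = 0 := fun z hz => by
      by_contra h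
      exact h (hS s z hz.symm hs)
    have hcs : c₀ s = m := by
      rw [← hsum0, sum_eq_single s (fun z _ h => hz z h) (fun h => absurd (mem_univ _) h)]
    have hpows : ∑ x : ZMod n, c₀ x * (p : ℤ) ^ x.val = (m : ℤ) * (p : ℤ) ^ s.val := by
      rw [sum_eq_single s (fun z _ h => by rw [hz z h, zero_mul]) (fun h => absurd (mem_univ _) h), hcs]
    rw [← hpow0, hpows] at hc1
    apply hcon'
    apply hrat p n (by omega) hn d m m s.val hm1 hmM
    · rw [Nat.abs_cast]; exact_mod_cast hmM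
    · exact_mod_cast (by omega : m ≠ 0)
    · have e : (m : ℤ) * d - (m : ℤ) * (p : ℤ) ^ s.val = -((m : ℤ) * (p : ℤ) ^ s.val - (m : ℤ) * d) := by
        ring
      rw [e]
      exact (dvd_neg).2 hc1
    · exact hnd
    · exact hcop

theorem digit_least (L : ℕ) : ∃ p₀ : ℕ, ∀ p n : ℕ, p₀ ≤ p → 1 ≤ n → ∀ d : ℤ,
    IsCoprime d ((p : ℤ) ^ n - 1) → (∀ k : ℕ, ¬ ((p : ℤ) ^ n - 1) ∣ d - (p : ℤ) ^ k) →
    ∀ ℓ : ℕ, ℓ.Prime → ℓ ≤ L → (∀ q : ℕ, q.Prime → q ≠ 2 → q ∣ n → ℓ ≤ q) →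
    ∃ z : ℤ, ¬ ((p : ℤ) ^ n - 1) ∣ z ∧
      S p n z + S p n (-(d * z)) ≤ ((ℓ : ℝ) + 1) / (2 * ℓ) * n := by
  have hε0 : 0 < 1 / (2 * ((L : ℝ) + 1)) := by positivity
  obtain ⟨p₀, hp₀⟩ := digit_uniform (1 / (2 * ((L : ℝ) + 1))) hε0
  refine ⟨p₀, ?_⟩
  intro p n hp hn d hcop hnd ℓ hℓ hℓL hmin
  have hℓ0 : (0 : ℝ) < ℓ := by exact_mod_cast hℓ.pos
  have hℓL' : (ℓ : ℝ) ≤ L := by exact_mod_cast hℓL
  obtain ⟨z, hz, hS | ⟨h, k, hh, hk, A, hA, hS⟩⟩ := hp₀ p n hp hn d hcop hnd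
  · refine ⟨z, hz, hS.trans ?_⟩
    apply mul_le_mul_of_nonneg_right _ (by positivity)
    have h1 : ((ℓ : ℝ) + 1) / (2 * ℓ) = 1 / 2 + 1 / (2 * ℓ) := by field_simp
    rw [h1]
    gcongr
    linarith
  · refine ⟨z, hz, ?_⟩
    rw [hS]
    exact kA_le n h k ℓ hh hk A hA hℓ hmin

theorem weil_least (L : ℕ) : ∃ p₀ : ℕ,
    ∀ (p : ℕ) [Fact p.Prime] (F : Type) [Field F] [Fintype F] [Algebra (ZMod p) F]
      (d ℓ : ℕ), p₀ ≤ p → ℓ ≤ L →
      Nat.Coprime d (Fintype.card F - 1) →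
      (¬ ∃ k : ℕ, d ≡ p ^ k [MOD Fintype.card F - 1]) →
      ℓ.Prime → ℓ ≠ 2 → ℓ ∣ Module.finrank (ZMod p) F →
      (∀ q : ℕ, q.Prime → q ≠ 2 → q ∣ Module.finrank (ZMod p) F → ℓ ≤ q) →
      ∃ a : F, a ≠ 0 ∧ ∃ m : ℤ, m ≠ 0 ∧
        (m : ℂ) = ∏ j ∈ Finset.Ico 1 p,
          ∑ x : F, Complex.exp (2 * (Real.pi : ℂ) * Complex.I * (j : ℂ) *
            ((Algebra.trace (ZMod p) F (x ^ d - a * x)).val : ℂ) / (p : ℂ)) ∧
        (padicValInt p m : ℝ) ≤
          ((p : ℝ) - 1) * (((ℓ : ℝ) + 1) / (2 * (ℓ : ℝ))) *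
            (Module.finrank (ZMod p) F : ℝ) := by
  obtain ⟨p₀, hD⟩ := digit_least L
  refine ⟨p₀, ?_⟩
  intro p hpf F _ _ _ d ℓ hp₀ hℓL hd hnd hℓ hℓ2 hℓn hmin
  have hp : p.Prime := Fact.out
  have hn1 : 1 ≤ Module.finrank (ZMod p) F := Module.finrank_pos
  set n := Module.finrank (ZMod p) F with hn
  have hcard : Fintype.card F = p ^ n := by
    have := Module.card_eq_pow_finrank (K := ZMod p) (V := F)
    rwa [ZMod.card] at this
  have hppow : p ≤ p ^ n := by
    calc p = p ^ 1 := (pow_one _).symm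
      _ ≤ p ^ n := Nat.pow_le_pow_right hp.pos hn1
  have hp2 := hp.two_le
  have hNcast : ((Fintype.card F - 1 : ℕ) : ℤ) = (p : ℤ) ^ n - 1 := by
    rw [Nat.cast_sub (by omega), hcard]; push_cast; ring
  have hcop : IsCoprime (d : ℤ) ((p : ℤ) ^ n - 1) := by
    rw [← hNcast]
    exact Nat.isCoprime_iff_coprime.2 hd
  have hnd' : ∀ k : ℕ, ¬ ((p : ℤ) ^ n - 1) ∣ (d : ℤ) - (p : ℤ) ^ k := by
    intro k hk
    apply hnd
    refine ⟨k, ?_⟩
    apply Nat.ModEq.symm
    rw [Nat.modEq_iff_dvd, hNcast]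
    push_cast
    exact hk
  obtain ⟨z, hz, hS⟩ := hD p n hp₀ hn1 (d : ℤ) hcop hnd' ℓ hℓ hℓL hmin
  obtain ⟨a, ha, m, hm, hmC, hval⟩ := weil_of_digit_all (F := F) d hd
    (((ℓ : ℝ) + 1) / (2 * ℓ) * n) z hz hS
  exact ⟨a, ha, m, hm, hmC, by rw [mul_assoc]; exact hval⟩

end Pool.Agent.WTor
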